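import Pool.Agent.K7.H76.SI.Mon

/-!
# The classes of polynomials over the field with two elements

`BB M κ` is the ring `F₂[X]/(M) × F₂[X]/(X^(κ+1))`; the class `cl f` of a polynomial `f` is formed by its
residue modulo `M` and its first `κ + 1` coefficients.
-/

set_option autoImplicit false

namespace Pool.Agent.K7.H76.SI

open Polynomial Finset Pool.Agent.H341R2.Sharp

/-- polynomials over the field with two elements -/
abbrev R2 : Type := (ZMod 2)[X]

theorem zmod2_cases (a : ZMod 2) : a = 0 ∨ a = 1 := by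
  revert a
  decide

theorem monic_of_ne_zero {f : R2} (hf : f ≠ 0) : f.Monic := by
  rcases zmod2_cases f.leadingCoeff with h | h
  · exact absurd (leadingCoeff_eq_zero.1 h) hf
  · exact h

theorem finite_low (n : ℕ) : {h : R2 | h.degree < n}.Finite := by
  have h1 : Finite (degreeLT (ZMod 2) n) := Finite.of_equiv _ (degreeLTEquiv (ZMod 2) n).symm.toEquiv
  have h2 : {h : R2 | h.degree < n} = (degreeLT (ZMod 2) n : Set R2) := by
    ext h
    simp [mem_degreeLT]
  rw [h2]
  exact Set.toFinite _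

/-- the polynomials of degree less than `n` -/
noncomputable def Low (n : ℕ) : Finset R2 := (finite_low n).toFinset

theorem mem_Low {n : ℕ} {h : R2} : h ∈ Low n ↔ h.degree < n := by
  unfold Low
  rw [Set.Finite.mem_toFinset]
  rfl

theorem card_Low (n : ℕ) : (Low n).card = 2 ^ n := by
  have h1 : Nat.card (degreeLT (ZMod 2) n) = 2 ^ n := by
    rw [Nat.card_congr (degreeLTEquiv (ZMod 2) n).toEquiv]
    simp
  rw [← h1]
  unfold Low
  rw [← Nat.card_eq_card_finite_toFinset]
  apply Nat.card_congr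
  exact Equiv.subtypeEquivRight fun h => by simp [mem_degreeLT]

theorem Mon_eq (n : ℕ) : Mon (ZMod 2) n = (Low n).image (fun h => X ^ n + h) := by
  classical
  ext f
  rw [mem_Mon, mem_image]
  constructor
  · rintro ⟨h1, h2⟩
    refine ⟨f - X ^ n, ?_, by ring⟩
    rw [mem_Low]
    have h3 := degree_sub_lt_left (p := f) (q := X ^ n)
      (by rw [degree_X_pow, degree_eq_natDegree h1.ne_zero, h2]) h1.ne_zero
      (by rw [h1.leadingCoeff, leadingCoeff_X_pow])
    rwa [degree_eq_natDegree h1.ne_zero, h2] at h3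
  · rintro ⟨h, hh, rfl⟩
    rw [mem_Low] at hh
    refine ⟨monic_X_pow_add hh, natDegree_eq_of_degree_eq_some ?_⟩
    rw [degree_add_eq_left_of_degree_lt (by rwa [degree_X_pow]), degree_X_pow]

theorem card_Mon (n : ℕ) : (Mon (ZMod 2) n).card = 2 ^ n := by
  classical
  rw [Mon_eq, card_image_of_injective _ (add_right_injective _), card_Low]

/-- the ring of the classes -/
abbrev BB (M : R2) (κ : ℕ) : Type := AdjoinRoot M × AdjoinRoot (X ^ (κ + 1) : R2)

/-- the class of a polynomial -/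
noncomputable def cl (M : R2) (κ : ℕ) (f : R2) : BB M κ :=
  (AdjoinRoot.mk M f, AdjoinRoot.mk (X ^ (κ + 1)) f.reverse)

theorem finite_adjoinRoot {M : R2} (hM : M ≠ 0) : Finite (AdjoinRoot M) := by
  haveI := (monic_of_ne_zero hM).finite_adjoinRoot
  exact Module.finite_of_finite (ZMod 2)

theorem finite_BB {M : R2} (hM : M ≠ 0) (κ : ℕ) : Finite (BB M κ) := by
  haveI := finite_adjoinRoot hM
  haveI := finite_adjoinRoot (M := (X ^ (κ + 1) : R2)) (pow_ne_zero _ X_ne_zero)
  infer_instance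

theorem cl_mul (M : R2) (κ : ℕ) (f g : R2) : cl M κ (f * g) = cl M κ f * cl M κ g := by
  unfold cl
  rw [reverse_mul_of_domain, map_mul, map_mul]
  rfl

theorem reverse_one : (1 : R2).reverse = 1 := by
  rw [← C_1, reverse_C]

theorem cl_one (M : R2) (κ : ℕ) : cl M κ 1 = 1 := by
  unfold cl
  rw [reverse_one, map_one, map_one]
  rfl

theorem cl_pow (M : R2) (κ : ℕ) (f : R2) (n : ℕ) : cl M κ (f ^ n) = cl M κ f ^ n := by
  induction n with
  | zero => rw [pow_zero, pow_zero, cl_one]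
  | succ n ih => rw [pow_succ, pow_succ, cl_mul, ih]

/-- units modulo `X^(κ+1)` -/
theorem isUnit_mk_iff {M h : R2} : IsUnit (AdjoinRoot.mk M h) ↔ IsCoprime h M := by
  constructor
  · intro hu
    obtain ⟨u, hu⟩ := hu.exists_right_inv
    obtain ⟨g, rfl⟩ := AdjoinRoot.mk_surjective u
    rw [← map_mul, ← map_one (AdjoinRoot.mk M), AdjoinRoot.mk_eq_mk] at hu
    obtain ⟨c, hc⟩ := hu
    exact ⟨g, -c, by linear_combination hc⟩
  · rintro ⟨a, b, hab⟩
    apply IsUnit.of_mul_eq_one (AdjoinRoot.mk M a)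
    rw [← map_mul, ← map_one (AdjoinRoot.mk M), AdjoinRoot.mk_eq_mk]
    exact ⟨-b, by linear_combination hab⟩

theorem isCoprime_X_pow_iff {h : R2} (κ : ℕ) : IsCoprime h (X ^ (κ + 1)) ↔ h.coeff 0 = 1 := by
  rw [IsCoprime.pow_right_iff (by omega)]
  constructor
  · intro hc
    rcases zmod2_cases (h.coeff 0) with h0 | h0
    · exfalso
      have h1 : (X : R2) ∣ h := X_dvd_iff.2 h0
      have h2 : IsUnit (X : R2) := hc.isUnit_of_dvd' h1 dvd_rfl
      exact not_isUnit_X h2
    · exact h0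
  · intro h0
    have h1 : (X : R2) ∣ h - 1 := by
      rw [X_dvd_iff, coeff_sub, h0]
      simp
    obtain ⟨c, hc⟩ := h1
    exact ⟨1, -c, by linear_combination hc⟩

theorem isUnit_mk_X_pow {κ : ℕ} {h : R2} :
    IsUnit (AdjoinRoot.mk (X ^ (κ + 1) : R2) h) ↔ h.coeff 0 = 1 := by
  rw [isUnit_mk_iff, isCoprime_X_pow_iff]

theorem coeff_zero_reverse_of_ne {f : R2} (hf : f ≠ 0) : f.reverse.coeff 0 = 1 := by
  rw [coeff_zero_reverse]
  exact monic_of_ne_zero hf

theorem isUnit_cl_snd {M : R2} {κ : ℕ} {f : R2} (hf : f ≠ 0) : IsUnit (cl M κ f).2 := by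
  unfold cl
  exact isUnit_mk_X_pow.2 (coeff_zero_reverse_of_ne hf)

theorem isUnit_cl_iff {M : R2} {κ : ℕ} {f : R2} (hf : f ≠ 0) : IsUnit (cl M κ f) ↔ IsCoprime f M := by
  rw [Prod.isUnit_iff]
  constructor
  · rintro ⟨h, _⟩
    exact isUnit_mk_iff.1 h
  · intro h
    exact ⟨isUnit_mk_iff.2 h, isUnit_cl_snd hf⟩

theorem reflect_dvd_iff {m κ : ℕ} (hκ : κ ≤ m) {g : R2} (hg : g.degree < m) :
    X ^ (κ + 1) ∣ reflect m g ↔ g.degree < ((m - κ : ℕ) : WithBot ℕ) := by
  rw [X_pow_dvd_iff, degree_lt_iff_coeff_zero]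
  constructor
  · intro h j hj
    by_cases hjm : j ≤ m
    · have h1 := h (m - j) (by omega)
      rw [coeff_reflect, revAt_le (by omega)] at h1
      rwa [show m - (m - j) = j by omega] at h1
    · exact coeff_eq_zero_of_degree_lt (hg.trans (by exact_mod_cast (by omega : m < j)))
  · intro h i hi
    rw [coeff_reflect, revAt_le (by omega)]
    exact h _ (by omega)

theorem cl_eq_iff {M : R2} {κ m : ℕ} (hκ : κ ≤ m) {f g : R2} (hf : f ∈ Mon (ZMod 2) m)
    (hg : g ∈ Mon (ZMod 2) m) :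
    cl M κ f = cl M κ g ↔ M ∣ f - g ∧ (f - g).degree < ((m - κ : ℕ) : WithBot ℕ) := by
  rw [mem_Mon] at hf hg
  unfold cl
  rw [Prod.mk.injEq, AdjoinRoot.mk_eq_mk, AdjoinRoot.mk_eq_mk]
  have h1 : f.reverse - g.reverse = reflect m (f - g) := by
    rw [reflect_sub, reverse, reverse, hf.2, hg.2]
  have h2 : (f - g).degree < m := by
    have h3 := degree_sub_lt_left (p := f) (q := g)
      (by rw [degree_eq_natDegree hf.1.ne_zero, degree_eq_natDegree hg.1.ne_zero, hf.2, hg.2]) hf.1.ne_zero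
      (by rw [hf.1.leadingCoeff, hg.1.leadingCoeff])
    rwa [degree_eq_natDegree hf.1.ne_zero, hf.2] at h3
  rw [h1, reflect_dvd_iff hκ h2]

theorem exists_cl_eq {M : R2} (hM : M ≠ 0) {κ m : ℕ} (hm : M.natDegree + κ ≤ m) (b : BB M κ)
    (hb : IsUnit b.2) : ∃ f ∈ Mon (ZMod 2) m, cl M κ f = b := by
  obtain ⟨b1, b2⟩ := b
  simp only at hb
  have hMm := monic_of_ne_zero hM
  obtain ⟨g, rfl⟩ := AdjoinRoot.mk_surjective b1
  obtain ⟨h, rfl⟩ := AdjoinRoot.mk_surjective b2
  rw [isUnit_mk_X_pow] at hb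
  have hXm : (X ^ (κ + 1) : R2).Monic := monic_X_pow _
  set h' := h %ₘ (X ^ (κ + 1)) with hh'
  have hdvd : X ^ (κ + 1) ∣ h - h' := by
    refine ⟨h /ₘ (X ^ (κ + 1)), ?_⟩
    have := modByMonic_add_div h (X ^ (κ + 1) : R2)
    linear_combination -this
  have h'deg : h'.degree < ((κ + 1 : ℕ) : WithBot ℕ) := by
    have := degree_modByMonic_lt h hXm
    rwa [degree_X_pow] at this
  have h'nat : h'.natDegree ≤ κ := by
    rw [natDegree_le_iff_degree_le]
    exact Order.lt_succ_iff.1 (by exact_mod_cast h'deg)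
  have h'0 : h'.coeff 0 = 1 := by
    have h1 := X_pow_dvd_iff.1 hdvd 0 (by omega)
    rw [coeff_sub, hb] at h1
    exact (sub_eq_zero.1 h1).symm
  set T := reflect κ h' with hT
  have hTk : T.coeff κ = 1 := by
    rw [hT, coeff_reflect, revAt_le le_rfl, Nat.sub_self, h'0]
  have hTn : T.natDegree ≤ κ := by
    rw [natDegree_le_iff_coeff_eq_zero]
    intro j hj
    rw [hT, coeff_reflect]
    rw [revAt_eq_self_of_lt hj]
    exact coeff_eq_zero_of_natDegree_lt (by omega)
  have hTm : T.Monic := monic_of_natDegree_le_of_coeff_eq_one κ hTn hTk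
  have hTd : T.natDegree = κ := by
    apply le_antisymm hTn
    apply le_natDegree_of_ne_zero
    rw [hTk]
    exact one_ne_zero
  set f1 : R2 := X ^ (m - κ) * T with hf1
  have hf1m : f1.Monic := (monic_X_pow _).mul hTm
  have hf1d : f1.natDegree = m := by
    rw [hf1, (monic_X_pow _).natDegree_mul hTm, natDegree_X_pow, hTd]
    omega
  set r := (g - f1) %ₘ M with hr
  have hrdeg : r.degree < M.degree := degree_modByMonic_lt _ hMm
  have hrdeg' : r.degree < ((m - κ : ℕ) : WithBot ℕ) := by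
    refine hrdeg.trans_le ?_
    rw [degree_eq_natDegree hM]
    exact_mod_cast (by omega : M.natDegree ≤ m - κ)
  have hrm : r.degree < m := hrdeg'.trans_le (by exact_mod_cast (by omega : m - κ ≤ m))
  have hrf1 : r.degree < f1.degree := by
    rw [degree_eq_natDegree hf1m.ne_zero, hf1d]
    exact hrm
  have hmon : f1 + r ∈ Mon (ZMod 2) m := by
    rw [mem_Mon]
    refine ⟨hf1m.add_of_left hrf1, ?_⟩
    rw [natDegree_add_eq_left_of_degree_lt hrf1, hf1d]
  refine ⟨f1 + r, hmon, ?_⟩
  unfold cl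
  rw [Prod.mk.injEq, AdjoinRoot.mk_eq_mk, AdjoinRoot.mk_eq_mk]
  constructor
  · refine ⟨-((g - f1) /ₘ M), ?_⟩
    have := modByMonic_add_div (g - f1) M
    linear_combination this
  · have h1 : (f1 + r).reverse = reflect m f1 + reflect m r := by
      rw [reverse, (mem_Mon.1 hmon).2, reflect_add]
    have h2 : reflect m f1 = h' := by
      have h3 : m = (m - κ) + κ := by omega
      conv_lhs => rw [h3]
      rw [hf1, reflect_mul _ _ (by rw [natDegree_X_pow]) hTn, reflect_monomial, revAt_le le_rfl, Nat.sub_self,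
        pow_zero, one_mul, hT, reflect_reflect]
    have h3 : X ^ (κ + 1) ∣ reflect m r := (reflect_dvd_iff (by omega) hrm).2 hrdeg'
    rw [h1, h2]
    have h4 : h' + reflect m r - h = reflect m r - (h - h') := by ring
    rw [h4]
    exact dvd_sub h3 hdvd

theorem card_fiber {M : R2} (hM : M ≠ 0) {κ m : ℕ} (hm : M.natDegree + κ ≤ m) (b : BB M κ)
    (hb : IsUnit b.2) [DecidableEq (BB M κ)] :
    ((Mon (ZMod 2) m).filter (fun f => cl M κ f = b)).card = 2 ^ (m - M.natDegree - κ) := by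
  classical
  obtain ⟨f0, hf0, rfl⟩ := exists_cl_eq hM hm b hb
  have hMm := monic_of_ne_zero hM
  have h1 : (Mon (ZMod 2) m).filter (fun f => cl M κ f = cl M κ f0) =
      (Low (m - M.natDegree - κ)).image (fun s => f0 + M * s) := by
    ext f
    rw [mem_filter, mem_image]
    constructor
    · rintro ⟨hf, hcl⟩
      rw [cl_eq_iff (by omega) hf hf0] at hcl
      obtain ⟨⟨s, hs⟩, hd⟩ := hcl
      refine ⟨s, ?_, by rw [← hs]; ring⟩
      rw [mem_Low]
      by_cases hs0 : s = 0
      · rw [hs0, degree_zero]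
        exact WithBot.bot_lt_coe _
      · rw [hs, degree_mul, degree_eq_natDegree hM, degree_eq_natDegree hs0] at hd
        rw [degree_eq_natDegree hs0]
        have hd' : M.natDegree + s.natDegree < m - κ := by exact_mod_cast hd
        exact_mod_cast (by omega : s.natDegree < m - M.natDegree - κ)
    · rintro ⟨s, hs, rfl⟩
      rw [mem_Low] at hs
      have hdeg : (M * s).degree < ((m - κ : ℕ) : WithBot ℕ) := by
        by_cases hs0 : s = 0
        · rw [hs0, mul_zero, degree_zero]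
          exact WithBot.bot_lt_coe _
        · rw [degree_eq_natDegree hs0] at hs
          have hs' : s.natDegree < m - M.natDegree - κ := by exact_mod_cast hs
          rw [degree_mul, degree_eq_natDegree hM, degree_eq_natDegree hs0]
          exact_mod_cast (by omega : M.natDegree + s.natDegree < m - κ)
      have hf0' := mem_Mon.1 hf0
      have hlt : (M * s).degree < f0.degree := by
        rw [degree_eq_natDegree hf0'.1.ne_zero, hf0'.2]
        exact hdeg.trans_le (by exact_mod_cast (by omega : m - κ ≤ m))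
      have hmem : f0 + M * s ∈ Mon (ZMod 2) m := by
        rw [mem_Mon]
        exact ⟨hf0'.1.add_of_left hlt, by rw [natDegree_add_eq_left_of_degree_lt hlt, hf0'.2]⟩
      refine ⟨hmem, ?_⟩
      rw [cl_eq_iff (by omega) hmem hf0, add_sub_cancel_left]
      exact ⟨dvd_mul_right _ _, hdeg⟩
  rw [h1, card_image_of_injective, card_Low]
  intro s t hst
  simpa [hM] using hst

theorem sum_cl {M : R2} (hM : M ≠ 0) {κ m : ℕ} (hm : M.natDegree + κ ≤ m) [Fintype (BB M κ)]
    {K : Type*} [Ring K] (φ : BB M κ → K) (hφ : ∀ b, ¬ IsUnit b → φ b = 0) :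
    ∑ f ∈ Mon (ZMod 2) m, φ (cl M κ f) = 2 ^ (m - M.natDegree - κ) * ∑ b, φ b := by
  classical
  have h1 : ∑ f ∈ Mon (ZMod 2) m, φ (cl M κ f) =
      ∑ b, ∑ f ∈ (Mon (ZMod 2) m).filter (fun f => cl M κ f = b), φ (cl M κ f) :=
    (sum_fiberwise_of_maps_to (fun _ _ => mem_univ _) _).symm
  rw [h1, mul_sum]
  apply sum_congr rfl
  intro b _
  have h2 : ∀ f ∈ (Mon (ZMod 2) m).filter (fun f => cl M κ f = b), φ (cl M κ f) = φ b := by
    intro f hf
    rw [(mem_filter.1 hf).2]
  rw [sum_congr rfl h2, sum_const]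
  by_cases hb : IsUnit b
  · rw [card_fiber hM hm b (Prod.isUnit_iff.1 hb).2, nsmul_eq_mul]
    push_cast
    rfl
  · rw [hφ b hb, smul_zero, mul_zero]

end Pool.Agent.K7.H76.SI
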