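import Mathlib

/-!
# Finitely many elements of a separable extension of `k(x)`, as functions on a plane curve
-/

set_option autoImplicit false
set_option linter.style.haveILetI false

namespace Pool.Agent.K7.H76.SI

open Polynomial

section

variable {k : Type} [Field k]

theorem clear_poly (P : (RatFunc k)[X]) : ∃ b : k[X], b ≠ 0 ∧ ∃ P' : k[X][X],
    P'.map (algebraMap k[X] (RatFunc k)) = C (algebraMap k[X] (RatFunc k) b) * P := by
  obtain ⟨b, hb, h⟩ := IsLocalization.integerNormalization_spec (nonZeroDivisors k[X]) P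
  refine ⟨b, nonZeroDivisors.ne_zero hb, IsLocalization.integerNormalization (nonZeroDivisors k[X]) P, ?_⟩
  rw [h, Algebra.smul_def]
  rfl

theorem clear_mv {ι : Type} (p : MvPolynomial ι (RatFunc k)) : ∃ b : k[X], b ≠ 0 ∧ ∃ p' : MvPolynomial ι k[X],
    p'.map (algebraMap k[X] (RatFunc k)) = MvPolynomial.C (algebraMap k[X] (RatFunc k) b) * p := by
  classical
  obtain ⟨b, hb⟩ := IsLocalization.exist_integer_multiples_of_finset (nonZeroDivisors k[X])
    (p.support.image (fun m => p.coeff m))
  have h1 : ∀ m, ∃ c : k[X], m ∈ p.support → algebraMap k[X] (RatFunc k) c = (b : k[X]) • p.coeff m := by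
    intro m
    by_cases hm : m ∈ p.support
    · obtain ⟨c, hc⟩ := hb _ (Finset.mem_image_of_mem _ hm)
      exact ⟨c, fun _ => hc⟩
    · exact ⟨0, fun h => absurd h hm⟩
  choose c hc using h1
  refine ⟨b, nonZeroDivisors.ne_zero b.2, ∑ m ∈ p.support, MvPolynomial.monomial m (c m), ?_⟩
  rw [map_sum]
  simp_rw [MvPolynomial.map_monomial]
  ext m
  rw [MvPolynomial.coeff_C_mul, MvPolynomial.coeff_sum]
  simp_rw [MvPolynomial.coeff_monomial]
  rw [Finset.sum_ite_eq' p.support m]
  split_ifs with h
  · rw [hc m h, Algebra.smul_def]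
  · rw [MvPolynomial.notMem_support_iff.1 h, mul_zero]

theorem clear_sep {f : k[X][X]} (hf : (f.map (algebraMap k[X] (RatFunc k))).Separable) :
    ∃ (A B : k[X][X]) (D : k[X]), D ≠ 0 ∧ A * f + B * derivative f = C D := by
  obtain ⟨u, v, huv⟩ := hf
  obtain ⟨b1, hb1, U, hU⟩ := clear_poly u
  obtain ⟨b2, hb2, V, hV⟩ := clear_poly v
  refine ⟨C b2 * U, C b1 * V, b1 * b2, mul_ne_zero hb1 hb2, ?_⟩
  apply Polynomial.map_injective (algebraMap k[X] (RatFunc k)) (IsFractionRing.injective _ _)
  rw [Polynomial.map_add, Polynomial.map_mul, Polynomial.map_mul, Polynomial.map_mul,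
    Polynomial.map_mul, hU, hV, map_C, map_C, map_C, ← derivative_map, map_mul, C_mul]
  linear_combination (C (algebraMap k[X] (RatFunc k) b1) * C (algebraMap k[X] (RatFunc k) b2)) * huv

end

/-- elements of a separable extension of `k(x)` as functions on a plane curve -/
theorem spread {k : Type} [Field k] {E : Type} [Field E] [Algebra k[X] E] [Algebra (RatFunc k) E]
    [IsScalarTower k[X] (RatFunc k) E] [Algebra.IsSeparable (RatFunc k) E] {ι : Type} [Finite ι] (S : ι → E) :
    ∃ (f A B : k[X][X]) (D δ b : k[X]) (P : ι → k[X][X]) (p : MvPolynomial ι k[X]),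
      f.Monic ∧ 0 < f.natDegree ∧ Irreducible f ∧ D ≠ 0 ∧ A * f + B * derivative f = C D ∧ δ ≠ 0 ∧ b ∣ δ ∧
      ∃ (R : Type) (_ : CommRing R) (c : k[X] →+* R) (j : R →+* E) (s : ι → R),
        Function.Injective j ∧ j.comp c = algebraMap k[X] E ∧ (∀ i, j (s i) = S i) ∧
        ∀ x θ : k, δ.eval x ≠ 0 → evalEval x θ f = 0 → ∃ e : R →+* k, e.comp c = evalRingHom x ∧
          (∀ i, e (s i) = evalEval x θ (P i) / δ.eval x) ∧
          b.eval x * θ = p.eval₂ (evalRingHom x) (fun i => e (s i)) := by
  classical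
  haveI : Fintype ι := Fintype.ofFinite ι
  let K := RatFunc k
  have halg : ∀ y : E, IsAlgebraic K y := fun y => (Algebra.IsSeparable.isIntegral K y).isAlgebraic
  have hint : ∀ y : E, IsIntegral K y := fun y => Algebra.IsSeparable.isIntegral K y
  let L := IntermediateField.adjoin K (Set.range S)
  haveI : FiniteDimensional K L := IntermediateField.finiteDimensional_adjoin (fun x _ => hint x)
  obtain ⟨α, hα⟩ := Field.exists_primitive_element K L
  have hL1 : IntermediateField.adjoin K {(α : E)} = L := by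
    have h1 := congrArg IntermediateField.lift hα
    rw [IntermediateField.lift_adjoin_simple, IntermediateField.lift_top] at h1
    exact h1
  have hinjK : Function.Injective (algebraMap K E) := (algebraMap K E).injective
  have hinjk : Function.Injective (algebraMap k[X] E) := by
    rw [IsScalarTower.algebraMap_eq k[X] K E]
    exact hinjK.comp (IsFractionRing.injective k[X] K)
  obtain ⟨c0, hc0, hc0i⟩ := ((IsFractionRing.isAlgebraic_iff k[X] K E).2 (halg (α : E))).exists_integral_multiple
  set θ : E := c0 • (α : E) with hθ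
  have hc0K : algebraMap k[X] K c0 ≠ 0 := by
    rw [Ne, map_eq_zero_iff _ (IsFractionRing.injective k[X] K)]
    exact hc0
  have hθα : θ = algebraMap K E (algebraMap k[X] K c0) * α := by
    rw [hθ, Algebra.smul_def, IsScalarTower.algebraMap_apply k[X] K E]
  have hL2 : IntermediateField.adjoin K {θ} = L := by
    rw [← hL1]
    apply le_antisymm
    · rw [IntermediateField.adjoin_simple_le_iff, hθα]
      exact mul_mem (IntermediateField.algebraMap_mem _ _) (IntermediateField.mem_adjoin_simple_self K _)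
    · rw [IntermediateField.adjoin_simple_le_iff]
      have h1 : (α : E) = algebraMap K E (algebraMap k[X] K c0)⁻¹ * θ := by
        rw [hθα, ← mul_assoc, ← map_mul, inv_mul_cancel₀ hc0K, map_one, one_mul]
      rw [h1]
      exact mul_mem (IntermediateField.algebraMap_mem _ _) (IntermediateField.mem_adjoin_simple_self K _)
  -- the minimal polynomial
  set f := minpoly k[X] θ with hf
  have hfm : f.Monic := minpoly.monic hc0i
  have hfi : Irreducible f := minpoly.irreducible hc0i
  have hfK : minpoly K θ = f.map (algebraMap k[X] K) := minpoly.isIntegrallyClosed_eq_field_fractions' K hc0i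
  have hf0 : 0 < f.natDegree := minpoly.natDegree_pos hc0i
  have hsep : (f.map (algebraMap k[X] K)).Separable := by
    rw [← hfK]
    exact Algebra.IsSeparable.isSeparable K θ
  obtain ⟨A, B, D, hD, hAB⟩ := clear_sep hsep
  -- the elements `S i`
  have hSi : ∀ i, ∃ (b : k[X]) (P : k[X][X]), b ≠ 0 ∧ aeval θ P = b • S i := by
    intro i
    have h1 : S i ∈ (IntermediateField.adjoin K {θ}).toSubalgebra := by
      rw [hL2]
      exact IntermediateField.subset_adjoin K _ (Set.mem_range_self i)
    rw [IntermediateField.adjoin_toSubalgebra_of_isAlgebraic (fun x _ => halg x),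
      Algebra.adjoin_singleton_eq_range_aeval] at h1
    obtain ⟨Q, hQ⟩ := h1
    obtain ⟨b, hb, P, hP⟩ := clear_poly Q
    refine ⟨b, P, hb, ?_⟩
    have h2 : aeval θ (P.map (algebraMap k[X] K)) = aeval θ P := aeval_map_algebraMap K θ P
    rw [← h2, hP, map_mul, aeval_C, Algebra.smul_def, IsScalarTower.algebraMap_apply k[X] K E]
    congr 1
  choose bb PP hbb hPP using hSi
  -- the element `θ`
  have hθS : ∃ (b : k[X]) (p : MvPolynomial ι k[X]), b ≠ 0 ∧ MvPolynomial.eval₂ (algebraMap k[X] E) S p = b • θ := by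
    have h1 : θ ∈ L.toSubalgebra := by
      change θ ∈ L
      rw [← hL2]
      exact IntermediateField.mem_adjoin_simple_self K _
    rw [IntermediateField.adjoin_toSubalgebra_of_isAlgebraic (fun x _ => halg x),
      Algebra.adjoin_range_eq_range_aeval] at h1
    obtain ⟨q, hq⟩ := h1
    obtain ⟨b, hb, p, hp⟩ := clear_mv q
    refine ⟨b, p, hb, ?_⟩
    have h2 : MvPolynomial.aeval S (p.map (algebraMap k[X] K)) = MvPolynomial.eval₂ (algebraMap k[X] E) S p := by
      rw [MvPolynomial.aeval_def, MvPolynomial.eval₂_map, ← IsScalarTower.algebraMap_eq]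
    have hq' : MvPolynomial.aeval S q = θ := hq
    rw [← h2, hp, map_mul, hq', MvPolynomial.aeval_C, Algebra.smul_def, IsScalarTower.algebraMap_apply k[X] K E]
  obtain ⟨b, p, hb, hp⟩ := hθS
  set δ0 : k[X] := ∏ i, bb i with hδ0
  have hδ00 : δ0 ≠ 0 := Finset.prod_ne_zero_iff.2 fun i _ => hbb i
  set δ : k[X] := b * δ0 with hδ
  have hδ0' : δ ≠ 0 := mul_ne_zero hb hδ00
  let P : ι → k[X][X] := fun i => C (b * ∏ j ∈ Finset.univ.erase i, bb j) * PP i
  have hP : ∀ i, aeval θ (P i) = δ • S i := by
    intro i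
    change aeval θ (C (b * ∏ j ∈ Finset.univ.erase i, bb j) * PP i) = _
    rw [map_mul, aeval_C, hPP, Algebra.smul_def, Algebra.smul_def, ← mul_assoc, ← map_mul, hδ, hδ0,
      ← Finset.mul_prod_erase Finset.univ bb (Finset.mem_univ i)]
    congr 2
    ring
  have hroot : eval₂ (algebraMap k[X] E) θ f = 0 := minpoly.aeval k[X] θ
  -- the rings
  let R1 := AdjoinRoot f
  let j1 : R1 →+* E := AdjoinRoot.lift (algebraMap k[X] E) θ hroot
  have hj1 : Function.Injective j1 := by
    rw [injective_iff_map_eq_zero]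
    intro a ha
    obtain ⟨g, rfl⟩ := AdjoinRoot.mk_surjective a
    have h1 : aeval θ g = 0 := by
      rw [AdjoinRoot.lift_mk] at ha
      exact ha
    rw [AdjoinRoot.mk_eq_zero]
    haveI : Module.IsTorsionFree k[X] E := by
      haveI : FaithfulSMul k[X] E := (faithfulSMul_iff_algebraMap_injective k[X] E).2 hinjk
      infer_instance
    exact minpoly.isIntegrallyClosed_dvd hc0i h1
  let x1 : R1 := AdjoinRoot.of f δ
  have hjx1 : j1 x1 = algebraMap k[X] E δ := AdjoinRoot.lift_of hroot
  have hδE : algebraMap k[X] E δ ≠ 0 := by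
    rw [Ne, map_eq_zero_iff _ hinjk]
    exact hδ0'
  have hu1 : IsUnit (j1 x1) := by
    rw [hjx1]
    exact isUnit_iff_ne_zero.2 hδE
  let R := Localization.Away x1
  let al : R1 →+* R := algebraMap R1 R
  let j : R →+* E := IsLocalization.Away.lift x1 hu1
  have hjal : ∀ a, j (al a) = j1 a := fun a => IsLocalization.Away.lift_eq x1 hu1 a
  have hux : IsUnit (al x1) := IsLocalization.Away.algebraMap_isUnit x1
  have hjinj : Function.Injective j := by
    rw [injective_iff_map_eq_zero]
    intro a ha
    obtain ⟨⟨r, s⟩, hrs⟩ := IsLocalization.surj (Submonoid.powers x1) a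
    simp only at hrs
    have h1 := congrArg j hrs
    rw [map_mul, ha, zero_mul] at h1
    have h2 : j1 r = 0 := by
      rw [← hjal]
      exact h1.symm
    have h3 : r = 0 := hj1 (by rw [h2, map_zero])
    rw [h3, map_zero] at hrs
    have h4 : IsUnit (algebraMap R1 R s) := IsLocalization.map_units R s
    exact h4.mul_left_eq_zero.1 hrs
  let w : R := ↑(hux.unit⁻¹)
  have hw : al x1 * w = 1 := by
    have := hux.unit.mul_inv
    rwa [IsUnit.unit_spec] at this
  let s : ι → R := fun i => al (AdjoinRoot.mk f (P i)) * w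
  have hjw : algebraMap k[X] E δ * j w = 1 := by
    rw [← hjx1, ← hjal, ← map_mul, hw, map_one]
  have hjs : ∀ i, j (s i) = S i := by
    intro i
    change j (al (AdjoinRoot.mk f (P i)) * w) = _
    rw [map_mul, hjal]
    have h1 : j1 (AdjoinRoot.mk f (P i)) = algebraMap k[X] E δ * S i := by
      have h2 : j1 (AdjoinRoot.mk f (P i)) = aeval θ (P i) := AdjoinRoot.lift_mk hroot _
      rw [h2, hP, Algebra.smul_def]
    rw [h1]
    linear_combination (S i) * hjw
  let c : k[X] →+* R := al.comp (AdjoinRoot.of f)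
  have hjc : j.comp c = algebraMap k[X] E := by
    refine RingHom.ext fun a => ?_
    change j (al (AdjoinRoot.of f _)) = _
    rw [hjal]
    exact AdjoinRoot.lift_of hroot
  have hjcx : ∀ a, j (c a) = algebraMap k[X] E a := fun a => by rw [← hjc]; rfl
  -- the relation for `θ`
  have hrel : c b * al (AdjoinRoot.root f) = p.eval₂ c s := by
    apply hjinj
    rw [map_mul, hjcx, hjal, MvPolynomial.eval₂_comp_left j c s p, hjc]
    have h1 : (⇑j ∘ s) = S := funext hjs
    rw [h1, hp, Algebra.smul_def]
    congr 1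
    exact AdjoinRoot.lift_root hroot
  refine ⟨f, A, B, D, δ, b, P, p, hfm, hf0, hfi, hD, hAB, hδ0', dvd_mul_right _ _, R, inferInstance, c, j, s,
    hjinj, hjc, hjs, ?_⟩
  intro x θ' hδx hfx
  have hroot' : eval₂ (evalRingHom x) θ' f = 0 := by
    rw [eval₂_evalRingHom]
    exact hfx
  let e1 : R1 →+* k := AdjoinRoot.lift (evalRingHom x) θ' hroot'
  have he1x : e1 x1 = δ.eval x := AdjoinRoot.lift_of hroot'
  have hue : IsUnit (e1 x1) := by
    rw [he1x]
    exact isUnit_iff_ne_zero.2 hδx
  let e : R →+* k := IsLocalization.Away.lift x1 hue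
  have heal : ∀ a, e (al a) = e1 a := fun a => IsLocalization.Away.lift_eq x1 hue a
  have hec : e.comp c = evalRingHom x := by
    refine RingHom.ext fun a => ?_
    change e (al (AdjoinRoot.of f _)) = _
    rw [heal]
    exact AdjoinRoot.lift_of hroot'
  have hew : δ.eval x * e w = 1 := by
    rw [← he1x, ← heal, ← map_mul, hw, map_one]
  refine ⟨e, hec, ?_, ?_⟩
  · intro i
    change e (al (AdjoinRoot.mk f (P i)) * w) = _
    rw [map_mul, heal]
    have h1 : e1 (AdjoinRoot.mk f (P i)) = evalEval x θ' (P i) := by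
      rw [← eval₂_evalRingHom]
      exact AdjoinRoot.lift_mk hroot' _
    rw [h1, eq_div_iff hδx]
    linear_combination (evalEval x θ' (P i)) * hew
  · have h1 := congrArg e hrel
    rw [map_mul, MvPolynomial.eval₂_comp_left e c s p, hec] at h1
    have h2 : e (c b) = b.eval x := by
      have : e (c b) = (e.comp c) b := rfl
      rw [this, hec]
      rfl
    have h3 : e (al (AdjoinRoot.root f)) = θ' := by
      rw [heal]
      exact AdjoinRoot.lift_root hroot'
    rw [h2, h3] at h1
    exact h1

end Pool.Agent.K7.H76.SI
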