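import Pool.Agent.K7.H76.SI.Fix
import Pool.Agent.K7.H76.SI.Spread

/-!
# The plane curve of the unit solutions
-/

set_option autoImplicit false
set_option linter.style.haveILetI false

namespace Pool.Agent.K7.H76.SI

open Polynomial Finset

section Red

variable {E : Type*} [Field E] [Algebra (ZMod 2) E] [CharP E 2]

theorem reduce_sol {τ : E[X]} {M : R2} (hM : M ≠ 0) {v : E[X]} (h : Sol τ M v) :
    ∃ v1 v1' : E[X], v1.degree < M.natDegree ∧ v1'.degree < M.natDegree ∧ im E M ∣ sq v1 - τ * v1 ∧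
      im E M ∣ v1 * v1' - 1 := by
  have hMm := monic_of_ne_zero hM
  have hMm' : (im E M).Monic := hMm.map _
  have hMd : (im E M).natDegree = M.natDegree := hMm.natDegree_map _
  obtain ⟨h1, a, b, hab⟩ := h
  have hd : ∀ u : E[X], (u %ₘ (im E M)).degree < M.natDegree := by
    intro u
    have := degree_modByMonic_lt u hMm'
    rwa [degree_eq_natDegree hMm'.ne_zero, hMd] at this
  refine ⟨v %ₘ (im E M), a %ₘ (im E M), hd _, hd _, ?_, ?_⟩
  · have h2 := modByMonic_add_div v (im E M)
    set q := v /ₘ (im E M) with hq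
    have h3 : v %ₘ (im E M) = v - im E M * q := by linear_combination h2
    have h4 : sq (v %ₘ (im E M)) - τ * (v %ₘ (im E M)) = (sq v - τ * v) - im E M * (sq q - τ * q) := by
      rw [h3, sq_sub, sq_mul, sq_im]
      ring
    rw [h4]
    exact dvd_sub h1 (dvd_mul_right _ _)
  · have h2 := modByMonic_add_div v (im E M)
    have h3 := modByMonic_add_div a (im E M)
    set q := v /ₘ (im E M) with hq
    set t := a /ₘ (im E M) with ht
    refine ⟨-(b + q * a + t * v) + im E M * q * t, ?_⟩
    have h4 : v %ₘ (im E M) = v - im E M * q := by linear_combination h2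
    have h5 : a %ₘ (im E M) = a - im E M * t := by linear_combination h3
    rw [h4, h5]
    linear_combination hab

end Red

section

variable {k : Type} [Field k] [Algebra (ZMod 2) k] [CharP k 2]

/-- the factor at the finite places -/
noncomputable def tf (x : k) : k[X] := X - C x

/-- the factor at infinity -/
noncomputable def ti (x : k) : k[X] := 1 - C x * X

theorem sq_tf (x : k) : sq (tf x) = tf (x ^ 2) := by
  unfold tf
  rw [sq_eq_map, Polynomial.map_sub, map_X, map_C, frobenius_def]

theorem sq_ti (x : k) : sq (ti x) = ti (x ^ 2) := by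
  unfold ti
  rw [sq_eq_map, Polynomial.map_sub, Polynomial.map_mul, map_X, map_C, Polynomial.map_one, frobenius_def]

/-- the conditions satisfied by the specialised solutions and their inverses -/
def Pkg (M : R2) (κ : ℕ) (x : k) (U : Fin 4 → k[X]) : Prop :=
  (U 0).degree < M.natDegree ∧ (U 1).degree < M.natDegree ∧
  (U 2).degree < (X ^ (κ + 1) : R2).natDegree ∧ (U 3).degree < (X ^ (κ + 1) : R2).natDegree ∧
  im k M ∣ sq (U 0) - tf x * U 0 ∧ im k M ∣ U 0 * U 1 - 1 ∧
  im k (X ^ (κ + 1)) ∣ sq (U 2) - ti x * U 2 ∧ im k (X ^ (κ + 1)) ∣ U 2 * U 3 - 1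

theorem step1 {E : Type} [Field E] [Algebra k[X] E] [Algebra (RatFunc k) E]
    [IsScalarTower k[X] (RatFunc k) E] [Algebra.IsSeparable (RatFunc k) E] [IsSepClosed E] [Algebra (ZMod 2) E]
    [CharP E 2] (M : R2) (hM : M ≠ 0) (κ : ℕ) :
    ∃ (f A B : k[X][X]) (D δ b : k[X]) (n : ℕ) (P : Fin 4 × Fin n → k[X][X])
      (p : MvPolynomial (Fin 4 × Fin n) k[X]),
      f.Monic ∧ 0 < f.natDegree ∧ Irreducible f ∧ D ≠ 0 ∧ A * f + B * derivative f = C D ∧ δ ≠ 0 ∧ b ∣ δ ∧
      ∀ x θ : k, δ.eval x ≠ 0 → evalEval x θ f = 0 → ∃ U : Fin 4 → k[X], Pkg M κ x U ∧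
        (∀ (a : Fin 4) (i : Fin n), (U a).coeff i = evalEval x θ (P (a, i)) / δ.eval x) ∧
        (∀ (a : Fin 4) (i : ℕ), n ≤ i → (U a).coeff i = 0) ∧
        b.eval x * θ = p.eval₂ (evalRingHom x) (fun q => (U q.1).coeff q.2) := by
  classical
  set xE : E := algebraMap k[X] E X with hxE
  have hinjk : Function.Injective (algebraMap k[X] E) := by
    rw [IsScalarTower.algebraMap_eq k[X] (RatFunc k) E]
    exact (algebraMap (RatFunc k) E).injective.comp (IsFractionRing.injective k[X] (RatFunc k))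
  have hx : ∀ Q : R2, Q ≠ 0 → (im E Q).eval xE ≠ 0 := by
    intro Q hQ h
    have h1 : algebraMap k[X] E (im k Q) = (im E Q).eval xE := by
      have h2 := Polynomial.hom_eval₂ Q ((C : k →+* k[X]).comp (algebraMap (ZMod 2) k)) (algebraMap k[X] E) X
      rw [eval_map]
      have h3 : (algebraMap k[X] E).comp ((C : k →+* k[X]).comp (algebraMap (ZMod 2) k)) = algebraMap (ZMod 2) E :=
        RingHom.ext_zmod _ _
      rw [h3] at h2
      exact h2
    rw [h, map_eq_zero_iff _ hinjk] at h1
    exact hQ ((Polynomial.map_eq_zero (algebraMap (ZMod 2) k)).1 h1)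
  have hXne : (X ^ (κ + 1) : R2) ≠ 0 := pow_ne_zero _ X_ne_zero
  obtain ⟨v, hv⟩ := exists_sol_fin xE hx M hM
  obtain ⟨w, hw⟩ := exists_sol_inf xE (κ + 1)
  obtain ⟨v0, v1, hv0d, hv1d, hv0, hv1⟩ := reduce_sol hM hv
  obtain ⟨w0, w1, hw0d, hw1d, hw0, hw1⟩ := reduce_sol hXne hw
  set d : Fin 4 → ℕ := ![M.natDegree, M.natDegree, (X ^ (κ + 1) : R2).natDegree, (X ^ (κ + 1) : R2).natDegree] with hd
  set vec : Fin 4 → E[X] := ![v0, v1, w0, w1] with hvec
  have hvd : ∀ a, (vec a).degree < d a := by
    intro a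
    fin_cases a <;> assumption
  set n := max M.natDegree (X ^ (κ + 1) : R2).natDegree with hn
  have hdn : ∀ a, d a ≤ n := by
    intro a
    fin_cases a
    · exact le_max_left _ _
    · exact le_max_left _ _
    · exact le_max_right _ _
    · exact le_max_right _ _
  obtain ⟨f, A, B, D, δ, b, P, p, hfm, hf0, hfi, hD, hAB, hδ, hbδ, R, _, c, j, s, hjinj, hjc, hjs, hspec⟩ :=
    spread (k := k) (E := E) (ι := Fin 4 × Fin n) (fun q => (vec q.1).coeff q.2)
  refine ⟨f, A, B, D, δ, b, n, P, p, hfm, hf0, hfi, hD, hAB, hδ, hbδ, ?_⟩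
  set V : Fin 4 → R[X] := fun a => ∑ i : Fin n, C (s (a, i)) * X ^ (i : ℕ) with hV
  have hVc : ∀ (a : Fin 4) (i : ℕ), (V a).coeff i = if h : i < n then s (a, ⟨i, h⟩) else 0 := by
    intro a i
    rw [hV]
    simp only [finsetSum_coeff, coeff_C_mul_X_pow]
    split_ifs with h
    · rw [Finset.sum_eq_single (⟨i, h⟩ : Fin n)]
      · simp
      · intro q _ hq
        rw [if_neg]
        intro h2
        exact hq (Fin.ext h2.symm)
      · intro h2
        exact absurd (mem_univ _) h2
    · apply Finset.sum_eq_zero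
      intro q _
      rw [if_neg]
      intro h2
      exact h (h2 ▸ q.2)
  have hVj : ∀ a, (V a).map j = vec a := by
    intro a
    ext i
    rw [coeff_map, hVc]
    split_ifs with h
    · exact hjs (a, ⟨i, h⟩)
    · rw [map_zero]
      symm
      apply coeff_eq_zero_of_degree_lt
      refine (hvd a).trans_le ?_
      exact_mod_cast (hdn a).trans (by omega)
  have hVd : ∀ a i, d a ≤ i → (V a).coeff i = 0 := by
    intro a i hi
    apply hjinj
    rw [map_zero, ← coeff_map, hVj]
    apply coeff_eq_zero_of_degree_lt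
    exact (hvd a).trans_le (by exact_mod_cast hi)
  -- moduli over `R`
  set NR : R2 → R[X] := fun N => (im k N).map (c.comp C) with hNR
  have hNRm : ∀ N : R2, N ≠ 0 → (NR N).Monic := fun N hN => ((monic_of_ne_zero hN).map _).map _
  have hNj : ∀ N : R2, (NR N).map j = im E N := by
    intro N
    rw [hNR]
    simp only [Polynomial.map_map]
    congr 1
    exact RingHom.ext_zmod _ _
  have hjX : j (c X) = xE := by
    have : j (c X) = (j.comp c) X := rfl
    rw [this, hjc]
  have r1 : NR M ∣ sq (V 0) - (X - C (c X)) * V 0 := by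
    rw [← Polynomial.map_dvd_map j hjinj (hNRm M hM), hNj, Polynomial.map_sub, Polynomial.map_mul, map_sq,
      Polynomial.map_sub, map_X, map_C, hjX, hVj]
    exact hv0
  have r2 : NR M ∣ V 0 * V 1 - 1 := by
    rw [← Polynomial.map_dvd_map j hjinj (hNRm M hM), hNj, Polynomial.map_sub, Polynomial.map_mul, hVj, hVj,
      Polynomial.map_one]
    exact hv1
  have r3 : NR (X ^ (κ + 1)) ∣ sq (V 2) - (1 - C (c X) * X) * V 2 := by
    rw [← Polynomial.map_dvd_map j hjinj (hNRm _ hXne), hNj, Polynomial.map_sub, Polynomial.map_mul, map_sq,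
      Polynomial.map_sub, Polynomial.map_mul, map_X, map_C, hjX, hVj, Polynomial.map_one]
    exact hw0
  have r4 : NR (X ^ (κ + 1)) ∣ V 2 * V 3 - 1 := by
    rw [← Polynomial.map_dvd_map j hjinj (hNRm _ hXne), hNj, Polynomial.map_sub, Polynomial.map_mul, hVj, hVj,
      Polynomial.map_one]
    exact hw1
  intro x θ hδx hfx
  obtain ⟨e, hec, hes, heb⟩ := hspec x θ hδx hfx
  have heX : e (c X) = x := by
    have : e (c X) = (e.comp c) X := rfl
    rw [this, hec]
    simp
  have hNe : ∀ N : R2, (NR N).map e = im k N := by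
    intro N
    rw [hNR]
    simp only [Polynomial.map_map]
    congr 1
    exact RingHom.ext_zmod _ _
  have hUc : ∀ (a : Fin 4) (i : Fin n), ((V a).map e).coeff i = e (s (a, i)) := by
    intro a i
    rw [coeff_map, hVc, dif_pos i.2]
  have hUd : ∀ a, ((V a).map e).degree < d a := by
    intro a
    rw [degree_lt_iff_coeff_zero]
    intro i hi
    rw [coeff_map, hVd a i hi, map_zero]
  refine ⟨fun a => (V a).map e, ⟨hUd 0, hUd 1, hUd 2, hUd 3, ?_, ?_, ?_, ?_⟩, ?_, ?_, ?_⟩
  · have := Polynomial.map_dvd e r1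
    rw [hNe, Polynomial.map_sub, Polynomial.map_mul, map_sq, Polynomial.map_sub, map_X, map_C, heX] at this
    exact this
  · have := Polynomial.map_dvd e r2
    rw [hNe, Polynomial.map_sub, Polynomial.map_mul, Polynomial.map_one] at this
    exact this
  · have := Polynomial.map_dvd e r3
    rw [hNe, Polynomial.map_sub, Polynomial.map_mul, map_sq, Polynomial.map_sub, Polynomial.map_mul, map_X, map_C,
      heX, Polynomial.map_one] at this
    exact this
  · have := Polynomial.map_dvd e r4
    rw [hNe, Polynomial.map_sub, Polynomial.map_mul, Polynomial.map_one] at this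
    exact this
  · intro a i
    rw [hUc, hes]
  · intro a i hi
    rw [coeff_map, hVd a i ((hdn a).trans hi), map_zero]
  · rw [heb]
    congr 1
    funext q
    rw [← hUc]

end

end Pool.Agent.K7.H76.SI
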