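import Pool.Agent.K7.H76.SI.Count1
import Pool.Agent.R410.PW.Geo2

/-!
# The number of points with trivial class
-/

set_option autoImplicit false
set_option linter.style.haveILetI false

namespace Pool.Agent.K7.H76.SI

open Polynomial Finset Pool.Agent.R410.PW

section

variable {k : Type} [Field k] [Algebra (ZMod 2) k] [CharP k 2]

theorem fx_coeff_iff {m : ℕ} {v : k[X]} : (∀ i, Fx m (v.coeff i)) ↔ sq^[m] v = v := by
  constructor
  · intro h
    ext i
    rw [coeff_sq_iter]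
    exact h i
  · intro h i
    unfold Fx
    rw [← coeff_sq_iter, h]

theorem pkg_rational {M : R2} (hM : M ≠ 0) {κ : ℕ} {x : k} {U : Fin 4 → k[X]} (h : Pkg M κ x U) {m : ℕ} :
    (∀ a i, Fx m ((U a).coeff i)) ↔ (im k M ∣ QQ tf m x - 1 ∧ im k (X ^ (κ + 1)) ∣ QQ ti m x - 1) := by
  obtain ⟨hd0, hd1, hd2, hd3, h1, h2, h3, h4⟩ := h
  have hXne : (X ^ (κ + 1) : R2) ≠ 0 := pow_ne_zero _ X_ne_zero
  constructor
  · intro hr
    exact ⟨dvd_of_rational sq_tf h1 (isCoprime_of_inv h2) (hr 0),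
      dvd_of_rational sq_ti h3 (isCoprime_of_inv h4) (hr 2)⟩
  · rintro ⟨hQ1, hQ2⟩
    have e0 := rational_of_dvd sq_tf hM h1 hd0 hQ1
    have e1 := rational_inv hM h2 hd1 e0
    have e2 := rational_of_dvd sq_ti hXne h3 hd2 hQ2
    have e3 := rational_inv hXne h4 hd3 e2
    intro a
    rw [fx_coeff_iff]
    fin_cases a <;> assumption

theorem step2 {M : R2} (hM : M ≠ 0) {κ : ℕ} {x θ : k} {U : Fin 4 → k[X]} (h : Pkg M κ x U) {n m : ℕ}
    {δ b : k[X]} {P : Fin 4 × Fin n → k[X][X]} {p : MvPolynomial (Fin 4 × Fin n) k[X]}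
    (hU : ∀ (a : Fin 4) (i : Fin n), (U a).coeff i = evalEval x θ (P (a, i)) / δ.eval x)
    (hU0 : ∀ (a : Fin 4) (i : ℕ), n ≤ i → (U a).coeff i = 0)
    (hb : b.eval x * θ = p.eval₂ (evalRingHom x) (fun q => (U q.1).coeff q.2)) (hbx : b.eval x ≠ 0)
    (fδ : ∀ i, Fx m (δ.coeff i)) (fb : ∀ i, Fx m (b.coeff i)) (fP : ∀ q i j, Fx m (((P q).coeff i).coeff j))
    (fp : ∀ d j, Fx m ((p.coeff d).coeff j)) (hx : Fx m x) :
    Fx m θ ↔ (im k M ∣ QQ tf m x - 1 ∧ im k (X ^ (κ + 1)) ∣ QQ ti m x - 1) := by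
  rw [← pkg_rational hM h]
  constructor
  · intro hθ a i
    by_cases hi : i < n
    · have h1 := hU a ⟨i, hi⟩
      simp only at h1
      rw [h1]
      unfold Fx at *
      rw [div_pow, evalEval_fix (fP (a, ⟨i, hi⟩)), eval_fix fδ, hx, hθ]
    · rw [hU0 a i (by omega)]
      unfold Fx
      rw [zero_pow (Nat.two_pow_pos m).ne']
  · intro hr
    unfold Fx at *
    have h1 := mv_fix fp x (fun q : Fin 4 × Fin n => (U q.1).coeff q.2)
    have h2 : (fun q : Fin 4 × Fin n => ((U q.1).coeff (q.2 : ℕ)) ^ 2 ^ m) =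
        fun q : Fin 4 × Fin n => (U q.1).coeff (q.2 : ℕ) := by
      funext q
      exact hr q.1 q.2
    rw [h2, hx, ← hb, mul_pow, eval_fix fb, hx] at h1
    exact mul_left_cancel₀ hbx h1

end

section Deg

variable {k : Type} [Field k] [Algebra (ZMod 2) k] [CharP k 2] [IsAlgClosed k]

theorem card_roots_good {f A B : k[X][X]} {D : k[X]} (hf : f.Monic) (hAB : A * f + B * derivative f = C D)
    {x : k} (hx : D.eval x ≠ 0) : (f.map (evalRingHom x)).roots.Nodup ∧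
      (f.map (evalRingHom x)).roots.card = f.natDegree := by
  have h1 := congrArg (Polynomial.map (evalRingHom x)) hAB
  rw [Polynomial.map_add, Polynomial.map_mul, Polynomial.map_mul, ← derivative_map, map_C] at h1
  have hsep : (f.map (evalRingHom x)).Separable := by
    rw [Polynomial.separable_def']
    refine ⟨C (D.eval x)⁻¹ * A.map (evalRingHom x), C (D.eval x)⁻¹ * B.map (evalRingHom x), ?_⟩
    have h2 : (C (D.eval x)⁻¹ : k[X]) * C (evalRingHom x D) = 1 := by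
      rw [← C_mul, coe_evalRingHom, inv_mul_cancel₀ hx, C_1]
    linear_combination (C (D.eval x)⁻¹) * h1 + h2
  refine ⟨nodup_roots hsep, ?_⟩
  rw [← (IsAlgClosed.splits (f.map (evalRingHom x))).natDegree_eq_card_roots, hf.natDegree_map]

theorem step3 {M : R2} (hM : M ≠ 0) {κ : ℕ} {f A B : k[X][X]} {D δ b : k[X]} {n : ℕ}
    {p : MvPolynomial (Fin 4 × Fin n) k[X]} (hfm : f.Monic) (hf0 : 0 < f.natDegree) (hD : D ≠ 0)
    (hAB : A * f + B * derivative f = C D) (hδ : δ ≠ 0) (hbδ : b ∣ δ)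
    (hspec : ∀ x θ : k, δ.eval x ≠ 0 → evalEval x θ f = 0 → ∃ U : Fin 4 → k[X], Pkg M κ x U ∧
        b.eval x * θ = p.eval₂ (evalRingHom x) (fun q => (U q.1).coeff q.2)) :
    f.natDegree ≤ Nat.card (BB M κ)ˣ := by
  classical
  have hXne : (X ^ (κ + 1) : R2) ≠ 0 := pow_ne_zero _ X_ne_zero
  haveI := finite_BB hM κ
  haveI : Infinite k := inferInstance
  obtain ⟨x, hx⟩ : ∃ x : k, (δ * D).eval x ≠ 0 := by
    by_contra hno
    push Not at hno
    exact mul_ne_zero hδ hD (Polynomial.funext (fun r => by rw [hno r, eval_zero]))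
  rw [eval_mul] at hx
  have hδx : δ.eval x ≠ 0 := left_ne_zero_of_mul hx
  have hDx : D.eval x ≠ 0 := right_ne_zero_of_mul hx
  have hbx : b.eval x ≠ 0 := by
    obtain ⟨c, hc⟩ := hbδ
    rw [hc, eval_mul] at hδx
    exact left_ne_zero_of_mul hδx
  obtain ⟨hnd, hcard⟩ := card_roots_good hfm hAB hDx
  set T := (f.map (evalRingHom x)).roots.toFinset with hT
  have hTcard : T.card = f.natDegree := by
    rw [hT, Multiset.toFinset_card_of_nodup hnd, hcard]
  have hTf : ∀ θ ∈ T, evalEval x θ f = 0 := by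
    intro θ hθ
    rw [hT, Multiset.mem_toFinset, mem_roots (hfm.map _).ne_zero, IsRoot.def, map_evalRingHom_eval] at hθ
    exact hθ
  have hU : ∀ θ : T, ∃ U : Fin 4 → k[X], Pkg M κ x U ∧
        b.eval x * (θ : k) = p.eval₂ (evalRingHom x) (fun q => (U q.1).coeff q.2) :=
    fun θ => hspec x θ hδx (hTf θ θ.2)
  choose U hUP hUb using hU
  have hTne : T.Nonempty := by
    rw [← card_pos, hTcard]
    exact hf0
  obtain ⟨θ1, hθ1⟩ := hTne
  let t1 : T := ⟨θ1, hθ1⟩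
  have hb1 : ∀ θ : T, ∃ c : R2, IsCoprime c M ∧ im k M ∣ U θ 0 - im k c * U t1 0 := by
    intro θ
    obtain ⟨-, -, -, -, h1, h2, -, -⟩ := hUP θ
    obtain ⟨-, -, -, -, g1, g2, -, -⟩ := hUP t1
    obtain ⟨c, hc⟩ := exists_ratio hM g1 g2 h1
    exact ⟨c, isCoprime_ratio (isCoprime_of_inv h2) hc, hc⟩
  have hb2 : ∀ θ : T, ∃ c : R2, IsCoprime c (X ^ (κ + 1)) ∧ im k (X ^ (κ + 1)) ∣ U θ 2 - im k c * U t1 2 := by
    intro θ
    obtain ⟨-, -, -, -, -, -, h1, h2⟩ := hUP θ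
    obtain ⟨-, -, -, -, -, -, g1, g2⟩ := hUP t1
    obtain ⟨c, hc⟩ := exists_ratio hXne g1 g2 h1
    exact ⟨c, isCoprime_ratio (isCoprime_of_inv h2) hc, hc⟩
  choose c1 hc1 hc1' using hb1
  choose c2 hc2 hc2' using hb2
  have hunit : ∀ θ : T, IsUnit ((AdjoinRoot.mk M (c1 θ), AdjoinRoot.mk (X ^ (κ + 1)) (c2 θ)) : BB M κ) := by
    intro θ
    rw [Prod.isUnit_iff]
    exact ⟨isUnit_mk_iff.2 (hc1 θ), isUnit_mk_iff.2 (hc2 θ)⟩
  let Φ : T → (BB M κ)ˣ := fun θ => (hunit θ).unit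
  have hΦ : Function.Injective Φ := by
    intro θ θ' h
    have h0 : ((Φ θ : (BB M κ)ˣ) : BB M κ) = ((Φ θ' : (BB M κ)ˣ) : BB M κ) := congrArg _ h
    have h0' : ((AdjoinRoot.mk M (c1 θ), AdjoinRoot.mk (X ^ (κ + 1)) (c2 θ)) : BB M κ) =
        (AdjoinRoot.mk M (c1 θ'), AdjoinRoot.mk (X ^ (κ + 1)) (c2 θ')) := h0
    rw [Prod.mk.injEq, AdjoinRoot.mk_eq_mk, AdjoinRoot.mk_eq_mk] at h0'
    obtain ⟨e1, e2⟩ := h0'
    have step : ∀ (N : R2) (hN : N ≠ 0) (a b1 b2 : k[X]) (c c' : R2), N ∣ c - c' → im k N ∣ b1 - im k c * a →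
        im k N ∣ b2 - im k c' * a → b1.degree < N.natDegree → b2.degree < N.natDegree → b1 = b2 := by
      intro N hN a b1 b2 c c' g1 g2 g3 g4 g5
      refine eq_of_dvd_sub hN g4 g5 ?_
      have g6 : im k N ∣ im k c - im k c' := by
        have := Polynomial.map_dvd (algebraMap (ZMod 2) k) g1
        rwa [Polynomial.map_sub] at this
      have g7 : b1 - b2 = (b1 - im k c * a) - (b2 - im k c' * a) + (im k c - im k c') * a := by ring
      rw [g7]
      exact dvd_add (dvd_sub g2 g3) (g6.mul_right _)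
    obtain ⟨d0, d1, d2, d3, -, i1, -, i2⟩ := hUP θ
    obtain ⟨d0', d1', d2', d3', -, i1', -, i2'⟩ := hUP θ'
    have u0 : U θ 0 = U θ' 0 := step M hM _ _ _ _ _ e1 (hc1' θ) (hc1' θ') d0 d0'
    have u2 : U θ 2 = U θ' 2 := step _ hXne _ _ _ _ _ e2 (hc2' θ) (hc2' θ') d2 d2'
    have u1 : U θ 1 = U θ' 1 := inv_unique hM i1 (by rw [u0]; exact i1') d1 d1'
    have u3 : U θ 3 = U θ' 3 := inv_unique hXne i2 (by rw [u2]; exact i2') d3 d3'
    have hUU : U θ = U θ' := by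
      funext a
      fin_cases a <;> assumption
    have h5 : b.eval x * (θ : k) = b.eval x * (θ' : k) := by rw [hUb, hUb, hUU]
    exact Subtype.ext (mul_left_cancel₀ hbx h5)
  have h6 := Nat.card_le_card_of_injective Φ hΦ
  rwa [Nat.card_eq_fintype_card, Fintype.card_coe, hTcard] at h6

end Deg

section Cnt

variable {k : Type} [Field k] [Algebra (ZMod 2) k] [CharP k 2] [IsAlgClosed k] [Algebra.IsAlgebraic (ZMod 2) k]

/-- the number of elements of the field with `2 ^ m` elements with trivial class -/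
noncomputable def NN (k : Type) [Field k] [Algebra (ZMod 2) k] [CharP k 2] (M : R2) (κ m : ℕ) : ℕ :=
  {x : k | Fx m x ∧ im k M ∣ QQ tf m x - 1 ∧ im k (X ^ (κ + 1)) ∣ QQ ti m x - 1}.ncard

theorem sqrt_two_pow (N : ℕ) : ((2 ^ (N - N / 2) : ℕ) : ℝ) ≤ √2 * (√2) ^ N := by
  have h1 : ((2 ^ (N - N / 2) : ℕ) : ℝ) = (√2) ^ (2 * (N - N / 2)) := by
    rw [pow_mul, Real.sq_sqrt (by norm_num)]
    push_cast
    rfl
  rw [h1, ← pow_succ']
  apply pow_le_pow_right₀
  · rw [Real.one_le_sqrt]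
    norm_num
  · omega

theorem countT {E : Type} [Field E] [Algebra k[X] E] [Algebra (RatFunc k) E]
    [IsScalarTower k[X] (RatFunc k) E] [Algebra.IsSeparable (RatFunc k) E] [IsSepClosed E] [Algebra (ZMod 2) E]
    [CharP E 2] (M : R2) (hM : M ≠ 0) (κ : ℕ) :
    ∃ (r D1 : ℕ) (C1 : ℝ) (n0 : ℕ), 1 ≤ r ∧ 1 ≤ D1 ∧ D1 ≤ Nat.card (BB M κ)ˣ ∧ ∀ n, n0 ≤ n →
      |(D1 : ℝ) * NN k M κ (r * n) - 2 ^ (r * n)| ≤ C1 * (√2) ^ (r * n) := by
  classical
  obtain ⟨f, A, B, D, δ, b, n, P, p, hfm, hf0, hfi, hD, hAB, hδ, hbδ, hspec⟩ := step1 (k := k) (E := E) M hM κ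
  have hdeg : f.natDegree ≤ Nat.card (BB M κ)ˣ := by
    refine step3 (p := p) hM hfm hf0 hD hAB hδ hbδ ?_
    intro x θ h1 h2
    obtain ⟨U, hU1, -, -, hU2⟩ := hspec x θ h1 h2
    exact ⟨U, hU1, hU2⟩
  -- the field of definition
  obtain ⟨T1, hT1⟩ := exists_finset_coeff₂ f
  obtain ⟨T2, hT2⟩ := exists_finset_coeff δ
  obtain ⟨T3, hT3⟩ := exists_finset_coeff b
  choose T4 hT4 using fun q => exists_finset_coeff₂ (P q)
  obtain ⟨T5, hT5⟩ := exists_finset_coeff_mv p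
  obtain ⟨r, hr, hfix⟩ := exists_fx_finset (T1 ∪ T2 ∪ T3 ∪ (univ.biUnion T4) ∪ T5)
  have fT1 : ∀ c ∈ T1, Fx r c := fun c hc => hfix c (by simp [hc])
  have fT2 : ∀ c ∈ T2, Fx r c := fun c hc => hfix c (by simp [hc])
  have fT3 : ∀ c ∈ T3, Fx r c := fun c hc => hfix c (by simp [hc])
  have fT4 : ∀ q, ∀ c ∈ T4 q, Fx r c := by
    intro q c hc
    refine hfix c ?_
    simp only [mem_union, mem_biUnion, mem_univ, true_and]
    exact Or.inl (Or.inr ⟨q, hc⟩)
  have fT5 : ∀ c ∈ T5, Fx r c := fun c hc => hfix c (by simp [hc])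
  obtain ⟨C0, N0, hgeo⟩ := geo k 2 r hr f A B D hfm hf0 (hT1 r fT1) hD hAB hfi
  set β : ℕ := (δ * D).natDegree with hβ
  refine ⟨r, f.natDegree, β * f.natDegree + C0 * √2, max N0 1, hr, hf0, hdeg, ?_⟩
  intro m hm
  have hm1 : N0 ≤ m := le_trans (le_max_left _ _) hm
  have hm2 : 1 ≤ m := le_trans (le_max_right _ _) hm
  obtain ⟨hg1, hg2⟩ := hgeo m hm1
  rw [← pow_mul] at hg1 hg2
  have hrm : r * m ≠ 0 := Nat.mul_ne_zero (by omega) (by omega)
  obtain ⟨Afix, -, hAfix⟩ := exists_fixed (k := k) 2 (r * m) hrm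
  rw [ncard_Pt hfm (2 ^ (r * m)) Afix hAfix] at hg1 hg2
  let cls : k → Prop := fun x => im k M ∣ QQ tf (r * m) x - 1 ∧ im k (X ^ (κ + 1)) ∣ QQ ti (r * m) x - 1
  have hNN : NN k M κ (r * m) = (Afix.filter cls).card := by
    unfold NN
    rw [← Set.ncard_coe_finset]
    congr 1
    ext x
    rw [mem_coe, mem_filter, hAfix]
    rfl
  set bad : Finset k := (δ * D).roots.toFinset with hbad
  have hδD : δ * D ≠ 0 := mul_ne_zero hδ hD
  have hbadc : bad.card ≤ β := (Multiset.toFinset_card_le _).trans (card_roots' _)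
  have hgood : ∀ x ∈ Afix, x ∉ bad → (Sf f (2 ^ (r * m)) x).card = if cls x then f.natDegree else 0 := by
    intro x hxA hx
    rw [hbad, Multiset.mem_toFinset, mem_roots hδD, IsRoot.def, eval_mul] at hx
    have hδx : δ.eval x ≠ 0 := left_ne_zero_of_mul hx
    have hDx : D.eval x ≠ 0 := right_ne_zero_of_mul hx
    have hbx : b.eval x ≠ 0 := by
      obtain ⟨c, hc⟩ := hbδ
      rw [hc, eval_mul] at hδx
      exact left_ne_zero_of_mul hδx
    have hiff : ∀ θ, evalEval x θ f = 0 → (θ ^ 2 ^ (r * m) = θ ↔ cls x) := by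
      intro θ hθ
      obtain ⟨U, hU1, hU2, hU3, hU4⟩ := hspec x θ hδx hθ
      exact step2 hM hU1 hU2 hU3 hU4 hbx (fun i => (hT2 r fT2 i).mul_right m) (fun i => (hT3 r fT3 i).mul_right m)
        (fun q i j => (hT4 q r (fT4 q) i j).mul_right m) (fun d j => (hT5 r fT5 d j).mul_right m)
        ((hAfix x).1 hxA)
    obtain ⟨hnd, hcard⟩ := card_roots_good hfm hAB hDx
    have hroots : ∀ θ, θ ∈ (f.map (evalRingHom x)).roots.toFinset ↔ evalEval x θ f = 0 := by
      intro θ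
      rw [Multiset.mem_toFinset, mem_roots (hfm.map _).ne_zero, IsRoot.def, map_evalRingHom_eval]
    split_ifs with hc
    · have h1 : Sf f (2 ^ (r * m)) x = (f.map (evalRingHom x)).roots.toFinset := by
        ext θ
        rw [mem_Sf hfm, hroots]
        exact ⟨fun h => h.2, fun h => ⟨(hiff θ h).2 hc, h⟩⟩
      rw [h1, Multiset.toFinset_card_of_nodup hnd, hcard]
    · rw [card_eq_zero]
      apply eq_empty_of_forall_notMem
      intro θ hθ
      rw [mem_Sf hfm] at hθ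
      exact hc ((hiff θ hθ.2).1 hθ.1)
  have hN : (f.natDegree : ℝ) * NN k M κ (r * m) = ∑ x ∈ Afix, (if cls x then (f.natDegree : ℝ) else 0) := by
    rw [hNN, ← sum_filter, sum_const, nsmul_eq_mul, mul_comm]
  have hdiff : |(f.natDegree : ℝ) * NN k M κ (r * m) - ∑ x ∈ Afix, ((Sf f (2 ^ (r * m)) x).card : ℝ)| ≤
      β * f.natDegree := by
    rw [hN, ← sum_sub_distrib]
    refine (abs_sum_le_sum_abs _ _).trans ?_
    have h1 : ∀ x ∈ Afix, |(if cls x then (f.natDegree : ℝ) else 0) - ((Sf f (2 ^ (r * m)) x).card : ℝ)| ≤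
        if x ∈ bad then (f.natDegree : ℝ) else 0 := by
      intro x hx
      by_cases hb' : x ∈ bad
      · rw [if_pos hb']
        have h2 : ((Sf f (2 ^ (r * m)) x).card : ℝ) ≤ f.natDegree := by exact_mod_cast card_Sf_le hfm _ _
        have h3 : (0 : ℝ) ≤ (Sf f (2 ^ (r * m)) x).card := by positivity
        split_ifs
        · rw [abs_le]
          constructor <;> linarith
        · rw [abs_le]
          constructor <;> linarith
      · rw [if_neg hb', hgood x hx hb']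
        push_cast
        simp
    refine (sum_le_sum h1).trans ?_
    rw [← sum_filter, sum_const, nsmul_eq_mul]
    have h2 : (Afix.filter (fun x => x ∈ bad)).card ≤ β := by
      refine le_trans (card_le_card ?_) hbadc
      intro x hx
      exact (mem_filter.1 hx).2
    exact mul_le_mul_of_nonneg_right (by exact_mod_cast h2) (by positivity)
  have hs := sqrt_two_pow (r * m)
  have hg1' : (∑ x ∈ Afix, ((Sf f (2 ^ (r * m)) x).card : ℝ)) ≤ 2 ^ (r * m) + C0 * ((2 ^ (r * m - r * m / 2) : ℕ) : ℝ) := by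
    exact_mod_cast hg1
  have hg2' : (2 : ℝ) ^ (r * m) ≤ (∑ x ∈ Afix, ((Sf f (2 ^ (r * m)) x).card : ℝ)) +
      C0 * ((2 ^ (r * m - r * m / 2) : ℕ) : ℝ) := by
    exact_mod_cast hg2
  have hC0 : (C0 : ℝ) * ((2 ^ (r * m - r * m / 2) : ℕ) : ℝ) ≤ C0 * √2 * (√2) ^ (r * m) := by
    rw [mul_assoc]
    exact mul_le_mul_of_nonneg_left hs (by positivity)
  have h1s : (1 : ℝ) ≤ (√2) ^ (r * m) := one_le_pow₀ (by rw [Real.one_le_sqrt]; norm_num)
  have hβf : (0 : ℝ) ≤ β * f.natDegree := by positivity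
  rw [abs_le] at hdiff ⊢
  constructor <;> nlinarith [hdiff.1, hdiff.2]

end Cnt

end Pool.Agent.K7.H76.SI
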