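import Pool.Agent.K7.H76.SI.Exp

/-!
# Approximation of additive characters by rational functions and the total main term
-/

set_option autoImplicit false

namespace Pool.Agent.K7.H76.SI

open Polynomial Finset Pool.Agent.H341R2.Sharp

theorem lam_sum_zero {lam : R2 →+ ZMod 2} {q : R2} {m0 : ℕ} (h : ∀ j < m0, lam (q * X ^ j) = 0) :
    ∀ s ∈ Low m0, lam (q * s) = 0 := by
  intro s hs
  rw [mem_Low] at hs
  have h1 : s = ∑ j ∈ range m0, C (s.coeff j) * X ^ j := by
    by_cases hm : m0 = 0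
    · subst hm
      have : s = 0 := by
        rw [← degree_eq_bot]
        exact (Nat.WithBot.lt_zero_iff).1 (by exact_mod_cast hs)
      rw [this]
      simp
    · have h2 : s.natDegree < m0 := by
        by_cases hs0 : s = 0
        · rw [hs0, natDegree_zero]
          omega
        · rw [degree_eq_natDegree hs0] at hs
          exact_mod_cast hs
      exact as_sum_range_C_mul_X_pow' _ h2
  rw [h1, mul_sum, map_sum]
  apply sum_eq_zero
  intro j hj
  rcases zmod2_cases (s.coeff j) with h3 | h3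
  · rw [h3, C_0, zero_mul, mul_zero, map_zero]
  · rw [h3, C_1, one_mul]
    exact h j (mem_range.1 hj)

theorem dirichlet (lam : R2 →+ ZMod 2) (m0 : ℕ) :
    ∃ q : R2, q ≠ 0 ∧ q.natDegree ≤ m0 ∧ ∀ s ∈ Low m0, lam (q * s) = 0 := by
  classical
  obtain ⟨q1, hq1, q2, hq2, hne, heq⟩ := exists_ne_map_eq_of_card_lt_of_maps_to
    (s := Low (m0 + 1)) (t := (univ : Finset (Fin m0 → ZMod 2)))
    (by
      rw [card_Low, card_univ, Fintype.card_fun, ZMod.card, Fintype.card_fin]
      exact Nat.pow_lt_pow_right (by norm_num) (by omega))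
    (f := fun q j => lam (q * X ^ (j : ℕ))) (fun _ _ => mem_coe.2 (mem_univ _))
  refine ⟨q1 - q2, sub_ne_zero.2 hne, ?_, ?_⟩
  · rw [mem_Low] at hq1 hq2
    have h1 : (q1 - q2).degree < ((m0 + 1 : ℕ) : WithBot ℕ) := (degree_sub_le _ _).trans_lt (max_lt hq1 hq2)
    rw [degree_eq_natDegree (sub_ne_zero.2 hne)] at h1
    have h2 : (q1 - q2).natDegree < m0 + 1 := by exact_mod_cast h1
    omega
  · apply lam_sum_zero
    intro j hj
    rw [sub_mul, map_sub, sub_eq_zero]
    exact congrFun heq ⟨j, hj⟩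

theorem Low_mono {a b : ℕ} (h : a ≤ b) {f : R2} (hf : f ∈ Low a) : f ∈ Low b := by
  rw [mem_Low] at hf ⊢
  exact hf.trans_le (by exact_mod_cast h)

theorem divByMonic_mem_Low {q f : R2} (hq : q.Monic) {N : ℕ} (hf : f ∈ Low N) : f /ₘ q ∈ Low (N - q.natDegree) := by
  rw [mem_Low] at hf ⊢
  by_cases h0 : f /ₘ q = 0
  · rw [h0, degree_zero]
    exact WithBot.bot_lt_coe _
  · have h1 : ¬ f.degree < q.degree := fun h => h0 ((divByMonic_eq_zero_iff hq).2 h)
    have hf0 : f ≠ 0 := by
      rintro rfl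
      exact h0 (zero_divByMonic q)
    rw [degree_eq_natDegree hf0, degree_eq_natDegree hq.ne_zero] at h1
    have h2 : q.natDegree ≤ f.natDegree := by
      by_contra h3
      exact h1 (by exact_mod_cast not_le.1 h3)
    rw [degree_eq_natDegree hf0] at hf
    have h3 : f.natDegree < N := by exact_mod_cast hf
    rw [degree_eq_natDegree h0, natDegree_divByMonic f hq]
    exact_mod_cast (by omega : f.natDegree - q.natDegree < N - q.natDegree)

/-- the total main term is almost nonnegative -/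
theorem exists_q (lam : R2 →+ ZMod 2) {n m0 d : ℕ} (hd : d ≤ m0) (hn : 2 * m0 ≤ n) :
    ∃ q : R2, q ≠ 0 ∧ q.natDegree ≤ m0 ∧ (∀ s ∈ Low m0, lam (q * s) = 0) ∧
      -(2 ^ (n + 1) * (16 * 2 ^ d * (5 / 6 : ℝ) ^ d)) ≤
        ∑ W ∈ Mon (ZMod 2) d, (phi W : ℝ) * MT lam W q (n + 1) := by
  classical
  by_cases hA : ∃ k : ℕ, ∃ q : R2, q ≠ 0 ∧ q.natDegree = k ∧ k ≤ m0 ∧ ∀ s ∈ Low (n + 1 - k), lam (q * s) = 0
  · -- the periodic case
    obtain ⟨q, hq0, hqk, hkm, hper⟩ := Nat.find_spec hA
    set k := Nat.find hA with hk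
    have hmin : ∀ g : R2, g ≠ 0 → g.natDegree < k → ¬ ∀ s ∈ Low (n + 1 - g.natDegree), lam (g * s) = 0 := by
      intro g hg hgk hs
      exact Nat.find_min hA hgk ⟨g, hg, rfl, by omega, hs⟩
    have hqm := monic_of_ne_zero hq0
    refine ⟨q, hq0, by omega, fun s hs => hper s (Low_mono (by omega) hs), ?_⟩
    let l : AdjoinRoot q →+ ZMod 2 := lam.comp (AdjoinRoot.modByMonicHom hqm).toAddMonoidHom
    have hl0 : ∀ f : R2, l (AdjoinRoot.mk q f) = lam (f %ₘ q) := by
      intro f
      change lam (AdjoinRoot.modByMonicHom hqm (AdjoinRoot.mk q f)) = _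
      rw [AdjoinRoot.modByMonicHom_mk]
    have hl : ∀ f ∈ Low (n + 1), lam f = l (AdjoinRoot.mk q f) := by
      intro f hf
      rw [hl0]
      have h1 := modByMonic_add_div f q
      conv_lhs => rw [← h1]
      rw [map_add, hper _ (hqk ▸ divByMonic_mem_Low hqm hf), add_zero]
    have hprim : Prim l := by
      intro x hx
      obtain ⟨f, rfl⟩ := AdjoinRoot.mk_surjective x
      by_contra hne
      rw [AdjoinRoot.mk_eq_zero] at hne
      set g := EuclideanDomain.gcd f q with hg
      have hgf : g ∣ f := EuclideanDomain.gcd_dvd_left f q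
      have hgq : g ∣ q := EuclideanDomain.gcd_dvd_right f q
      have hg0 : g ≠ 0 := fun h => hq0 (zero_dvd_iff.1 (h ▸ hgq))
      have hgab : g = f * EuclideanDomain.gcdA f q + q * EuclideanDomain.gcdB f q :=
        EuclideanDomain.gcd_eq_gcd_ab f q
      have hgdeg : g.natDegree < k := by
        have h1 : g.natDegree ≤ k := hqk ▸ natDegree_le_of_dvd hgq hq0
        rcases Nat.lt_or_ge g.natDegree k with h2 | h2
        · exact h2
        · exfalso
          apply hne
          have h3 : g = q := by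
            obtain ⟨c, hc⟩ := hgq
            have hc0 : c ≠ 0 := by
              rintro rfl
              exact hq0 (by rw [hc, mul_zero])
            have h4 : q.natDegree = g.natDegree + c.natDegree := by
              conv_lhs => rw [hc]
              exact natDegree_mul hg0 hc0
            have h5 : c.natDegree = 0 := by omega
            have h6 : c = 1 := eq_one_of_monic_natDegree_zero (monic_of_ne_zero hc0) h5
            rw [h6, mul_one] at hc
            exact hc.symm
          rw [← h3]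
          exact hgf
      apply hmin g hg0 hgdeg
      intro s hs
      have hgs : g * s ∈ Low (n + 1) := by
        rw [mem_Low] at hs ⊢
        by_cases hs0 : s = 0
        · rw [hs0, mul_zero, degree_zero]
          exact WithBot.bot_lt_coe _
        · rw [degree_eq_natDegree hs0] at hs
          have hs' : s.natDegree < n + 1 - g.natDegree := by exact_mod_cast hs
          rw [degree_mul, degree_eq_natDegree hg0, degree_eq_natDegree hs0]
          exact_mod_cast (by omega : g.natDegree + s.natDegree < n + 1)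
      rw [hl _ hgs]
      have h7 : AdjoinRoot.mk q (g * s) = AdjoinRoot.mk q f * AdjoinRoot.mk q (EuclideanDomain.gcdA f q * s) := by
        rw [← map_mul, AdjoinRoot.mk_eq_mk]
        refine ⟨EuclideanDomain.gcdB f q * s, ?_⟩
        linear_combination s * hgab
      rw [h7]
      exact hx _
    haveI := finite_adjoinRoot hq0
    have h8 : ∑ W ∈ Mon (ZMod 2) d, (phi W : ℝ) * MT lam W q (n + 1) =
        2 ^ (n + 1) * ∑ W ∈ Mon (ZMod 2) d, kap l (AdjoinRoot.mk q W) := by
      rw [mul_sum]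
      apply sum_congr rfl
      intro W hW
      rw [mem_Mon] at hW
      apply MT_caseA (mul_ne_zero hW.1.ne_zero hq0) _ (by omega) l hl
      rw [natDegree_mul hW.1.ne_zero hq0]
      omega
    rw [h8]
    have h9 := sum_kap_ge hq0 l hprim d
    have h10 : (0 : ℝ) < 2 ^ (n + 1) := by positivity
    nlinarith
  · -- the other case
    obtain ⟨q, hq0, hqd, hqs⟩ := dirichlet lam m0
    refine ⟨q, hq0, hqd, hqs, ?_⟩
    have h1 : ¬ ∀ s ∈ Low (n + 1 - q.natDegree), lam (q * s) = 0 :=
      fun h => hA ⟨q.natDegree, q, hq0, rfl, hqd, h⟩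
    push Not at h1
    obtain ⟨s, hs, hlam⟩ := h1
    have h2 : ∀ W ∈ Mon (ZMod 2) d, (phi W : ℝ) * MT lam W q (n + 1) = 0 := by
      intro W hW
      rw [mem_Mon] at hW
      have h3 := modByMonic_add_div s W
      have h4 : s %ₘ W ∈ Low m0 := by
        rw [mem_Low]
        refine (degree_modByMonic_lt s hW.1).trans_le ?_
        rw [degree_eq_natDegree hW.1.ne_zero, hW.2]
        exact_mod_cast hd
      have h5 : lam (q * (W * (s /ₘ W))) = 1 := by
        have h6 : lam (q * s) = lam (q * (s %ₘ W)) + lam (q * (W * (s /ₘ W))) := by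
          rw [← map_add, ← mul_add, h3]
        rw [hqs _ h4, zero_add] at h6
        rcases zmod2_cases (lam (q * s)) with h7 | h7
        · exact absurd h7 hlam
        · rw [← h6, h7]
      have h6 : q * (W * (s /ₘ W)) ∈ Low (n + 1) := by
        have h7 := divByMonic_mem_Low hW.1 hs
        rw [mem_Low] at h7 ⊢
        by_cases hs0 : s /ₘ W = 0
        · rw [hs0, mul_zero, mul_zero, degree_zero]
          exact WithBot.bot_lt_coe _
        · rw [degree_eq_natDegree hs0] at h7
          have h8 : (s /ₘ W).natDegree < n + 1 - q.natDegree - W.natDegree := by exact_mod_cast h7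
          rw [degree_mul, degree_mul, degree_eq_natDegree hq0, degree_eq_natDegree hW.1.ne_zero,
            degree_eq_natDegree hs0]
          exact_mod_cast (by omega : q.natDegree + (W.natDegree + (s /ₘ W).natDegree) < n + 1)
      rw [MT_caseB (q * (W * (s /ₘ W))) ⟨s /ₘ W, by ring⟩ h6 h5, mul_zero]
    rw [sum_eq_zero h2]
    have : 0 ≤ 2 ^ (n + 1) * (16 * 2 ^ d * (5 / 6 : ℝ) ^ d) := by positivity
    linarith

theorem phi_le {W : R2} (hW : W ≠ 0) : phi W ≤ 2 ^ W.natDegree := by
  classical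
  haveI := finite_adjoinRoot hW
  rw [← card_adjoinRoot hW]
  exact Nat.card_le_card_of_injective _ Units.val_injective

/-- the transform of the weight -/
noncomputable def That (n m0 d : ℕ) (lam : R2 →+ ZMod 2) : ℝ :=
  ∑ W ∈ Mon (ZMod 2) d, (phi W : ℝ) * ∑ m ∈ Ioc (m0 + d) n, SP lam W m

/-- the error term -/
noncomputable def Err (n m0 d : ℕ) : ℝ := 3 * (n ^ 2 * (√2) ^ (2 * n - m0)) + 2 ^ (m0 + d + 1)

theorem That_MT {lam : R2 →+ ZMod 2} {n m0 d : ℕ} (hd : d ≤ m0) (hn : 2 * m0 ≤ n) {q : R2} (hq0 : q ≠ 0)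
    (hq : q.natDegree ≤ m0) (hqs : ∀ s ∈ Low m0, lam (q * s) = 0) :
    ∑ W ∈ Mon (ZMod 2) d, (phi W : ℝ) * MT lam W q (n + 1) - 2 ^ d * (2 ^ d * Err n m0 d) ≤ That n m0 d lam := by
  have h0 : 0 ≤ Err n m0 d := by
    unfold Err
    positivity
  have h1 : ∑ W ∈ Mon (ZMod 2) d, ((phi W : ℝ) * MT lam W q (n + 1) - 2 ^ d * Err n m0 d) ≤ That n m0 d lam := by
    unfold That
    apply sum_le_sum
    intro W hW
    rw [mem_Mon] at hW
    have h2 := total (mul_ne_zero hW.1.ne_zero hq0) hqs hq (by omega : W.natDegree ≤ m0) hn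
    rw [hW.2] at h2
    have h3 := (abs_le.1 h2).1
    change -(Err n m0 d) ≤ _ at h3
    have h4 : (phi W : ℝ) ≤ 2 ^ d := by
      have := phi_le hW.1.ne_zero
      rw [hW.2] at this
      exact_mod_cast this
    have h5 : (0 : ℝ) ≤ phi W := Nat.cast_nonneg _
    nlinarith [mul_le_mul_of_nonneg_right h4 h0, mul_le_mul_of_nonneg_left h3 h5]
  rw [sum_sub_distrib, sum_const, card_Mon, nsmul_eq_mul] at h1
  push_cast at h1
  exact h1

theorem That_ge (lam : R2 →+ ZMod 2) {n m0 d : ℕ} (hd : d ≤ m0) (hn : 2 * m0 ≤ n) :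
    -(2 ^ (n + 1) * (16 * 2 ^ d * (5 / 6 : ℝ) ^ d) + 2 ^ d * (2 ^ d * Err n m0 d)) ≤ That n m0 d lam := by
  obtain ⟨q, hq0, hq, hqs, hle⟩ := exists_q lam hd hn
  have := That_MT hd hn hq0 hq hqs
  linarith

theorem That_zero {n m0 d : ℕ} (hd : d ≤ m0) (hn : 2 * m0 ≤ n) :
    2 ^ (n + 1) * 2 ^ d - 2 ^ d * (2 ^ d * Err n m0 d) ≤ That n m0 d 0 := by
  have h1 := That_MT (lam := 0) hd hn (one_ne_zero : (1 : R2) ≠ 0) (by simp) (fun _ _ => rfl)
  refine le_trans (le_of_eq ?_) h1
  congr 1
  haveI := finite_adjoinRoot (one_ne_zero : (1 : R2) ≠ 0)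
  have h2 : ∀ W ∈ Mon (ZMod 2) d, (phi W : ℝ) * MT 0 W 1 (n + 1) = 2 ^ (n + 1) := by
    intro W hW
    rw [mem_Mon] at hW
    rw [MT_caseA (mul_ne_zero hW.1.ne_zero one_ne_zero) (by rw [mul_one]; omega) (by omega) 0 (fun f _ => rfl)]
    have h3 : kap (0 : AdjoinRoot (1 : R2) →+ ZMod 2) (AdjoinRoot.mk 1 W) = 1 := by
      unfold kap
      have h4 : (0 : ℝ) < (Vs (AdjoinRoot (1 : R2)) (AdjoinRoot.mk 1 W)).card := by exact_mod_cast card_Vs_pos _
      simp only [AddMonoidHom.zero_apply, sg_zero, sum_const, nsmul_eq_mul, mul_one]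
      exact div_self h4.ne'
    rw [h3, mul_one]
  rw [sum_congr rfl h2, sum_const, card_Mon, nsmul_eq_mul]
  push_cast
  ring

end Pool.Agent.K7.H76.SI
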