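import Pool.Agent.K7.H76.SI.RH

/-!
# Irreducible polynomials in residue classes and short intervals, in mean square
-/

set_option autoImplicit false
set_option linter.style.haveILetI false

namespace Pool.Agent.K7.H76.SI

open Polynomial Finset Pool.Agent.H341R2.Sharp

section Orth

variable {B : Type} [CommRing B] [Finite B]

theorem conj_char (χ : MulChar B ℂ) (g : B) : (starRingEnd ℂ) (χ g) = χ (Ring.inverse g) := by
  rw [← MulChar.inv_apply, ← MulChar.star_eq_inv]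
  rfl

theorem inverse_mul_eq_one_iff (g h : B) : Ring.inverse g * h = 1 ↔ IsUnit g ∧ h = g := by
  constructor
  · intro e
    by_cases hg : IsUnit g
    · refine ⟨hg, ?_⟩
      have h1 : g * (Ring.inverse g * h) = g * 1 := by rw [e]
      rwa [← mul_assoc, Ring.mul_inverse_cancel g hg, one_mul, mul_one] at h1
    · rw [Ring.inverse_non_unit g hg, zero_mul] at e
      haveI : Subsingleton B := subsingleton_of_zero_eq_one e
      exact absurd (isUnit_of_subsingleton g) hg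
  · rintro ⟨hg, rfl⟩
    exact Ring.inverse_mul_cancel h hg

variable [Fintype B] [Fintype (MulChar B ℂ)]

open scoped Classical in
theorem orth (g h : B) : ∑ χ : MulChar B ℂ, (starRingEnd ℂ) (χ g) * χ h =
    if IsUnit g ∧ h = g then (Nat.card Bˣ : ℂ) else 0 := by
  have h1 : ∀ χ : MulChar B ℂ, (starRingEnd ℂ) (χ g) * χ h = χ (Ring.inverse g * h) := by
    intro χ
    rw [conj_char, map_mul]
  rw [sum_congr rfl (fun χ _ => h1 χ)]
  split_ifs with h2
  · rw [(inverse_mul_eq_one_iff g h).2 h2]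
    exact sum_char_one
  · exact sum_char_ne (fun h3 => h2 ((inverse_mul_eq_one_iff g h).1 h3))

/-- the Fourier coefficient -/
noncomputable def cf (φ : B → ℂ) (χ : MulChar B ℂ) : ℂ := ∑ g, φ g * (starRingEnd ℂ) (χ g)

omit [Fintype B] in
theorem card_char : (Fintype.card (MulChar B ℂ) : ℝ) = Nat.card Bˣ := by
  rw [← Nat.card_eq_fintype_card, MulChar.card_eq_card_units_of_hasEnoughRootsOfUnity B ℂ]

theorem expand (φ : B → ℂ) (hφ : ∀ b, ¬ IsUnit b → φ b = 0) (b : B) :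
    (Nat.card Bˣ : ℂ) * φ b = ∑ χ : MulChar B ℂ, cf φ χ * χ b := by
  classical
  unfold cf
  simp_rw [sum_mul]
  rw [sum_comm]
  have h1 : ∀ g, ∑ χ : MulChar B ℂ, φ g * (starRingEnd ℂ) (χ g) * χ b =
      φ g * if IsUnit g ∧ b = g then (Nat.card Bˣ : ℂ) else 0 := by
    intro g
    rw [← orth, mul_sum]
    exact sum_congr rfl fun χ _ => mul_assoc _ _ _
  rw [sum_congr rfl (fun g _ => h1 g), sum_eq_single b]
  · by_cases hb : IsUnit b
    · rw [if_pos ⟨hb, rfl⟩, mul_comm]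
    · rw [hφ b hb, mul_zero, zero_mul]
  · intro g _ hg
    rw [if_neg (fun h => hg h.2.symm), mul_zero]
  · intro h
    exact absurd (mem_univ b) h

theorem parseval (φ : B → ℂ) (hφ : ∀ b, ¬ IsUnit b → φ b = 0) :
    ∑ χ : MulChar B ℂ, ‖cf φ χ‖ ^ 2 = Nat.card Bˣ * ∑ g, ‖φ g‖ ^ 2 := by
  classical
  have h1 : ((∑ χ : MulChar B ℂ, ‖cf φ χ‖ ^ 2 : ℝ) : ℂ) = ((Nat.card Bˣ * ∑ g, ‖φ g‖ ^ 2 : ℝ) : ℂ) := by
    push_cast
    have h2 : ∀ χ : MulChar B ℂ, ((‖cf φ χ‖ : ℂ)) ^ 2 =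
        ∑ h, (starRingEnd ℂ) (φ h) * (cf φ χ * χ h) := by
      intro χ
      rw [← Complex.mul_conj']
      have h3 : (starRingEnd ℂ) (cf φ χ) = ∑ h, (starRingEnd ℂ) (φ h) * χ h := by
        unfold cf
        rw [map_sum]
        apply sum_congr rfl
        intro h _
        rw [map_mul, Complex.conj_conj]
      rw [h3, mul_sum]
      apply sum_congr rfl
      intro h _
      ring
    rw [sum_congr rfl (fun χ _ => h2 χ), sum_comm, mul_sum]
    apply sum_congr rfl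
    intro h _
    rw [← mul_sum, ← expand φ hφ, ← Complex.mul_conj']
    ring
  exact_mod_cast h1

theorem sum_norm_cf_le (φ : B → ℂ) (hφ : ∀ b, ¬ IsUnit b → φ b = 0) :
    ∑ χ : MulChar B ℂ, ‖cf φ χ‖ ≤ Nat.card Bˣ * √(∑ g, ‖φ g‖ ^ 2) := by
  have h1 := sq_sum_le_card_mul_sum_sq (s := (univ : Finset (MulChar B ℂ))) (f := fun χ => ‖cf φ χ‖)
  rw [parseval φ hφ, card_univ, card_char] at h1
  have h2 : (0 : ℝ) ≤ Nat.card Bˣ := by positivity
  have h3 : (Nat.card Bˣ : ℝ) * (Nat.card Bˣ * ∑ g, ‖φ g‖ ^ 2) = (Nat.card Bˣ * √(∑ g, ‖φ g‖ ^ 2)) ^ 2 := by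
    rw [mul_pow, Real.sq_sqrt (sum_nonneg fun _ _ => by positivity)]
    ring
  rw [h3] at h1
  exact le_of_sq_le_sq h1 (by positivity) |> fun h => h

end Orth

section

variable {M : R2} {κ : ℕ}

/-- the weighted sum of `φ` over prime powers of degree `m` -/
noncomputable def Wt (φ : BB M κ → ℂ) (m : ℕ) : ℂ :=
  ∑ P ∈ (Irr (ZMod 2) m).filter (fun P => P.natDegree ∣ m),
    (P.natDegree : ℂ) * φ (cl M κ P ^ (m / P.natDegree))

theorem Wt_char (χ : MulChar (BB M κ) ℂ) (m : ℕ) : Wt (fun b => χ b) m = TT (gχ M κ χ) m := by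
  unfold Wt TT gχ
  apply sum_congr rfl
  intro P _
  simp only [map_pow]

theorem Wt_bound (hM : M ≠ 0) [Fintype (BB M κ)] (φ : BB M κ → ℂ) (hφ : ∀ b, ¬ IsUnit b → φ b = 0) {m : ℕ}
    (hm : 1 ≤ m) : ∃ e : ℕ, e ≤ M.natDegree ∧
      ‖Wt φ m - (2 ^ m - e) / Nat.card (BB M κ)ˣ * ∑ b, φ b‖ ≤
        (M.natDegree + κ : ℕ) * (√2) ^ m * √(∑ b, ‖φ b‖ ^ 2) := by
  classical
  haveI : Fintype (MulChar (BB M κ) ℂ) := Fintype.ofFinite _
  obtain ⟨A, hAc, hA⟩ := Pool.Agent.R410.PW.exists_fixed (k := AlgebraicClosure (ZMod 2)) 2 m (by omega)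
  obtain ⟨e, he, hT1⟩ := TT_one (k := AlgebraicClosure (ZMod 2)) hM κ hm A hA hAc
  refine ⟨e, he, ?_⟩
  set G := Nat.card (BB M κ)ˣ with hG
  have hG0 : (0 : ℝ) < G := by
    have : 0 < Nat.card (BB M κ)ˣ := Nat.card_pos
    exact_mod_cast this
  have hG0' : (G : ℂ) ≠ 0 := by exact_mod_cast hG0.ne'
  have h1 : (G : ℂ) * Wt φ m = ∑ χ : MulChar (BB M κ) ℂ, cf φ χ * TT (gχ M κ χ) m := by
    have h2 : ∀ χ : MulChar (BB M κ) ℂ, cf φ χ * TT (gχ M κ χ) m =
        ∑ P ∈ (Irr (ZMod 2) m).filter (fun P => P.natDegree ∣ m),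
          (P.natDegree : ℂ) * (cf φ χ * χ (cl M κ P ^ (m / P.natDegree))) := by
      intro χ
      rw [← Wt_char]
      unfold Wt
      rw [mul_sum]
      apply sum_congr rfl
      intro P _
      ring
    rw [sum_congr rfl (fun χ _ => h2 χ), sum_comm]
    unfold Wt
    rw [mul_sum]
    apply sum_congr rfl
    intro P _
    rw [← mul_sum, ← expand φ hφ]
    ring
  have h2 : cf φ 1 = ∑ b, φ b := by
    unfold cf
    apply sum_congr rfl
    intro b _
    by_cases hb : IsUnit b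
    · rw [MulChar.one_apply hb, map_one, mul_one]
    · rw [hφ b hb, zero_mul]
  rw [← add_sum_erase univ _ (mem_univ (1 : MulChar (BB M κ) ℂ)), h2, hT1] at h1
  have h3 : Wt φ m - (2 ^ m - e) / G * ∑ b, φ b =
      (∑ χ ∈ univ.erase (1 : MulChar (BB M κ) ℂ), cf φ χ * TT (gχ M κ χ) m) / G := by
    rw [eq_div_iff hG0']
    field_simp
    linear_combination h1
  rw [h3, norm_div, Complex.norm_natCast, div_le_iff₀ hG0]
  refine (norm_sum_le _ _).trans ?_
  have h4 : ∀ χ ∈ univ.erase (1 : MulChar (BB M κ) ℂ), ‖cf φ χ * TT (gχ M κ χ) m‖ ≤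
      ‖cf φ χ‖ * ((M.natDegree + κ : ℕ) * (√2) ^ m) := by
    intro χ hχ
    rw [norm_mul]
    exact mul_le_mul_of_nonneg_left (RH hM κ (ne_of_mem_erase hχ) hm) (norm_nonneg _)
  refine (sum_le_sum h4).trans ?_
  rw [← sum_mul]
  have h5 : ∑ χ ∈ univ.erase (1 : MulChar (BB M κ) ℂ), ‖cf φ χ‖ ≤ G * √(∑ g, ‖φ g‖ ^ 2) :=
    (sum_le_sum_of_subset_of_nonneg (erase_subset _ _) (fun _ _ _ => norm_nonneg _)).trans (sum_norm_cf_le φ hφ)
  calc (∑ χ ∈ univ.erase (1 : MulChar (BB M κ) ℂ), ‖cf φ χ‖) * ((M.natDegree + κ : ℕ) * (√2) ^ m)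
      ≤ (G * √(∑ g, ‖φ g‖ ^ 2)) * ((M.natDegree + κ : ℕ) * (√2) ^ m) :=
        mul_le_mul_of_nonneg_right h5 (by positivity)
    _ = (M.natDegree + κ : ℕ) * (√2) ^ m * √(∑ b, ‖φ b‖ ^ 2) * G := by ring

/-- the irreducible polynomials of degree `m` -/
noncomputable def Pr (m : ℕ) : Finset R2 := by
  classical
  exact (Mon (ZMod 2) m).filter Irreducible

theorem mem_Pr {m : ℕ} {P : R2} : P ∈ Pr m ↔ Irreducible P ∧ P.natDegree = m := by
  classical
  unfold Pr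
  rw [mem_filter, mem_Mon]
  constructor
  · rintro ⟨⟨_, h2⟩, h3⟩
    exact ⟨h3, h2⟩
  · rintro ⟨h1, h2⟩
    exact ⟨⟨monic_of_ne_zero h1.ne_zero, h2⟩, h1⟩

theorem sum_small (m : ℕ) (hm : 1 ≤ m) :
    ∑ P ∈ ((Irr (ZMod 2) m).filter (fun P => P.natDegree ∣ m)).filter (fun P => P.natDegree ≠ m),
      (P.natDegree : ℝ) ≤ m * (√2) ^ m := by
  classical
  set S := ((Irr (ZMod 2) m).filter (fun P => P.natDegree ∣ m)).filter (fun P => P.natDegree ≠ m) with hS
  have h1 : ∀ P ∈ S, P.natDegree ∈ range (m / 2 + 1) := by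
    intro P hP
    rw [hS, mem_filter, mem_filter, mem_Irr] at hP
    obtain ⟨⟨⟨_, _, h3⟩, h4⟩, h5⟩ := hP
    obtain ⟨c, hc⟩ := h4
    rw [mem_range]
    have h6 : 2 ≤ c := by
      rcases c with _ | _ | c
      · omega
      · omega
      · omega
    have h7 : 2 * P.natDegree ≤ m := by
      calc 2 * P.natDegree ≤ c * P.natDegree := Nat.mul_le_mul_right _ h6
        _ = m := by rw [hc, mul_comm]
    omega
  rw [← sum_fiberwise_of_maps_to h1]
  have h2 : ∀ d ∈ range (m / 2 + 1), ∑ P ∈ S.filter (fun P => P.natDegree = d), (P.natDegree : ℝ) ≤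
      (m / 2 : ℝ) * 2 ^ d := by
    intro d hd
    rw [mem_range] at hd
    have h3 : ∀ P ∈ S.filter (fun P => P.natDegree = d), (P.natDegree : ℝ) ≤ (m / 2 : ℝ) := by
      intro P hP
      rw [(mem_filter.1 hP).2, le_div_iff₀ (by norm_num)]
      have : d * 2 ≤ m := by omega
      exact_mod_cast this
    refine (sum_le_card_nsmul _ _ _ h3).trans ?_
    rw [nsmul_eq_mul, mul_comm]
    apply mul_le_mul_of_nonneg_left _ (by positivity)
    have h4 : (S.filter (fun P => P.natDegree = d)).card ≤ 2 ^ d := by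
      rw [← card_Mon d]
      apply card_le_card
      intro P hP
      rw [mem_filter] at hP
      rw [mem_Mon]
      rw [hS, mem_filter, mem_filter, mem_Irr] at hP
      exact ⟨hP.1.1.1.1, hP.2⟩
    exact_mod_cast h4
  refine (sum_le_sum h2).trans ?_
  rw [← mul_sum]
  have h5 : ∑ d ∈ range (m / 2 + 1), (2 : ℝ) ^ d ≤ 2 * (√2) ^ m := by
    have h6 := geom_sum_eq (by norm_num : (2 : ℝ) ≠ 1) (m / 2 + 1)
    rw [h6]
    have h7 : (2 : ℝ) ^ (m / 2) ≤ (√2) ^ m := by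
      calc (2 : ℝ) ^ (m / 2) = (√2) ^ (2 * (m / 2)) := by
            rw [pow_mul, Real.sq_sqrt (by norm_num)]
        _ ≤ (√2) ^ m := pow_le_pow_right₀ (by rw [Real.one_le_sqrt]; norm_num) (by omega)
    rw [pow_succ]
    linarith
  calc (m / 2 : ℝ) * ∑ d ∈ range (m / 2 + 1), (2 : ℝ) ^ d ≤ (m / 2 : ℝ) * (2 * (√2) ^ m) :=
        mul_le_mul_of_nonneg_left h5 (by positivity)
    _ = m * (√2) ^ m := by ring

/-- **irreducible polynomials in classes**, in mean square -/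
theorem equi (hM : M ≠ 0) [Fintype (BB M κ)] (φ : BB M κ → ℝ) (hφ : ∀ b, ¬ IsUnit b → φ b = 0)
    (hφ1 : ∀ b, |φ b| ≤ 1) {m : ℕ} (hm : 1 ≤ m) :
    |m * (∑ P ∈ Pr m, φ (cl M κ P)) - 2 ^ m / Nat.card (BB M κ)ˣ * ∑ b, φ b| ≤
        (M.natDegree + κ : ℕ) * (√2) ^ m * √(∑ b, φ b ^ 2) + m * (√2) ^ m + M.natDegree := by
  classical
  obtain ⟨e, he, hW⟩ := Wt_bound hM (fun b => (φ b : ℂ)) (fun b hb => by rw [hφ b hb]; simp) hm
  set G := Nat.card (BB M κ)ˣ with hG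
  have hG0 : (0 : ℝ) < G := by
    have : 0 < Nat.card (BB M κ)ˣ := Nat.card_pos
    exact_mod_cast this
  set S0 := (Irr (ZMod 2) m).filter (fun P => P.natDegree ∣ m) with hS0
  set WR : ℝ := ∑ P ∈ S0, (P.natDegree : ℝ) * φ (cl M κ P ^ (m / P.natDegree)) with hWR
  have h1 : Wt (fun b => (φ b : ℂ)) m = (WR : ℂ) := by
    unfold Wt
    rw [hWR]
    push_cast
    rfl
  have h2 : Wt (fun b => (φ b : ℂ)) m - (2 ^ m - e) / G * ∑ b, (φ b : ℂ) =
      ((WR - (2 ^ m - e) / G * ∑ b, φ b : ℝ) : ℂ) := by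
    rw [h1]
    push_cast
    rfl
  rw [h2, Complex.norm_real, Real.norm_eq_abs] at hW
  have h3 : ∑ b, ‖(φ b : ℂ)‖ ^ 2 = ∑ b, φ b ^ 2 := by
    apply sum_congr rfl
    intro b _
    rw [Complex.norm_real, Real.norm_eq_abs, sq_abs]
  rw [h3] at hW
  -- prime powers
  have h4 : WR = m * (∑ P ∈ Pr m, φ (cl M κ P)) +
      ∑ P ∈ S0.filter (fun P => P.natDegree ≠ m), (P.natDegree : ℝ) * φ (cl M κ P ^ (m / P.natDegree)) := by
    rw [hWR, ← sum_filter_add_sum_filter_not S0 (fun P => P.natDegree = m)]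
    congr 1
    rw [mul_sum]
    apply sum_congr
    · ext P
      rw [mem_filter, hS0, mem_filter, mem_Irr, mem_Pr]
      constructor
      · rintro ⟨⟨⟨h1, h2, _⟩, _⟩, h5⟩
        exact ⟨h2, h5⟩
      · rintro ⟨h1, h2⟩
        exact ⟨⟨⟨monic_of_ne_zero h1.ne_zero, h1, h2.le⟩, by rw [h2]⟩, h2⟩
    · intro P hP
      rw [mem_Pr] at hP
      rw [hP.2, Nat.div_self (by omega), pow_one]
  have h5 : |∑ P ∈ S0.filter (fun P => P.natDegree ≠ m), (P.natDegree : ℝ) * φ (cl M κ P ^ (m / P.natDegree))| ≤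
      m * (√2) ^ m := by
    refine (abs_sum_le_sum_abs _ _).trans (le_trans (sum_le_sum ?_) (sum_small m hm))
    intro P _
    rw [abs_mul, abs_of_nonneg (by positivity : (0 : ℝ) ≤ P.natDegree)]
    exact mul_le_of_le_one_right (by positivity) (hφ1 _)
  -- the main term
  have h6 : |∑ b, φ b| ≤ G := by
    have h7 : ∑ b, φ b = ∑ b ∈ univ.filter (fun b : BB M κ => IsUnit b), φ b := by
      rw [sum_filter]
      apply sum_congr rfl
      intro b _
      split_ifs with h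
      · rfl
      · exact hφ b h
    rw [h7]
    refine (abs_sum_le_sum_abs _ _).trans ((sum_le_card_nsmul _ _ 1 (fun b _ => hφ1 b)).trans ?_)
    rw [nsmul_eq_mul, mul_one]
    have h8 : (univ.filter (fun b : BB M κ => IsUnit b)).card = G := by
      rw [hG, Nat.card_eq_fintype_card, ← card_univ,
        ← card_image_of_injective (univ : Finset (BB M κ)ˣ) Units.val_injective]
      congr 1
      ext b
      simp only [mem_filter, mem_univ, true_and, mem_image]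
      exact Iff.rfl
    rw [h8]
  have h7 : |(e : ℝ) / G * ∑ b, φ b| ≤ M.natDegree := by
    rw [abs_mul, abs_of_nonneg (by positivity : (0 : ℝ) ≤ (e : ℝ) / G)]
    calc (e : ℝ) / G * |∑ b, φ b| ≤ (e : ℝ) / G * G := mul_le_mul_of_nonneg_left h6 (by positivity)
      _ = e := by field_simp
      _ ≤ M.natDegree := by exact_mod_cast he
  have h8 : m * (∑ P ∈ Pr m, φ (cl M κ P)) - 2 ^ m / G * ∑ b, φ b =
      (WR - (2 ^ m - e) / G * ∑ b, φ b) -
      (∑ P ∈ S0.filter (fun P => P.natDegree ≠ m), (P.natDegree : ℝ) * φ (cl M κ P ^ (m / P.natDegree))) -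
      (e : ℝ) / G * ∑ b, φ b := by
    rw [h4]
    ring
  rw [h8]
  refine (abs_sub _ _).trans (add_le_add ((abs_sub _ _).trans (add_le_add hW h5)) h7)

end

end Pool.Agent.K7.H76.SI
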