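import Pool.Agent.K7.H76.SI.Red
import Pool.Agent.K7.H76.SI.Var

/-!
# The exponential sums over shifted irreducible polynomials
-/

set_option autoImplicit false

namespace Pool.Agent.K7.H76.SI

open Polynomial Finset Pool.Agent.H341R2.Sharp

/-- the test function on the classes -/
noncomputable def tfn (lam : R2 →+ ZMod 2) (W q : R2) (κ m : ℕ) (b : BB (W * q) κ) : ℝ := by
  classical
  exact if h : ∃ f ∈ Mon (ZMod 2) m, cl (W * q) κ f = b ∧ IsUnit b ∧ W ∣ f - 1 then sg (lam (h.choose - 1)) else 0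

/-- the function summed in the main term -/
noncomputable def GG (lam : R2 →+ ZMod 2) (W q f : R2) : ℝ := by
  classical
  exact if IsCoprime f (W * q) ∧ W ∣ f - 1 then sg (lam (f - 1)) else 0

theorem abs_GG_le (lam : R2 →+ ZMod 2) (W q f : R2) : |GG lam W q f| ≤ 1 := by
  unfold GG
  split_ifs
  · exact (abs_sg _).le
  · simp

theorem tfn_nonunit (lam : R2 →+ ZMod 2) (W q : R2) (κ m : ℕ) (b : BB (W * q) κ) (hb : ¬ IsUnit b) :
    tfn lam W q κ m b = 0 := by
  unfold tfn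
  rw [dif_neg]
  rintro ⟨f, _, _, h, _⟩
  exact hb h

theorem abs_tfn_le (lam : R2 →+ ZMod 2) (W q : R2) (κ m : ℕ) (b : BB (W * q) κ) : |tfn lam W q κ m b| ≤ 1 := by
  unfold tfn
  split_ifs
  · exact (abs_sg _).le
  · simp

theorem tfn_cl {lam : R2 →+ ZMod 2} {W q : R2} (hM : W * q ≠ 0) {m0 m : ℕ}
    (hlam : ∀ s ∈ Low m0, lam (q * s) = 0) (f : R2) (hf : f ∈ Mon (ZMod 2) m) :
    tfn lam W q (m - (q.natDegree + m0)) m (cl (W * q) (m - (q.natDegree + m0)) f) = GG lam W q f := by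
  classical
  set κ := m - (q.natDegree + m0) with hκ
  have hκm : κ ≤ m := by omega
  have hf0 : f ≠ 0 := (mem_Mon.1 hf).1.ne_zero
  have hq : q ≠ 0 := right_ne_zero_of_mul hM
  unfold tfn GG
  by_cases h : IsCoprime f (W * q) ∧ W ∣ f - 1
  · have hex : ∃ g ∈ Mon (ZMod 2) m, cl (W * q) κ g = cl (W * q) κ f ∧ IsUnit (cl (W * q) κ f) ∧ W ∣ g - 1 :=
      ⟨f, hf, rfl, (isUnit_cl_iff hf0).2 h.1, h.2⟩
    rw [dif_pos hex, if_pos h]
    obtain ⟨hg, hcl, _, _⟩ := hex.choose_spec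
    set g := hex.choose with hgdef
    rw [cl_eq_iff hκm hg hf] at hcl
    obtain ⟨⟨s, hs⟩, hd⟩ := hcl
    have h1 : lam (g - f) = 0 := by
      have h2 : g - f = q * (W * s) := by rw [hs]; ring
      rw [h2]
      apply hlam
      rw [mem_Low]
      by_cases hs0 : W * s = 0
      · rw [hs0, degree_zero]
        exact WithBot.bot_lt_coe _
      · rw [h2, degree_mul, degree_eq_natDegree hq, degree_eq_natDegree hs0] at hd
        have hd' : q.natDegree + (W * s).natDegree < m - κ := by exact_mod_cast hd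
        rw [degree_eq_natDegree hs0]
        exact_mod_cast (by omega : (W * s).natDegree < m0)
    have h3 : g - 1 = (g - f) + (f - 1) := by ring
    rw [h3, map_add, h1, zero_add]
  · rw [if_neg h, dif_neg]
    rintro ⟨g, hg, hcl, hu, hW⟩
    apply h
    refine ⟨(isUnit_cl_iff hf0).1 hu, ?_⟩
    rw [cl_eq_iff hκm hg hf] at hcl
    have h3 : f - 1 = (g - 1) - (g - f) := by ring
    rw [h3]
    exact dvd_sub hW ((dvd_mul_right W q).trans hcl.1)

theorem card_units_BB {M : R2} (hM : M ≠ 0) {κ m : ℕ} (hm : M.natDegree + κ ≤ m) :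
    (2 : ℝ) ^ (m - M.natDegree - κ) * Nat.card (BB M κ)ˣ = 2 ^ (m - M.natDegree) * phi M := by
  classical
  haveI := finite_BB hM κ
  haveI := Fintype.ofFinite (BB M κ)
  haveI := finite_adjoinRoot hM
  haveI := Fintype.ofFinite (AdjoinRoot M)
  have h1 := sum_cl hM hm (fun b : BB M κ => if IsUnit b then (1 : ℝ) else 0) (fun b hb => if_neg hb)
  have h2 := sum_Mon_mod hM (N := m) (by omega) (fun x => if IsUnit x then (1 : ℝ) else 0)
  have h3 : ∑ f ∈ Mon (ZMod 2) m, (if IsUnit (cl M κ f) then (1 : ℝ) else 0) =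
      ∑ f ∈ Mon (ZMod 2) m, (if IsUnit (AdjoinRoot.mk M f) then (1 : ℝ) else 0) := by
    apply sum_congr rfl
    intro f hf
    have h4 : IsUnit (cl M κ f) ↔ IsUnit (AdjoinRoot.mk M f) := by
      rw [isUnit_cl_iff (mem_Mon.1 hf).1.ne_zero, isUnit_mk_iff]
    simp only [h4]
  rw [h3, h2] at h1
  have h5 : ∑ b : BB M κ, (if IsUnit b then (1 : ℝ) else 0) = Nat.card (BB M κ)ˣ := by
    rw [sum_boole]
    congr 1
    rw [Nat.card_eq_fintype_card, ← card_univ, ← card_image_of_injective (univ : Finset (BB M κ)ˣ) Units.val_injective]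
    congr 1
    ext b
    simp only [mem_filter, mem_univ, true_and, mem_image]
    exact Iff.rfl
  have h6 : ∑ x : AdjoinRoot M, (if IsUnit x then (1 : ℝ) else 0) = phi M := by
    rw [sum_boole, ← card_Us M]
    congr 1
  rw [h5, h6] at h1
  exact h1.symm

theorem card_Mon_cong {W : R2} (hW : W ≠ 0) {m : ℕ} (hm : W.natDegree ≤ m) [DecidablePred (fun f : R2 => W ∣ f - 1)] :
    (((Mon (ZMod 2) m).filter (fun f => W ∣ f - 1)).card : ℝ) = 2 ^ (m - W.natDegree) := by
  classical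
  haveI := finite_adjoinRoot hW
  haveI := Fintype.ofFinite (AdjoinRoot W)
  have h2 := sum_Mon_mod hW (N := m) hm (fun x => if x = 1 then (1 : ℝ) else 0)
  rw [sum_ite_eq' univ (1 : AdjoinRoot W), if_pos (mem_univ _), mul_one] at h2
  rw [← h2, ← sum_boole]
  apply sum_congr rfl
  intro f _
  have h3 : AdjoinRoot.mk W f = 1 ↔ W ∣ f - 1 := by
    rw [← map_one (AdjoinRoot.mk W), AdjoinRoot.mk_eq_mk]
  simp only [h3]

/-- the sum over the irreducible polynomials of degree `m` -/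
noncomputable def SP (lam : R2 →+ ZMod 2) (W : R2) (m : ℕ) : ℝ := by
  classical
  exact m * ∑ P ∈ Pr m, if W ∣ P - 1 then sg (lam (P - 1)) else 0

theorem single {lam : R2 →+ ZMod 2} {W q : R2} (hM : W * q ≠ 0) {m0 m n : ℕ}
    (hlam : ∀ s ∈ Low m0, lam (q * s) = 0) (hq : q.natDegree ≤ m0) (hW : W.natDegree ≤ m0)
    (hm : m0 + W.natDegree < m) (hmn : m ≤ n) (hn : 2 * m0 ≤ n) :
    |SP lam W m - 2 ^ (W * q).natDegree / phi (W * q) * ∑ f ∈ Mon (ZMod 2) m, GG lam W q f| ≤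
      3 * (n * (√2) ^ (2 * n - m0)) := by
  classical
  have hq0 : q ≠ 0 := right_ne_zero_of_mul hM
  have hW0 : W ≠ 0 := left_ne_zero_of_mul hM
  have hD : (W * q).natDegree = W.natDegree + q.natDegree := natDegree_mul hW0 hq0
  set κ := m - (q.natDegree + m0) with hκ
  have hDκ : (W * q).natDegree + κ ≤ m := by omega
  haveI := finite_BB hM κ
  haveI := Fintype.ofFinite (BB (W * q) κ)
  have h1 := equi hM (tfn lam W q κ m) (tfn_nonunit lam W q κ m) (abs_tfn_le lam W q κ m) (m := m) (by omega)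
  have h2 : SP lam W m = m * (∑ P ∈ Pr m, tfn lam W q κ m (cl (W * q) κ P)) := by
    unfold SP
    congr 1
    apply sum_congr rfl
    intro P hP
    have hP' := mem_Pr.1 hP
    have hPM : P ∈ Mon (ZMod 2) m := mem_Mon.2 ⟨monic_of_ne_zero hP'.1.ne_zero, hP'.2⟩
    rw [tfn_cl hM hlam P hPM]
    unfold GG
    have hcop : IsCoprime P (W * q) := by
      rw [hP'.1.coprime_iff_not_dvd]
      intro hd
      have := natDegree_le_of_dvd hd hM
      omega
    simp only [hcop, true_and]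
  have h3 : ∑ f ∈ Mon (ZMod 2) m, GG lam W q f = 2 ^ (m - (W * q).natDegree - κ) * ∑ b, tfn lam W q κ m b := by
    rw [← sum_cl hM hDκ (tfn lam W q κ m) (tfn_nonunit lam W q κ m)]
    apply sum_congr rfl
    intro f hf
    rw [tfn_cl hM hlam f hf]
  have h4 : ∑ f ∈ Mon (ZMod 2) m, GG lam W q f ^ 2 =
      2 ^ (m - (W * q).natDegree - κ) * ∑ b, tfn lam W q κ m b ^ 2 := by
    rw [← sum_cl hM hDκ (fun b => tfn lam W q κ m b ^ 2) (fun b hb => by
      rw [tfn_nonunit lam W q κ m b hb]; norm_num)]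
    apply sum_congr rfl
    intro f hf
    rw [tfn_cl hM hlam f hf]
  have h5 : ∑ f ∈ Mon (ZMod 2) m, GG lam W q f ^ 2 ≤ 2 ^ (m - W.natDegree) := by
    rw [← card_Mon_cong hW0 (m := m) (by omega), ← sum_boole]
    apply sum_le_sum
    intro f _
    unfold GG
    by_cases hd : W ∣ f - 1
    · rw [if_pos hd]
      split_ifs
      · rw [← sq_abs, abs_sg]
        norm_num
      · norm_num
    · rw [if_neg hd, if_neg (fun h => hd h.2)]
      norm_num
  have h6 : ∑ b, tfn lam W q κ m b ^ 2 ≤ 2 ^ (n - m0) := by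
    have h7 : (2 : ℝ) ^ (m - (W * q).natDegree - κ) * ∑ b, tfn lam W q κ m b ^ 2 ≤
        2 ^ (m - (W * q).natDegree - κ) * 2 ^ (n - m0) := by
      rw [← h4, ← pow_add]
      refine h5.trans (pow_le_pow_right₀ (by norm_num) ?_)
      omega
    exact le_of_mul_le_mul_left h7 (by positivity)
  have h7 : (2 : ℝ) ^ m / Nat.card (BB (W * q) κ)ˣ * ∑ b, tfn lam W q κ m b =
      2 ^ (W * q).natDegree / phi (W * q) * ∑ f ∈ Mon (ZMod 2) m, GG lam W q f := by
    rw [h3]
    have h8 := card_units_BB hM hDκ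
    have h9 : (0 : ℝ) < Nat.card (BB (W * q) κ)ˣ := by
      have : 0 < Nat.card (BB (W * q) κ)ˣ := Nat.card_pos
      exact_mod_cast this
    have h10 : (0 : ℝ) < phi (W * q) := by exact_mod_cast phi_pos hM
    have h11 : (2 : ℝ) ^ m = 2 ^ (W * q).natDegree * 2 ^ (m - (W * q).natDegree) := by
      rw [← pow_add]
      congr 1
      omega
    rw [h11, ← mul_assoc]
    congr 1
    rw [div_mul_eq_mul_div, div_eq_div_iff h9.ne' h10.ne']
    linear_combination (-(2 : ℝ) ^ (W * q).natDegree) * h8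
  rw [h2, ← h7]
  refine h1.trans ?_
  have hs1 : (1 : ℝ) ≤ √2 := by
    rw [Real.one_le_sqrt]
    norm_num
  have h12 : √(∑ b, tfn lam W q κ m b ^ 2) ≤ (√2) ^ (n - m0) := by
    calc √(∑ b, tfn lam W q κ m b ^ 2) ≤ √(2 ^ (n - m0)) := Real.sqrt_le_sqrt h6
      _ = (√2) ^ (n - m0) := by
        rw [Real.sqrt_eq_iff_mul_self_eq (by positivity) (by positivity), ← mul_pow, Real.mul_self_sqrt (by norm_num)]
  have h13 : (((W * q).natDegree + κ : ℕ) : ℝ) ≤ n := by exact_mod_cast hDκ.trans hmn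
  have h14 : (√2) ^ m * (√2) ^ (n - m0) ≤ (√2) ^ (2 * n - m0) := by
    rw [← pow_add]
    exact pow_le_pow_right₀ hs1 (by omega)
  have h15 : (√2) ^ m ≤ (√2) ^ (2 * n - m0) := pow_le_pow_right₀ hs1 (by omega)
  have h16 : (1 : ℝ) ≤ (√2) ^ (2 * n - m0) := one_le_pow₀ hs1
  have hmn' : (m : ℝ) ≤ n := by exact_mod_cast hmn
  have hDn : ((W * q).natDegree : ℝ) ≤ n := by exact_mod_cast (by omega : (W * q).natDegree ≤ n)
  have hn0 : (0 : ℝ) ≤ n := Nat.cast_nonneg n
  have e1 : (((W * q).natDegree + κ : ℕ) : ℝ) * (√2) ^ m * √(∑ b, tfn lam W q κ m b ^ 2) ≤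
      n * (√2) ^ (2 * n - m0) := by
    rw [mul_assoc]
    apply mul_le_mul h13 _ (by positivity) hn0
    exact (mul_le_mul_of_nonneg_left h12 (by positivity)).trans h14
  have e2 : (m : ℝ) * (√2) ^ m ≤ n * (√2) ^ (2 * n - m0) :=
    mul_le_mul hmn' h15 (by positivity) hn0
  have e3 : ((W * q).natDegree : ℝ) ≤ n * (√2) ^ (2 * n - m0) := by
    calc ((W * q).natDegree : ℝ) ≤ n * 1 := by rw [mul_one]; exact hDn
      _ ≤ _ := mul_le_mul_of_nonneg_left h16 hn0
  linarith

theorem Low_succ (N : ℕ) (G : R2 → ℝ) :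
    ∑ f ∈ Low (N + 1), G f = ∑ f ∈ Low N, G f + ∑ f ∈ Mon (ZMod 2) N, G f := by
  classical
  rw [← sum_union]
  · apply sum_congr _ (fun _ _ => rfl)
    ext f
    rw [mem_union, mem_Low, mem_Low, mem_Mon]
    constructor
    · intro h
      by_cases h1 : f.degree < N
      · exact Or.inl h1
      · right
        have hf0 : f ≠ 0 := by
          rintro rfl
          apply h1
          rw [degree_zero]
          exact WithBot.bot_lt_coe _
        rw [degree_eq_natDegree hf0] at h h1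
        have h2 : f.natDegree < N + 1 := by exact_mod_cast h
        have h3 : ¬ f.natDegree < N := fun h4 => h1 (by exact_mod_cast h4)
        exact ⟨monic_of_ne_zero hf0, by omega⟩
    · rintro (h | ⟨h1, h2⟩)
      · exact h.trans (by exact_mod_cast Nat.lt_succ_self N)
      · rw [degree_eq_natDegree h1.ne_zero, h2]
        exact_mod_cast Nat.lt_succ_self N
  · rw [disjoint_left]
    intro f hf hf'
    rw [mem_Low] at hf
    rw [mem_Mon] at hf'
    rw [degree_eq_natDegree hf'.1.ne_zero, hf'.2] at hf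
    exact lt_irrefl _ hf

theorem sum_Ioc_Mon {a n : ℕ} (h : a ≤ n) (G : R2 → ℝ) :
    ∑ m ∈ Ioc a n, ∑ f ∈ Mon (ZMod 2) m, G f = ∑ f ∈ Low (n + 1), G f - ∑ f ∈ Low (a + 1), G f := by
  induction n, h using Nat.le_induction with
  | base => simp
  | succ n hn ih =>
    rw [Finset.sum_Ioc_succ_top (by omega), ih, Low_succ (n + 1)]
    ring

theorem MT_eq (lam : R2 →+ ZMod 2) (W q : R2) (N : ℕ) :
    MT lam W q N = 2 ^ (W * q).natDegree / phi (W * q) * ∑ f ∈ Low N, GG lam W q f := rfl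

theorem abs_MT_le (lam : R2 →+ ZMod 2) {W q : R2} (hM : W * q ≠ 0) {N : ℕ} (hN : (W * q).natDegree ≤ N) :
    |MT lam W q N| ≤ 2 ^ N := by
  classical
  haveI := finite_adjoinRoot hM
  haveI := Fintype.ofFinite (AdjoinRoot (W * q))
  have h2 := sum_Low_mod hM hN (fun x => if IsUnit x then (1 : ℝ) else 0)
  have h6 : ∑ x : AdjoinRoot (W * q), (if IsUnit x then (1 : ℝ) else 0) = phi (W * q) := by
    rw [sum_boole, ← card_Us (W * q)]
    congr 1
  rw [h6] at h2
  have h10 : (0 : ℝ) < phi (W * q) := by exact_mod_cast phi_pos hM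
  have h3 : |∑ f ∈ Low N, GG lam W q f| ≤ 2 ^ (N - (W * q).natDegree) * phi (W * q) := by
    rw [← h2]
    refine (abs_sum_le_sum_abs _ _).trans (sum_le_sum ?_)
    intro f _
    by_cases hc : IsCoprime f (W * q)
    · rw [if_pos (isUnit_mk_iff.2 hc)]
      exact abs_GG_le _ _ _ _
    · rw [if_neg (fun h => hc (isUnit_mk_iff.1 h))]
      unfold GG
      rw [if_neg (fun h => hc h.1)]
      simp
  rw [MT_eq, abs_mul, abs_of_nonneg (by positivity)]
  calc (2 : ℝ) ^ (W * q).natDegree / phi (W * q) * |∑ f ∈ Low N, GG lam W q f|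
      ≤ 2 ^ (W * q).natDegree / phi (W * q) * (2 ^ (N - (W * q).natDegree) * phi (W * q)) :=
        mul_le_mul_of_nonneg_left h3 (by positivity)
    _ = 2 ^ ((W * q).natDegree + (N - (W * q).natDegree)) := by
        rw [pow_add]
        field_simp
    _ = 2 ^ N := by
        congr 1
        omega

/-- the sums over the shifted irreducible polynomials, with their main terms -/
theorem total {lam : R2 →+ ZMod 2} {W q : R2} (hM : W * q ≠ 0) {m0 n : ℕ}
    (hlam : ∀ s ∈ Low m0, lam (q * s) = 0) (hq : q.natDegree ≤ m0) (hW : W.natDegree ≤ m0)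
    (hn : 2 * m0 ≤ n) :
    |∑ m ∈ Ioc (m0 + W.natDegree) n, SP lam W m - MT lam W q (n + 1)| ≤
      3 * (n ^ 2 * (√2) ^ (2 * n - m0)) + 2 ^ (m0 + W.natDegree + 1) := by
  have hq0 : q ≠ 0 := right_ne_zero_of_mul hM
  have hW0 : W ≠ 0 := left_ne_zero_of_mul hM
  have hD : (W * q).natDegree = W.natDegree + q.natDegree := natDegree_mul hW0 hq0
  have h1 := sum_Ioc_Mon (a := m0 + W.natDegree) (n := n) (by omega) (GG lam W q)
  have h2 : ∑ m ∈ Ioc (m0 + W.natDegree) n, SP lam W m - MT lam W q (n + 1) =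
      ∑ m ∈ Ioc (m0 + W.natDegree) n,
        (SP lam W m - 2 ^ (W * q).natDegree / phi (W * q) * ∑ f ∈ Mon (ZMod 2) m, GG lam W q f) -
      MT lam W q (m0 + W.natDegree + 1) := by
    rw [sum_sub_distrib, ← mul_sum, h1, MT_eq, MT_eq]
    ring
  rw [h2]
  refine (abs_sub _ _).trans (add_le_add ?_ (abs_MT_le lam hM (by omega)))
  refine (abs_sum_le_sum_abs _ _).trans ?_
  have h3 : ∀ m ∈ Ioc (m0 + W.natDegree) n,
      |SP lam W m - 2 ^ (W * q).natDegree / phi (W * q) * ∑ f ∈ Mon (ZMod 2) m, GG lam W q f| ≤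
      3 * (n * (√2) ^ (2 * n - m0)) := by
    intro m hm
    rw [mem_Ioc] at hm
    exact single hM hlam hq hW hm.1 hm.2 hn
  refine (sum_le_card_nsmul _ _ _ h3).trans ?_
  rw [nsmul_eq_mul, Nat.card_Ioc]
  have h4 : ((n - (m0 + W.natDegree) : ℕ) : ℝ) ≤ n := by exact_mod_cast (by omega : n - (m0 + W.natDegree) ≤ n)
  calc ((n - (m0 + W.natDegree) : ℕ) : ℝ) * (3 * (n * (√2) ^ (2 * n - m0)))
      ≤ n * (3 * (n * (√2) ^ (2 * n - m0))) := mul_le_mul_of_nonneg_right h4 (by positivity)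
    _ = _ := by ring

end Pool.Agent.K7.H76.SI
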