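import Pool.Agent.K7.H76.SI.Fou
import Mathlib.Analysis.SpecificLimits.Normed

/-!
# The final bound
-/

set_option autoImplicit false

namespace Pool.Agent.K7.H76.SI

open Polynomial Finset Filter Topology Pool.Agent.H341R2.Sharp

theorem pow_ten_le {a b : ℝ} (hb : 0 ≤ b) (h : a ^ 10 ≤ b ^ 10) : a ≤ b :=
  le_of_pow_le_pow_left₀ (by norm_num) hb h

theorem sqrt_bound (n : ℕ) : (2 : ℝ) ^ (n / 5) * (√2) ^ (2 * n - n / 2) ≤ 2 * (1.935 : ℝ) ^ n := by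
  have hs1 : (1 : ℝ) ≤ √2 := by
    rw [Real.one_le_sqrt]
    norm_num
  have hs2 : (√2) ^ 2 = 2 := Real.sq_sqrt (by norm_num)
  have h1 : (2 : ℝ) ^ (n / 5) = (√2) ^ (2 * (n / 5)) := by
    rw [pow_mul, hs2]
  rw [h1, ← pow_add]
  apply pow_ten_le (by positivity)
  rw [← pow_mul]
  have h2 : (√2) ^ ((2 * (n / 5) + (2 * n - n / 2)) * 10) ≤ (√2) ^ (19 * n + 5) :=
    pow_le_pow_right₀ hs1 (by omega)
  refine h2.trans ?_
  rw [pow_add, pow_mul, mul_pow, ← pow_mul (1.935 : ℝ) n 10, mul_comm n 10, pow_mul (1.935 : ℝ) 10 n, mul_comm]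
  apply mul_le_mul _ _ (by positivity) (by positivity)
  · calc (√2) ^ 5 ≤ (√2) ^ 20 := pow_le_pow_right₀ hs1 (by norm_num)
      _ = 2 ^ 10 := by rw [show 20 = 2 * 10 by norm_num, pow_mul, hs2]
  · apply pow_le_pow_left₀ (by positivity)
    have h3 : ((√2) ^ 19) ^ 2 ≤ ((1.935 : ℝ) ^ 10) ^ 2 := by
      rw [← pow_mul, mul_comm 19 2, pow_mul, hs2]
      norm_num
    exact le_of_pow_le_pow_left₀ (by norm_num) (by positivity) h3

theorem two_bound (n : ℕ) : (2 : ℝ) ^ (n / 5) * 2 ^ (n / 2 + n / 5 + 1) ≤ 2 * (1.935 : ℝ) ^ n := by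
  rw [← pow_add]
  apply pow_ten_le (by positivity)
  rw [← pow_mul]
  have h2 : (2 : ℝ) ^ ((n / 5 + (n / 2 + n / 5 + 1)) * 10) ≤ 2 ^ (9 * n + 10) :=
    pow_le_pow_right₀ (by norm_num) (by omega)
  refine h2.trans ?_
  rw [pow_add, pow_mul, mul_pow, ← pow_mul (1.935 : ℝ) n 10, mul_comm n 10, pow_mul (1.935 : ℝ) 10 n, mul_comm]
  apply mul_le_mul le_rfl _ (by positivity) (by positivity)
  apply pow_le_pow_left₀ (by positivity)
  norm_num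

theorem six_bound (n : ℕ) : (2 : ℝ) ^ (n + 1) * (16 * (5 / 6 : ℝ) ^ (n / 5)) ≤ 40 * (1.935 : ℝ) ^ n := by
  have h1 : (5 / 6 : ℝ) ^ (n / 5) ≤ (0.965 ^ 4)⁻¹ * 0.965 ^ n := by
    have h2 : (5 / 6 : ℝ) ^ (n / 5) ≤ (0.965 ^ 5) ^ (n / 5) :=
      pow_le_pow_left₀ (by norm_num) (by norm_num) _
    have h3 : (0.965 : ℝ) ^ 4 * (0.965 ^ 5) ^ (n / 5) ≤ 0.965 ^ n := by
      rw [← pow_mul, ← pow_add]
      exact pow_le_pow_of_le_one (by norm_num) (by norm_num) (by omega)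
    have h4 : (0.965 ^ 5 : ℝ) ^ (n / 5) ≤ (0.965 ^ 4)⁻¹ * 0.965 ^ n := by
      rw [inv_mul_eq_div, le_div_iff₀ (by positivity)]
      linarith
    exact h2.trans h4
  have h5 : (2 : ℝ) ^ n * 0.965 ^ n ≤ 1.935 ^ n := by
    rw [← mul_pow]
    exact pow_le_pow_left₀ (by norm_num) (by norm_num) _
  have h6 : (0.965 ^ 4 : ℝ)⁻¹ ≤ 5 / 4 := by norm_num
  have h7 : (5 / 6 : ℝ) ^ (n / 5) ≤ 5 / 4 * 0.965 ^ n :=
    h1.trans (mul_le_mul_of_nonneg_right h6 (by positivity))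
  calc (2 : ℝ) ^ (n + 1) * (16 * (5 / 6 : ℝ) ^ (n / 5)) ≤ 2 ^ (n + 1) * (16 * (5 / 4 * 0.965 ^ n)) := by
        apply mul_le_mul_of_nonneg_left _ (by positivity)
        linarith
    _ = 40 * (2 ^ n * 0.965 ^ n) := by ring
    _ ≤ 40 * (1.935 : ℝ) ^ n := by linarith

theorem err_bound (n : ℕ) : 2 ^ (n / 5) * Err n (n / 2) (n / 5) ≤ (6 * n ^ 2 + 2) * (1.935 : ℝ) ^ n := by
  unfold Err
  have h1 := sqrt_bound n
  have h2 := two_bound n
  have h3 : (0 : ℝ) ≤ n ^ 2 := by positivity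
  calc (2 : ℝ) ^ (n / 5) * (3 * (n ^ 2 * (√2) ^ (2 * n - n / 2)) + 2 ^ (n / 2 + n / 5 + 1))
      = 3 * n ^ 2 * (2 ^ (n / 5) * (√2) ^ (2 * n - n / 2)) + 2 ^ (n / 5) * 2 ^ (n / 2 + n / 5 + 1) := by ring
    _ ≤ 3 * n ^ 2 * (2 * (1.935 : ℝ) ^ n) + 2 * (1.935 : ℝ) ^ n :=
        add_le_add (mul_le_mul_of_nonneg_left h1 (by positivity)) h2
    _ = _ := by ring

/-- the explicit bound -/
theorem explicit {n : ℕ} (hn : (6 * n ^ 2 + 2) * (1.935 : ℝ) ^ n ≤ 2 ^ n) {A : Finset R2}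
    (hA : ∀ x ∈ A, x.natDegree ≤ n) (hno : ∀ x ∈ A, ∀ y ∈ A, ¬ Irreducible (x - y - 1)) :
    (A.card : ℝ) ≤ (12 * n ^ 2 + 84) * (1.935 : ℝ) ^ n := by
  have hA' : ∀ x ∈ A, x ∈ Low (n + 1) := by
    intro x hx
    rw [mem_Low]
    by_cases hx0 : x = 0
    · rw [hx0, degree_zero]
      exact WithBot.bot_lt_coe _
    · rw [degree_eq_natDegree hx0]
      exact_mod_cast Nat.lt_succ_of_le (hA x hx)
  have h1 := delsarte (n := n) (m0 := n / 2) (d := n / 5) (by omega) (by omega) hA' hno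
  have h2 := err_bound n
  have h3 := six_bound n
  rcases Nat.eq_zero_or_pos A.card with h0 | h0
  · rw [h0]
    simp only [Nat.cast_zero]
    positivity
  have h0' : (0 : ℝ) < A.card := by exact_mod_cast h0
  set E := 2 ^ (n / 5) * Err n (n / 2) (n / 5) with hE
  have hE0 : 0 ≤ E := by
    rw [hE]
    unfold Err
    positivity
  have h4 : (2 : ℝ) ^ n ≤ 2 ^ (n + 1) - E := by
    rw [pow_succ]
    linarith
  have h5 : (2 : ℝ) ^ n * A.card ^ 2 ≤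
      (2 ^ (n + 1) * (16 * (5 / 6 : ℝ) ^ (n / 5)) + E) * (2 ^ (n + 1) * A.card) :=
    le_trans (mul_le_mul_of_nonneg_right h4 (by positivity)) h1
  have h6 : (2 : ℝ) ^ n * A.card * A.card ≤ 2 ^ n * A.card *
      (2 * (2 ^ (n + 1) * (16 * (5 / 6 : ℝ) ^ (n / 5)) + E)) := by
    calc (2 : ℝ) ^ n * A.card * A.card = 2 ^ n * A.card ^ 2 := by ring
      _ ≤ _ := h5
      _ = _ := by
        rw [pow_succ]
        ring
  have h7 : (A.card : ℝ) ≤ 2 * (2 ^ (n + 1) * (16 * (5 / 6 : ℝ) ^ (n / 5)) + E) :=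
    le_of_mul_le_mul_left h6 (by positivity)
  calc (A.card : ℝ) ≤ 2 * (2 ^ (n + 1) * (16 * (5 / 6 : ℝ) ^ (n / 5)) + E) := h7
    _ ≤ 2 * (40 * (1.935 : ℝ) ^ n + (6 * n ^ 2 + 2) * (1.935 : ℝ) ^ n) := by linarith
    _ = _ := by ring

theorem ev_lt {a b : ℝ} (ha : 0 < a) (hab : a < b) (c1 c2 : ℝ) :
    ∀ᶠ n : ℕ in atTop, (c1 * n ^ 2 + c2) * a ^ n < b ^ n := by
  have hb : 0 < b := ha.trans hab
  have hr : |a / b| < 1 := by
    rw [abs_of_pos (div_pos ha hb), div_lt_one hb]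
    exact hab
  have h1 : Tendsto (fun n : ℕ => c1 * ((n : ℝ) ^ 2 * (a / b) ^ n) + c2 * ((n : ℝ) ^ 0 * (a / b) ^ n)) atTop
      (𝓝 (c1 * 0 + c2 * 0)) :=
    ((tendsto_pow_const_mul_const_pow_of_abs_lt_one 2 hr).const_mul c1).add
      ((tendsto_pow_const_mul_const_pow_of_abs_lt_one 0 hr).const_mul c2)
  rw [mul_zero, mul_zero, add_zero] at h1
  filter_upwards [h1.eventually_lt_const (one_pos : (0 : ℝ) < 1)] with n hn
  have hbn : 0 < b ^ n := by positivity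
  rw [div_pow, pow_zero, one_mul] at hn
  have h2 : (c1 * n ^ 2 + c2) * a ^ n / b ^ n < 1 := by
    refine lt_of_eq_of_lt ?_ hn
    field_simp
  rwa [div_lt_one hbn] at h2

/-- **Shifted irreducible polynomials in difference sets**: the strong form with `1.94` -/
theorem strong : ∃ n0 : ℕ, ∀ n ≥ n0, ∀ A : Finset R2, (∀ a ∈ A, a.natDegree ≤ n) → (1.94 : ℝ) ^ n ≤ A.card →
    ∃ a1 ∈ A, ∃ a2 ∈ A, Irreducible (a1 - a2 - 1) := by
  have h1 := ev_lt (a := 1.935) (b := 2) (by norm_num) (by norm_num) 6 2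
  have h2 := ev_lt (a := 1.935) (b := 1.94) (by norm_num) (by norm_num) 12 84
  obtain ⟨n0, h0⟩ := eventually_atTop.1 (h1.and h2)
  refine ⟨n0, fun n hn A hA hcard => ?_⟩
  by_contra hcon
  push Not at hcon
  have h3 := explicit (h0 n hn).1.le hA hcon
  have h4 := (h0 n hn).2
  linarith

end Pool.Agent.K7.H76.SI
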