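import Pool.Agent.K7.H76.SI.Spec

/-!
# Polynomials with coefficients in a finite subfield
-/

set_option autoImplicit false
set_option linter.style.haveILetI false

namespace Pool.Agent.K7.H76.SI

open Polynomial Finset

section

variable {k : Type} [Field k] [CharP k 2]

/-- an element of the field with `2 ^ r` elements -/
def Fx (r : ℕ) (c : k) : Prop := c ^ 2 ^ r = c

theorem Fx.mul_right {r : ℕ} {c : k} (h : Fx r c) (n : ℕ) : Fx (r * n) c := by
  unfold Fx at *
  induction n with
  | zero => simp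
  | succ n ih => rw [Nat.mul_succ, pow_add, pow_mul, ih, h]

theorem eval_fix {m : ℕ} {g : k[X]} (hg : ∀ i, Fx m (g.coeff i)) (x : k) :
    (g.eval x) ^ 2 ^ m = g.eval (x ^ 2 ^ m) := by
  have h1 : g.map (iterateFrobenius k 2 m) = g := by
    ext i
    rw [coeff_map, iterateFrobenius_def]
    exact hg i
  have h2 := Polynomial.hom_eval₂ g (RingHom.id k) (iterateFrobenius k 2 m) x
  rw [RingHom.comp_id] at h2
  have h3 : eval₂ (RingHom.id k) x g = g.eval x := rfl
  rw [h3, iterateFrobenius_def, iterateFrobenius_def] at h2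
  rw [h2, ← eval_map, h1]

theorem evalEval_fix {m : ℕ} {g : k[X][X]} (hg : ∀ i j, Fx m ((g.coeff i).coeff j)) (x y : k) :
    (evalEval x y g) ^ 2 ^ m = evalEval (x ^ 2 ^ m) (y ^ 2 ^ m) g := by
  rw [← eval₂_evalRingHom, ← eval₂_evalRingHom, ← iterateFrobenius_def, hom_eval₂, iterateFrobenius_def,
    eval₂_eq_sum_range, eval₂_eq_sum_range]
  apply sum_congr rfl
  intro i _
  congr 1
  rw [RingHom.comp_apply, coe_evalRingHom, coe_evalRingHom, iterateFrobenius_def]
  exact eval_fix (hg i) x

theorem mv_fix {ι : Type} {m : ℕ} {p : MvPolynomial ι k[X]} (hp : ∀ d j, Fx m ((p.coeff d).coeff j)) (x : k)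
    (u : ι → k) : (p.eval₂ (evalRingHom x) u) ^ 2 ^ m = p.eval₂ (evalRingHom (x ^ 2 ^ m)) (fun i => u i ^ 2 ^ m) := by
  rw [← iterateFrobenius_def, MvPolynomial.eval₂_comp_left, MvPolynomial.eval₂_eq, MvPolynomial.eval₂_eq]
  apply sum_congr rfl
  intro d _
  congr 1
  rw [RingHom.comp_apply, coe_evalRingHom, coe_evalRingHom, iterateFrobenius_def]
  exact eval_fix (hp d) x

end

section Alg

variable {k : Type} [Field k] [Algebra (ZMod 2) k] [Algebra.IsAlgebraic (ZMod 2) k]

theorem exists_fx (c : k) : ∃ r : ℕ, 1 ≤ r ∧ Fx r c := by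
  have h1 : IsIntegral (ZMod 2) c := Algebra.IsIntegral.isIntegral c
  haveI : FiniteDimensional (ZMod 2) (IntermediateField.adjoin (ZMod 2) {c}) :=
    IntermediateField.adjoin.finiteDimensional h1
  haveI : Finite (IntermediateField.adjoin (ZMod 2) {c}) := Module.finite_of_finite (ZMod 2)
  haveI : Fintype (IntermediateField.adjoin (ZMod 2) {c}) := Fintype.ofFinite _
  haveI : CharP k 2 := charP_of_injective_algebraMap (algebraMap (ZMod 2) k).injective 2
  haveI : CharP (IntermediateField.adjoin (ZMod 2) {c}) 2 :=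
    charP_of_injective_algebraMap (algebraMap (ZMod 2) (IntermediateField.adjoin (ZMod 2) {c})).injective 2
  obtain ⟨n, _, hn⟩ := FiniteField.card (IntermediateField.adjoin (ZMod 2) {c}) 2
  refine ⟨n, n.2, ?_⟩
  have h2 := FiniteField.pow_card (K := IntermediateField.adjoin (ZMod 2) {c})
    ⟨c, IntermediateField.mem_adjoin_simple_self (ZMod 2) c⟩
  rw [hn] at h2
  exact congrArg Subtype.val h2

theorem exists_fx_finset (T : Finset k) : ∃ r : ℕ, 1 ≤ r ∧ ∀ c ∈ T, Fx r c := by
  classical
  haveI : CharP k 2 := charP_of_injective_algebraMap (algebraMap (ZMod 2) k).injective 2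
  induction T using Finset.induction_on with
  | empty => exact ⟨1, le_rfl, fun c hc => absurd hc (Finset.notMem_empty c)⟩
  | insert a s ha ih =>
    obtain ⟨r, hr, h⟩ := ih
    obtain ⟨r', hr', h'⟩ := exists_fx a
    refine ⟨r * r', Nat.mul_pos hr hr', ?_⟩
    intro c hc
    rcases Finset.mem_insert.1 hc with rfl | hc
    · rw [mul_comm]
      exact h'.mul_right r
    · exact (h c hc).mul_right r'

theorem fx_zero [CharP k 2] (r : ℕ) : Fx r (0 : k) := by
  unfold Fx
  rw [zero_pow (Nat.two_pow_pos r).ne']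

/-- the coefficients of a bivariate polynomial -/
theorem exists_finset_coeff (g : k[X]) : ∃ T : Finset k, ∀ r : ℕ, (∀ c ∈ T, Fx r c) → ∀ i, Fx r (g.coeff i) := by
  classical
  haveI : CharP k 2 := charP_of_injective_algebraMap (algebraMap (ZMod 2) k).injective 2
  refine ⟨g.support.image (fun i => g.coeff i), fun r hr i => ?_⟩
  by_cases hi : i ∈ g.support
  · exact hr _ (mem_image_of_mem _ hi)
  · rw [notMem_support_iff.1 hi]
    exact fx_zero r

theorem exists_finset_coeff₂ (g : k[X][X]) : ∃ T : Finset k, ∀ r : ℕ, (∀ c ∈ T, Fx r c) →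
    ∀ i j, Fx r ((g.coeff i).coeff j) := by
  classical
  haveI : CharP k 2 := charP_of_injective_algebraMap (algebraMap (ZMod 2) k).injective 2
  choose T hT using fun i => exists_finset_coeff (k := k) (g.coeff i)
  refine ⟨g.support.biUnion T, fun r hr i j => ?_⟩
  by_cases hi : i ∈ g.support
  · exact hT i r (fun c hc => hr c (mem_biUnion.2 ⟨i, hi, hc⟩)) j
  · rw [notMem_support_iff.1 hi, coeff_zero]
    exact fx_zero r

theorem exists_finset_coeff_mv {ι : Type} (p : MvPolynomial ι k[X]) : ∃ T : Finset k, ∀ r : ℕ, (∀ c ∈ T, Fx r c) →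
    ∀ d j, Fx r ((p.coeff d).coeff j) := by
  classical
  haveI : CharP k 2 := charP_of_injective_algebraMap (algebraMap (ZMod 2) k).injective 2
  choose T hT using fun d => exists_finset_coeff (k := k) (p.coeff d)
  refine ⟨p.support.biUnion T, fun r hr d j => ?_⟩
  by_cases hi : d ∈ p.support
  · exact hT d r (fun c hc => hr c (mem_biUnion.2 ⟨d, hi, hc⟩)) j
  · rw [MvPolynomial.notMem_support_iff.1 hi, coeff_zero]
    exact fx_zero r

end Alg

end Pool.Agent.K7.H76.SI
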