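import Pool.Agent.K7.H76.SI.Dir

/-!
# Delsarte's inequality for the polynomials of degree at most `n`
-/

set_option autoImplicit false

namespace Pool.Agent.K7.H76.SI

open Polynomial Finset Pool.Agent.H341R2.Sharp

/-- the additive map attached to a vector -/
noncomputable def fn {N : ℕ} (a : Fin N → ZMod 2) : R2 →+ ZMod 2 where
  toFun h := ∑ i : Fin N, a i * h.coeff i
  map_zero' := by simp
  map_add' x y := by
    rw [← sum_add_distrib]
    apply sum_congr rfl
    intro i _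
    rw [coeff_add, mul_add]

theorem fn_apply {N : ℕ} (a : Fin N → ZMod 2) (h : R2) : fn a h = ∑ i : Fin N, a i * h.coeff i := rfl

theorem fn_zero {N : ℕ} : fn (0 : Fin N → ZMod 2) = 0 := by
  refine AddMonoidHom.ext fun h => ?_
  rw [fn_apply]
  simp

theorem fn_orth {N : ℕ} {z : R2} (hz : z ∈ Low N) (hz0 : z ≠ 0) : ∑ a : Fin N → ZMod 2, sg (fn a z) = 0 := by
  classical
  rw [mem_Low, degree_eq_natDegree hz0] at hz
  have hzN : z.natDegree < N := by exact_mod_cast hz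
  set i : Fin N := ⟨z.natDegree, hzN⟩ with hi
  have hci : z.coeff i = 1 := monic_of_ne_zero hz0
  have h1 : ∑ a : Fin N → ZMod 2, sg (fn a z) = ∑ a : Fin N → ZMod 2, sg (fn (a + Pi.single i 1) z) :=
    (Equiv.sum_comp (Equiv.addRight (Pi.single i (1 : ZMod 2))) (fun a => sg (fn a z))).symm
  have h2 : ∀ a : Fin N → ZMod 2, sg (fn (a + Pi.single i 1) z) = - sg (fn a z) := by
    intro a
    have h3 : fn (a + Pi.single i 1) z = fn a z + 1 := by
      rw [fn_apply, fn_apply]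
      have h4 : ∀ j : Fin N, (a + Pi.single i 1 : Fin N → ZMod 2) j * z.coeff j =
          a j * z.coeff j + (Pi.single i 1 : Fin N → ZMod 2) j * z.coeff j := by
        intro j
        rw [Pi.add_apply, add_mul]
      rw [sum_congr rfl (fun j _ => h4 j), sum_add_distrib]
      congr 1
      rw [sum_eq_single i]
      · rw [Pi.single_eq_same, one_mul, hci]
      · intro j _ hj
        rw [Pi.single_eq_of_ne hj, zero_mul]
      · intro h
        exact absurd (mem_univ _) h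
    rw [h3, sg_add, sg_one]
    ring
  rw [sum_congr rfl (fun a _ => h2 a), sum_neg_distrib] at h1
  linarith

/-- the transform of a set -/
noncomputable def Ah (A : Finset R2) {N : ℕ} (a : Fin N → ZMod 2) : ℝ := ∑ x ∈ A, sg (fn a x)

theorem add_self_R2 (x : R2) : x + x = 0 := CharTwo.add_self_eq_zero x

theorem sum_shift {A : Finset R2} {N : ℕ} (z : R2) :
    ∑ a : Fin N → ZMod 2, sg (fn a z) * Ah A a ^ 2 =
      ∑ x ∈ A, ∑ y ∈ A, ∑ a : Fin N → ZMod 2, sg (fn a (z + x + y)) := by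
  have h1 : ∀ a : Fin N → ZMod 2, sg (fn a z) * Ah A a ^ 2 = ∑ x ∈ A, ∑ y ∈ A, sg (fn a (z + x + y)) := by
    intro a
    unfold Ah
    rw [pow_two, sum_mul_sum, mul_sum]
    apply sum_congr rfl
    intro x _
    rw [mul_sum]
    apply sum_congr rfl
    intro y _
    rw [map_add, map_add, sg_add, sg_add]
    ring
  rw [sum_congr rfl (fun a _ => h1 a), sum_comm]
  apply sum_congr rfl
  intro x _
  rw [sum_comm]

theorem sum_Ah_sq {A : Finset R2} {N : ℕ} (hA : ∀ x ∈ A, x ∈ Low N) :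
    ∑ a : Fin N → ZMod 2, Ah A a ^ 2 = 2 ^ N * A.card := by
  classical
  have h1 := sum_shift (A := A) (N := N) 0
  have h2 : ∀ a : Fin N → ZMod 2, sg (fn a 0) * Ah A a ^ 2 = Ah A a ^ 2 := by
    intro a
    rw [map_zero, sg_zero, one_mul]
  rw [sum_congr rfl (fun a _ => h2 a)] at h1
  rw [h1]
  have h3 : ∀ x ∈ A, ∑ y ∈ A, ∑ a : Fin N → ZMod 2, sg (fn a (0 + x + y)) = 2 ^ N := by
    intro x hx
    rw [sum_eq_single x]
    · rw [zero_add, add_self_R2]
      simp [sg_zero]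
    · intro y hy hyx
      apply fn_orth
      · have h4 := hA x hx
        have h5 := hA y hy
        rw [mem_Low] at h4 h5 ⊢
        rw [zero_add]
        exact (degree_add_le _ _).trans_lt (max_lt h4 h5)
      · intro h4
        apply hyx
        calc y = (0 + x + y) + x := by linear_combination -(add_self_R2 x)
          _ = x := by rw [h4, zero_add]
    · intro h
      exact absurd hx h
  rw [sum_congr rfl h3, sum_const, nsmul_eq_mul]
  ring

theorem sum_shift_zero {A : Finset R2} {N : ℕ} (hA : ∀ x ∈ A, x ∈ Low N) {z : R2} (hz : z ∈ Low N)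
    (hne : ∀ x ∈ A, ∀ y ∈ A, z + x + y ≠ 0) : ∑ a : Fin N → ZMod 2, sg (fn a z) * Ah A a ^ 2 = 0 := by
  rw [sum_shift]
  apply sum_eq_zero
  intro x hx
  apply sum_eq_zero
  intro y hy
  apply fn_orth _ (hne x hx y hy)
  have h4 := hA x hx
  have h5 := hA y hy
  rw [mem_Low] at h4 h5 hz ⊢
  exact (degree_add_le _ _).trans_lt (max_lt ((degree_add_le _ _).trans_lt (max_lt hz h4)) h5)

theorem sum_SP_zero {A : Finset R2} {n : ℕ} (hA : ∀ x ∈ A, x ∈ Low (n + 1))
    (hno : ∀ x ∈ A, ∀ y ∈ A, ¬ Irreducible (x - y - 1)) (W : R2) {m : ℕ} (hm : m ≤ n) :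
    ∑ a : Fin (n + 1) → ZMod 2, SP (fn a) W m * Ah A a ^ 2 = 0 := by
  classical
  have h1 : ∀ a : Fin (n + 1) → ZMod 2, SP (fn a) W m * Ah A a ^ 2 =
      m * ∑ P ∈ Pr m, (if W ∣ P - 1 then (sg (fn a (P - 1)) * Ah A a ^ 2) else 0) := by
    intro a
    unfold SP
    rw [mul_assoc, sum_mul]
    congr 1
    apply sum_congr rfl
    intro P _
    split_ifs
    · rfl
    · rw [zero_mul]
  rw [sum_congr rfl (fun a _ => h1 a), ← mul_sum, sum_comm]
  have h2 : ∀ P ∈ Pr m, ∑ a : Fin (n + 1) → ZMod 2,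
      (if W ∣ P - 1 then (sg (fn a (P - 1)) * Ah A a ^ 2) else 0) = 0 := by
    intro P hP
    rw [mem_Pr] at hP
    split_ifs
    · apply sum_shift_zero hA
      · rw [mem_Low]
        refine (degree_sub_le _ _).trans_lt (max_lt ?_ ?_)
        · rw [degree_eq_natDegree hP.1.ne_zero, hP.2]
          exact_mod_cast (by omega : m < n + 1)
        · rw [degree_one]
          exact_mod_cast Nat.succ_pos n
      · intro x hx y hy h
        apply hno x hx y hy
        have h3 : x - y - 1 = P := by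
          have e1 := add_self_R2 x
          have e4 := add_self_R2 (1 : R2)
          linear_combination e1 - e4 - h
        rw [h3]
        exact hP.1
    · exact sum_const_zero
  rw [sum_eq_zero h2, mul_zero]

theorem delsarte {A : Finset R2} {n m0 d : ℕ} (hd : d ≤ m0) (hn : 2 * m0 ≤ n) (hA : ∀ x ∈ A, x ∈ Low (n + 1))
    (hno : ∀ x ∈ A, ∀ y ∈ A, ¬ Irreducible (x - y - 1)) :
    (2 ^ (n + 1) - 2 ^ d * Err n m0 d) * A.card ^ 2 ≤
      (2 ^ (n + 1) * (16 * (5 / 6 : ℝ) ^ d) + 2 ^ d * Err n m0 d) * (2 ^ (n + 1) * A.card) := by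
  classical
  have h0 : ∑ a : Fin (n + 1) → ZMod 2, That n m0 d (fn a) * Ah A a ^ 2 = 0 := by
    have h1 : ∀ a : Fin (n + 1) → ZMod 2, That n m0 d (fn a) * Ah A a ^ 2 =
        ∑ W ∈ Mon (ZMod 2) d, ∑ m ∈ Ioc (m0 + d) n, (phi W : ℝ) * (SP (fn a) W m * Ah A a ^ 2) := by
      intro a
      unfold That
      rw [sum_mul]
      apply sum_congr rfl
      intro W _
      rw [mul_assoc, sum_mul, mul_sum]
    rw [sum_congr rfl (fun a _ => h1 a), sum_comm]
    apply sum_eq_zero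
    intro W _
    rw [sum_comm]
    apply sum_eq_zero
    intro m hm
    rw [mem_Ioc] at hm
    rw [← mul_sum, sum_SP_zero hA hno W hm.2, mul_zero]
  set B : ℝ := 2 ^ (n + 1) * (16 * 2 ^ d * (5 / 6 : ℝ) ^ d) + 2 ^ d * (2 ^ d * Err n m0 d) with hB
  have h1 : ∀ a : Fin (n + 1) → ZMod 2, 0 ≤ (That n m0 d (fn a) + B) * Ah A a ^ 2 := by
    intro a
    apply mul_nonneg _ (sq_nonneg _)
    have := That_ge (fn a) hd hn
    linarith
  have h2 : ∑ a : Fin (n + 1) → ZMod 2, (That n m0 d (fn a) + B) * Ah A a ^ 2 = B * (2 ^ (n + 1) * A.card) := by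
    have h3 : ∀ a : Fin (n + 1) → ZMod 2, (That n m0 d (fn a) + B) * Ah A a ^ 2 =
        That n m0 d (fn a) * Ah A a ^ 2 + B * Ah A a ^ 2 := by
      intro a
      ring
    rw [sum_congr rfl (fun a _ => h3 a), sum_add_distrib, h0, zero_add, ← mul_sum, sum_Ah_sq hA]
  have h3 : (That n m0 d (fn (0 : Fin (n + 1) → ZMod 2)) + B) * Ah A (0 : Fin (n + 1) → ZMod 2) ^ 2 ≤
      B * (2 ^ (n + 1) * A.card) := by
    rw [← h2]
    exact single_le_sum (f := fun a : Fin (n + 1) → ZMod 2 => (That n m0 d (fn a) + B) * Ah A a ^ 2)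
      (fun a _ => h1 a) (mem_univ _)
  have h4 : Ah A (0 : Fin (n + 1) → ZMod 2) = A.card := by
    unfold Ah
    rw [fn_zero]
    simp [sg_zero]
  rw [h4, fn_zero] at h3
  have h5 := That_zero hd hn
  have h6 : (0 : ℝ) ≤ B := by
    rw [hB]
    unfold Err
    positivity
  have h7 : (2 ^ (n + 1) * 2 ^ d - 2 ^ d * (2 ^ d * Err n m0 d)) * (A.card : ℝ) ^ 2 ≤ B * (2 ^ (n + 1) * A.card) := by
    refine le_trans ?_ h3
    apply mul_le_mul_of_nonneg_right _ (sq_nonneg _)
    linarith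
  have h8 : (0 : ℝ) < 2 ^ d := by positivity
  have h9 : 2 ^ d * ((2 ^ (n + 1) - 2 ^ d * Err n m0 d) * (A.card : ℝ) ^ 2) ≤
      2 ^ d * ((2 ^ (n + 1) * (16 * (5 / 6 : ℝ) ^ d) + 2 ^ d * Err n m0 d) * (2 ^ (n + 1) * A.card)) := by
    calc _ = (2 ^ (n + 1) * 2 ^ d - 2 ^ d * (2 ^ d * Err n m0 d)) * (A.card : ℝ) ^ 2 := by ring
      _ ≤ B * (2 ^ (n + 1) * A.card) := h7
      _ = _ := by rw [hB]; ring
  exact le_of_mul_le_mul_left h9 h8

end Pool.Agent.K7.H76.SI
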