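import Pool.Agent.K7.H76.SI.Cls

/-!
# Local averages of additive characters over units congruent to one

For a finite commutative ring `A`, an additive map `ℓ : A → ZMod 2` and `w : A` let `kap ℓ w` be the average of
`(-1)^(ℓ (c - 1))` over the units `c` with `w ∣ c - 1`.
-/

set_option autoImplicit false

namespace Pool.Agent.K7.H76.SI

open Polynomial Finset Pool.Agent.H341R2.Sharp

/-- the sign character of `ZMod 2` -/
noncomputable def sg (a : ZMod 2) : ℝ := if a = 0 then 1 else -1

theorem sg_zero : sg 0 = 1 := by simp [sg]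

theorem sg_one : sg 1 = -1 := by
  unfold sg
  rw [if_neg one_ne_zero]

theorem sg_add (a b : ZMod 2) : sg (a + b) = sg a * sg b := by
  rcases zmod2_cases a with rfl | rfl <;> rcases zmod2_cases b with rfl | rfl
  · simp [sg_zero]
  · simp [sg_zero]
  · simp [sg_zero]
  · rw [show (1 : ZMod 2) + 1 = 0 from by decide, sg_zero, sg_one]
    norm_num

theorem abs_sg (a : ZMod 2) : |sg a| = 1 := by
  rcases zmod2_cases a with rfl | rfl
  · simp [sg_zero]
  · simp [sg_one]

theorem sg_le_one (a : ZMod 2) : sg a ≤ 1 := by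
  have := le_abs_self (sg a)
  rwa [abs_sg] at this

theorem neg_one_le_sg (a : ZMod 2) : -1 ≤ sg a := by
  have := neg_abs_le (sg a)
  rwa [abs_sg] at this

section General

variable {A B : Type} [CommRing A] [CommRing B]

/-- the units `c` with `w ∣ c - 1` -/
noncomputable def Vs (A : Type) [CommRing A] [Finite A] (w : A) : Finset A :=
  (Set.toFinite {c : A | IsUnit c ∧ w ∣ c - 1}).toFinset

theorem mem_Vs [Finite A] {w c : A} : c ∈ Vs A w ↔ IsUnit c ∧ w ∣ c - 1 := by
  unfold Vs
  rw [Set.Finite.mem_toFinset]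
  rfl

theorem one_mem_Vs [Finite A] (w : A) : (1 : A) ∈ Vs A w := by
  rw [mem_Vs]
  exact ⟨isUnit_one, by rw [sub_self]; exact dvd_zero _⟩

theorem card_Vs_pos [Finite A] (w : A) : 0 < (Vs A w).card := card_pos.2 ⟨1, one_mem_Vs w⟩

/-- the average of the character over the units congruent to one -/
noncomputable def kap [Finite A] (l : A →+ ZMod 2) (w : A) : ℝ :=
  (∑ c ∈ Vs A w, sg (l (c - 1))) / (Vs A w).card

/-- a nondegenerate additive map -/
def Prim (l : A →+ ZMod 2) : Prop := ∀ a, (∀ b, l (a * b) = 0) → a = 0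

theorem kap_equiv [Finite A] [Finite B] (e : A ≃+* B) (l : B →+ ZMod 2) (w : A) :
    kap l (e w) = kap (l.comp e.toAddMonoidHom) w := by
  have h1 : Vs B (e w) = (Vs A w).map e.toEquiv.toEmbedding := by
    ext c
    rw [mem_map, mem_Vs]
    constructor
    · rintro ⟨h1, h2⟩
      refine ⟨e.symm c, ?_, by simp⟩
      rw [mem_Vs]
      refine ⟨h1.map e.symm, ?_⟩
      have h3 := map_dvd e.symm h2
      rwa [map_sub, map_one, e.symm_apply_apply] at h3
    · rintro ⟨a, ha, rfl⟩
      rw [mem_Vs] at ha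
      refine ⟨ha.1.map e, ?_⟩
      have h3 := map_dvd e ha.2
      rwa [map_sub, map_one] at h3
  unfold kap
  rw [h1, card_map, sum_map]
  congr 1
  apply sum_congr rfl
  intro c _
  congr 1
  change l (e c - 1) = l (e (c - 1))
  rw [map_sub e, map_one e]

theorem kap_prod [Finite A] [Finite B] (l : A × B →+ ZMod 2) (w : A × B) :
    kap l w = kap (l.comp (AddMonoidHom.inl A B)) w.1 * kap (l.comp (AddMonoidHom.inr A B)) w.2 := by
  obtain ⟨w1, w2⟩ := w
  have h1 : Vs (A × B) (w1, w2) = Vs A w1 ×ˢ Vs B w2 := by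
    ext ⟨c1, c2⟩
    rw [mem_product, mem_Vs, mem_Vs, mem_Vs, Prod.isUnit_iff]
    have h2 : ((c1, c2) : A × B) - 1 = (c1 - 1, c2 - 1) := rfl
    rw [h2, Prod.mk_dvd_mk]
    tauto
  unfold kap
  rw [h1, card_product, sum_product, div_mul_div_comm, sum_mul_sum]
  push_cast
  congr 1
  apply sum_congr rfl
  intro c1 _
  apply sum_congr rfl
  intro c2 _
  rw [← sg_add]
  congr 1
  change l ((c1, c2) - 1) = l (c1 - 1, 0) + l (0, c2 - 1)
  rw [← map_add]
  congr 1
  simp [Prod.ext_iff]

theorem prim_equiv (e : A ≃+* B) {l : B →+ ZMod 2} (hl : Prim l) : Prim (l.comp e.toAddMonoidHom) := by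
  intro a ha
  have h1 : e a = 0 := by
    apply hl
    intro b
    have h2 := ha (e.symm b)
    change l (e (a * e.symm b)) = 0 at h2
    rwa [map_mul, e.apply_symm_apply] at h2
  exact (map_eq_zero_iff e e.injective).1 h1

theorem prim_inl {l : A × B →+ ZMod 2} (hl : Prim l) : Prim (l.comp (AddMonoidHom.inl A B)) := by
  intro a ha
  have h1 : ((a, 0) : A × B) = 0 := by
    apply hl
    rintro ⟨b, b'⟩
    have h2 := ha b
    change l (a * b, 0) = 0 at h2
    rw [Prod.mk_mul_mk, zero_mul]
    exact h2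
  exact (Prod.ext_iff.1 h1).1

theorem prim_inr {l : A × B →+ ZMod 2} (hl : Prim l) : Prim (l.comp (AddMonoidHom.inr A B)) := by
  intro a ha
  have h1 : ((0, a) : A × B) = 0 := by
    apply hl
    rintro ⟨b', b⟩
    have h2 := ha b
    change l (0, a * b) = 0 at h2
    rw [Prod.mk_mul_mk, zero_mul]
    exact h2
  exact (Prod.ext_iff.1 h1).2

theorem kap_zero [Finite A] (l : A →+ ZMod 2) : kap l 0 = 1 := by
  have h1 : Vs A 0 = {1} := by
    ext c
    rw [mem_Vs, mem_singleton, zero_dvd_iff, sub_eq_zero]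
    constructor
    · exact fun h => h.2
    · rintro rfl
      exact ⟨isUnit_one, rfl⟩
  unfold kap
  rw [h1, sum_singleton, card_singleton, sub_self, map_zero, sg_zero]
  norm_num

/-- vanishing by translation -/
theorem kap_eq_zero [Finite A] (l : A →+ ZMod 2) (w h : A) (hn : IsNilpotent h) (hw : w ∣ h) (hl : l h = 1) :
    kap l w = 0 := by
  have h1 : ∑ c ∈ Vs A w, sg (l (c - 1)) = ∑ c ∈ Vs A w, sg (l (c + h - 1)) := by
    symm
    refine sum_bij' (fun c _ => c + h) (fun c _ => c - h) ?_ ?_ ?_ ?_ ?_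
    · intro c hc
      rw [mem_Vs] at hc ⊢
      refine ⟨hn.isUnit_add_left_of_commute hc.1 (Commute.all _ _), ?_⟩
      rw [show c + h - 1 = (c - 1) + h by ring]
      exact dvd_add hc.2 hw
    · intro c hc
      rw [mem_Vs] at hc ⊢
      constructor
      · rw [sub_eq_add_neg]
        exact hn.neg.isUnit_add_left_of_commute hc.1 (Commute.all _ _)
      rw [show c - h - 1 = (c - 1) - h by ring]
      exact dvd_sub hc.2 hw
    · intro c _
      ring
    · intro c _
      ring
    · intro c _
      rfl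
  have h2 : ∑ c ∈ Vs A w, sg (l (c + h - 1)) = - ∑ c ∈ Vs A w, sg (l (c - 1)) := by
    rw [← sum_neg_distrib]
    apply sum_congr rfl
    intro c _
    rw [show c + h - 1 = (c - 1) + h by ring, map_add, sg_add, hl, sg_one]
    ring
  have h3 : ∑ c ∈ Vs A w, sg (l (c - 1)) = 0 := by linarith
  unfold kap
  rw [h3, zero_div]

theorem sum_sg_eq_zero [Fintype A] (l : A →+ ZMod 2) (h : A) (hl : l h = 1) : ∑ c : A, sg (l c) = 0 := by
  have h1 : ∑ c : A, sg (l c) = ∑ c : A, sg (l (c + h)) :=
    (Equiv.sum_comp (Equiv.addRight h) (fun c => sg (l c))).symm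
  have h2 : ∑ c : A, sg (l (c + h)) = - ∑ c : A, sg (l c) := by
    rw [← sum_neg_distrib]
    apply sum_congr rfl
    intro c _
    rw [map_add, sg_add, hl, sg_one]
    ring
  linarith

/-- the value at a unit for a field -/
theorem kap_field [Finite A] (hA : IsField A) (l : A →+ ZMod 2) (h : A) (hl : l h = 1) (w : A) (hw : IsUnit w) :
    kap l w = - sg (l 1) / (Nat.card A - 1) := by
  classical
  haveI := Fintype.ofFinite A
  have h1 : Vs A w = univ.erase 0 := by
    ext c
    rw [mem_Vs, mem_erase]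
    constructor
    · rintro ⟨h1, _⟩
      refine ⟨?_, mem_univ _⟩
      rintro rfl
      obtain ⟨x, y, hxy⟩ := hA.exists_pair_ne
      have h01 : (0 : A) = 1 := isUnit_zero_iff.1 h1
      apply hxy
      calc x = x * 1 := (mul_one x).symm
        _ = y * 1 := by rw [← h01, mul_zero, mul_zero]
        _ = y := mul_one y
    · rintro ⟨h1, _⟩
      obtain ⟨d, hd⟩ := hA.mul_inv_cancel h1
      exact ⟨IsUnit.of_mul_eq_one d hd, hw.dvd⟩
  unfold kap
  have h0 : (0 : A) ∈ (univ : Finset A) := mem_univ _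
  have h2 : ∑ c ∈ Vs A w, sg (l (c - 1)) = - sg (l 1) := by
    rw [h1]
    have h3 := Finset.add_sum_erase univ (fun c : A => sg (l (c - 1))) h0
    have h4 : ∑ c : A, sg (l (c - 1)) = 0 := by
      rw [← sum_sg_eq_zero l h hl]
      exact Equiv.sum_comp (Equiv.subRight (1 : A)) (fun c => sg (l c))
    rw [h4] at h3
    have h5 : sg (l (0 - 1)) = sg (l 1) := by
      rw [zero_sub, map_neg]
      congr 1
      rcases zmod2_cases (l 1) with h | h <;> rw [h] <;> decide
    rw [h5] at h3
    linarith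
  rw [h2]
  congr 1
  rw [h1, card_erase_of_mem h0, card_univ, Nat.card_eq_fintype_card, Nat.cast_sub (Fintype.card_pos_iff.2 ⟨0⟩)]
  simp

end General

end Pool.Agent.K7.H76.SI
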