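import Pool.Agent.K7.H76.SI.Loc

/-!
# Local averages for residue rings of the polynomial ring
-/

set_option autoImplicit false

namespace Pool.Agent.K7.H76.SI

open Polynomial Finset Pool.Agent.H341R2.Sharp

/-- the reduction map between residue rings -/
noncomputable def dn {q M : R2} (h : q ∣ M) : AdjoinRoot M →+* AdjoinRoot q :=
  Ideal.Quotient.lift (Ideal.span {M}) (AdjoinRoot.mk q) (by
    intro a ha
    rw [Ideal.mem_span_singleton] at ha
    rw [AdjoinRoot.mk_eq_zero]
    exact h.trans ha)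

theorem dn_mk {q M : R2} (h : q ∣ M) (f : R2) : dn h (AdjoinRoot.mk M f) = AdjoinRoot.mk q f := rfl

theorem mk_dvd_mk_iff {q w c : R2} (hw : w ∣ q) : AdjoinRoot.mk q w ∣ AdjoinRoot.mk q c ↔ w ∣ c := by
  constructor
  · rintro ⟨t, ht⟩
    obtain ⟨t, rfl⟩ := AdjoinRoot.mk_surjective t
    rw [← map_mul, AdjoinRoot.mk_eq_mk] at ht
    have h1 : w ∣ c - w * t := hw.trans ht
    have h2 : w ∣ (c - w * t) + w * t := dvd_add h1 (dvd_mul_right _ _)
    rwa [sub_add_cancel] at h2
  · intro h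
    exact map_dvd _ h

/-- the Chinese remainder map -/
noncomputable def crtHom (q1 q2 : R2) : AdjoinRoot (q1 * q2) →+* AdjoinRoot q1 × AdjoinRoot q2 :=
  (dn (dvd_mul_right q1 q2)).prod (dn (dvd_mul_left q2 q1))

theorem crtHom_bij {q1 q2 : R2} (h : IsCoprime q1 q2) : Function.Bijective (crtHom q1 q2) := by
  constructor
  · rw [injective_iff_map_eq_zero]
    intro x hx
    obtain ⟨f, rfl⟩ := AdjoinRoot.mk_surjective x
    have hx1 : dn (dvd_mul_right q1 q2) (AdjoinRoot.mk _ f) = 0 := (Prod.ext_iff.1 hx).1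
    have hx2 : dn (dvd_mul_left q2 q1) (AdjoinRoot.mk _ f) = 0 := (Prod.ext_iff.1 hx).2
    rw [dn_mk, AdjoinRoot.mk_eq_zero] at hx1 hx2
    rw [AdjoinRoot.mk_eq_zero]
    exact h.mul_dvd hx1 hx2
  · rintro ⟨x1, x2⟩
    obtain ⟨f1, rfl⟩ := AdjoinRoot.mk_surjective x1
    obtain ⟨f2, rfl⟩ := AdjoinRoot.mk_surjective x2
    obtain ⟨u, v, huv⟩ := h
    refine ⟨AdjoinRoot.mk _ (f1 * (v * q2) + f2 * (u * q1)), ?_⟩
    change (dn _ _, dn _ _) = _
    rw [dn_mk, dn_mk, Prod.mk.injEq, AdjoinRoot.mk_eq_mk, AdjoinRoot.mk_eq_mk]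
    constructor
    · exact ⟨u * (f2 - f1), by linear_combination f1 * huv⟩
    · exact ⟨v * (f1 - f2), by linear_combination f2 * huv⟩

/-- the Chinese remainder isomorphism -/
noncomputable def crt {q1 q2 : R2} (h : IsCoprime q1 q2) :
    AdjoinRoot (q1 * q2) ≃+* AdjoinRoot q1 × AdjoinRoot q2 :=
  RingEquiv.ofBijective (crtHom q1 q2) (crtHom_bij h)

theorem crt_mk {q1 q2 : R2} (h : IsCoprime q1 q2) (f : R2) :
    crt h (AdjoinRoot.mk _ f) = (AdjoinRoot.mk q1 f, AdjoinRoot.mk q2 f) := rfl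

theorem card_adjoinRoot {M : R2} (hM : M ≠ 0) : Nat.card (AdjoinRoot M) = 2 ^ M.natDegree := by
  have hMm := monic_of_ne_zero hM
  haveI := finite_adjoinRoot hM
  have h1 : (Low M.natDegree).card = Nat.card (AdjoinRoot M) := by
    classical
    haveI := Fintype.ofFinite (AdjoinRoot M)
    rw [Nat.card_eq_fintype_card, ← card_univ]
    refine card_bij (fun f _ => AdjoinRoot.mk M f) (fun _ _ => mem_univ _) ?_ ?_
    · intro f hf g hg hfg
      rw [AdjoinRoot.mk_eq_mk] at hfg
      rw [mem_Low] at hf hg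
      by_contra hne
      have h2 : f - g ≠ 0 := sub_ne_zero.2 hne
      have h3 := degree_le_of_dvd hfg h2
      have h4 : (f - g).degree < M.natDegree := (degree_sub_le _ _).trans_lt (max_lt hf hg)
      rw [degree_eq_natDegree hM] at h3
      exact absurd h4 (not_lt.2 h3)
    · intro x _
      obtain ⟨f, rfl⟩ := AdjoinRoot.mk_surjective x
      refine ⟨f %ₘ M, ?_, ?_⟩
      · rw [mem_Low, ← degree_eq_natDegree hM]
        exact degree_modByMonic_lt _ hMm
      · rw [AdjoinRoot.mk_eq_mk]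
        exact ⟨-(f /ₘ M), by linear_combination modByMonic_add_div f M⟩
  rw [← h1, card_Low]

/-- the number of the linear polynomials dividing `q` -/
noncomputable def cc (q : R2) : ℕ := by
  classical
  exact (if X ∣ q then 1 else 0) + (if (X + 1) ∣ q then 1 else 0)

theorem cc_le (q : R2) : cc q ≤ 2 := by
  unfold cc
  split_ifs <;> omega

theorem natDegree_X_add_one : (X + 1 : R2).natDegree = 1 := natDegree_X_add_C 1

theorem prime_X_add_one : Prime (X + 1 : R2) := by
  have h : (X + 1 : R2) = X - C 1 := by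
    have h1 : (C 1 : R2) + C 1 = 0 := by
      rw [← C_add, show (1 : ZMod 2) + 1 = 0 from by decide, C_0]
    have : (X + 1 : R2) = X + C 1 := by rw [C_1]
    rw [this]
    linear_combination h1
  rw [h]
  exact prime_X_sub_C 1

theorem cc_mul {q1 q2 : R2} (h : IsCoprime q1 q2) : cc (q1 * q2) = cc q1 + cc q2 := by
  classical
  have key : ∀ p : R2, Prime p → (if p ∣ q1 * q2 then 1 else 0) = (if p ∣ q1 then 1 else 0) + (if p ∣ q2 then 1 else 0) := by
    intro p hp
    have h1 : ¬ (p ∣ q1 ∧ p ∣ q2) := fun h2 => hp.not_unit (h.isUnit_of_dvd' h2.1 h2.2)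
    by_cases ha : p ∣ q1
    · have hb : ¬ p ∣ q2 := fun hb => h1 ⟨ha, hb⟩
      rw [if_pos ha, if_neg hb, if_pos (ha.mul_right _)]
    · by_cases hb : p ∣ q2
      · rw [if_neg ha, if_pos hb, if_pos (hb.mul_left _)]
      · rw [if_neg ha, if_neg hb, if_neg]
        intro hc
        rcases hp.dvd_or_dvd hc with h3 | h3
        · exact ha h3
        · exact hb h3
  have h1 := key X prime_X
  have h2 := key (X + 1) prime_X_add_one
  unfold cc
  omega

/-- the structure of the local averages modulo `q` -/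
def PP (q : R2) : Prop :=
  q ≠ 0 → ∀ [Finite (AdjoinRoot q)] (l : AdjoinRoot q →+ ZMod 2), Prim l →
    ∃ (ι : Type) (_ : Fintype ι) (g : ι → R2) (a : ι → ℝ),
      (∀ i, g i ∣ q) ∧ (∀ W : R2, kap l (AdjoinRoot.mk q W) = ∑ i, a i * (by classical exact if g i ∣ W then 1 else 0)) ∧
      0 ≤ ∑ i, a i / 2 ^ (g i).natDegree ∧
      ∑ i, |a i| / 2 ^ (g i).natDegree ≤ 4 ^ cc q * (5 / 6 : ℝ) ^ q.natDegree

theorem PP_mul {q1 q2 : R2} (h : IsCoprime q1 q2) (h1 : PP q1) (h2 : PP q2) : PP (q1 * q2) := by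
  intro hq _ l hl
  have hq1 : q1 ≠ 0 := left_ne_zero_of_mul hq
  have hq2 : q2 ≠ 0 := right_ne_zero_of_mul hq
  haveI := finite_adjoinRoot hq1
  haveI := finite_adjoinRoot hq2
  let l' : AdjoinRoot q1 × AdjoinRoot q2 →+ ZMod 2 := l.comp (crt h).symm.toAddMonoidHom
  have hl' : Prim l' := prim_equiv (crt h).symm hl
  obtain ⟨ι1, F1, g1, a1, hg1, hk1, hp1, hb1⟩ := h1 hq1 _ (prim_inl hl')
  obtain ⟨ι2, F2, g2, a2, hg2, hk2, hp2, hb2⟩ := h2 hq2 _ (prim_inr hl')
  have hne1 : ∀ i, g1 i ≠ 0 := fun i hi => hq1 (zero_dvd_iff.1 (hi ▸ hg1 i))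
  have hne2 : ∀ i, g2 i ≠ 0 := fun i hi => hq2 (zero_dvd_iff.1 (hi ▸ hg2 i))
  refine ⟨ι1 × ι2, inferInstance, fun i => g1 i.1 * g2 i.2, fun i => a1 i.1 * a2 i.2, ?_, ?_, ?_, ?_⟩
  · rintro ⟨i, j⟩
    exact mul_dvd_mul (hg1 i) (hg2 j)
  · intro W
    have e1 : kap l (AdjoinRoot.mk (q1 * q2) W) = kap l' (crt h (AdjoinRoot.mk _ W)) := by
      rw [kap_equiv (crt h) l']
      congr 1
      ext x
      change l x = l ((crt h).symm (crt h x))
      rw [RingEquiv.symm_apply_apply]
    rw [e1, kap_prod, crt_mk]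
    change kap _ (AdjoinRoot.mk q1 W) * kap _ (AdjoinRoot.mk q2 W) = _
    rw [hk1, hk2, sum_mul_sum, Fintype.sum_prod_type]
    apply sum_congr rfl
    intro i _
    apply sum_congr rfl
    intro j _
    have hcop : IsCoprime (g1 i) (g2 j) := (h.of_isCoprime_of_dvd_left (hg1 i)).of_isCoprime_of_dvd_right (hg2 j)
    have e2 : g1 i * g2 j ∣ W ↔ g1 i ∣ W ∧ g2 j ∣ W :=
      ⟨fun hd => ⟨(dvd_mul_right _ _).trans hd, (dvd_mul_left _ _).trans hd⟩, fun hd => hcop.mul_dvd hd.1 hd.2⟩
    by_cases ha : g1 i ∣ W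
    · by_cases hb : g2 j ∣ W
      · rw [if_pos ha, if_pos hb, if_pos (e2.2 ⟨ha, hb⟩)]
        ring
      · rw [if_neg hb, if_neg (fun hc => hb (e2.1 hc).2)]
        ring
    · rw [if_neg ha, if_neg (fun hc => ha (e2.1 hc).1)]
      ring
  · have e3 : ∑ i : ι1 × ι2, (a1 i.1 * a2 i.2) / (2 : ℝ) ^ (g1 i.1 * g2 i.2).natDegree =
        (∑ i, a1 i / 2 ^ (g1 i).natDegree) * ∑ j, a2 j / 2 ^ (g2 j).natDegree := by
      rw [sum_mul_sum, Fintype.sum_prod_type]
      apply sum_congr rfl
      intro i _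
      apply sum_congr rfl
      intro j _
      rw [natDegree_mul (hne1 i) (hne2 j), pow_add]
      field_simp
    rw [e3]
    exact mul_nonneg hp1 hp2
  · have e3 : ∑ i : ι1 × ι2, |a1 i.1 * a2 i.2| / (2 : ℝ) ^ (g1 i.1 * g2 i.2).natDegree =
        (∑ i, |a1 i| / 2 ^ (g1 i).natDegree) * ∑ j, |a2 j| / 2 ^ (g2 j).natDegree := by
      rw [sum_mul_sum, Fintype.sum_prod_type]
      apply sum_congr rfl
      intro i _
      apply sum_congr rfl
      intro j _
      rw [natDegree_mul (hne1 i) (hne2 j), pow_add, abs_mul]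
      field_simp
    rw [e3, cc_mul h, natDegree_mul hq1 hq2, pow_add, pow_add]
    have hn : 0 ≤ ∑ j, |a2 j| / (2 : ℝ) ^ (g2 j).natDegree := sum_nonneg fun j _ => by positivity
    calc _ ≤ (4 ^ cc q1 * (5 / 6 : ℝ) ^ q1.natDegree) * (4 ^ cc q2 * (5 / 6 : ℝ) ^ q2.natDegree) :=
          mul_le_mul hb1 hb2 hn (by positivity)
      _ = _ := by ring

theorem PP_unit {q : R2} (hq : IsUnit q) : PP q := by
  intro hq0 _ l hl
  have h1 : q.natDegree = 0 := natDegree_eq_zero_of_isUnit hq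
  refine ⟨Unit, inferInstance, fun _ => 1, fun _ => 1, ?_, ?_, ?_, ?_⟩
  · intro _
    exact one_dvd _
  · intro W
    have h2 : AdjoinRoot.mk q W = 0 := by
      rw [AdjoinRoot.mk_eq_zero]
      exact hq.dvd
    rw [h2, kap_zero]
    simp
  · simp
  · rw [h1]
    have h3 : (1 : ℝ) ≤ 4 ^ cc q := one_le_pow₀ (by norm_num)
    simpa using h3

theorem exists_prim_ne {q : R2} {l : AdjoinRoot q →+ ZMod 2} (hl : Prim l) {h : R2} (hh : ¬ q ∣ h) :
    ∃ b : R2, l (AdjoinRoot.mk q (h * b)) = 1 := by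
  by_contra hcon
  apply hh
  rw [← AdjoinRoot.mk_eq_zero]
  apply hl
  intro b
  obtain ⟨b, rfl⟩ := AdjoinRoot.mk_surjective b
  rw [← map_mul]
  rcases zmod2_cases (l (AdjoinRoot.mk q (h * b))) with h1 | h1
  · exact h1
  · exact absurd ⟨b, h1⟩ hcon

theorem PP_prime {p : R2} (hp : Prime p) : PP p := by
  classical
  intro hq0 _ l hl
  have hpm := monic_of_ne_zero hq0
  have hirr := hp.irreducible
  have hdeg : 1 ≤ p.natDegree := by
    rw [Nat.one_le_iff_ne_zero]
    intro h0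
    exact hp.not_unit (eq_one_of_monic_natDegree_zero hpm h0 ▸ isUnit_one)
  haveI : Fact (Irreducible p) := ⟨hirr⟩
  have hA : IsField (AdjoinRoot p) := Field.toIsField (AdjoinRoot p)
  obtain ⟨b, hb⟩ := exists_prim_ne hl (h := 1) (fun h => hp.not_unit (isUnit_of_dvd_one h))
  set s : ℝ := sg (l 1) with hs
  have hs1 : s ≤ 1 := sg_le_one _
  have hs2 : -1 ≤ s := neg_one_le_sg _
  set N : ℝ := (2 : ℝ) ^ p.natDegree with hN
  have hN2 : 2 ≤ N := by
    calc (2 : ℝ) = 2 ^ 1 := by norm_num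
      _ ≤ 2 ^ p.natDegree := pow_le_pow_right₀ (by norm_num) hdeg
  have hN1 : 0 < N - 1 := by linarith
  refine ⟨Bool, inferInstance, fun i => if i then p else 1, fun i => if i then 1 + s / (N - 1) else - s / (N - 1),
    ?_, ?_, ?_, ?_⟩
  · rintro (_ | _)
    · simp
    · simp
  · intro W
    rw [Fintype.sum_bool]
    simp only [if_true, Bool.false_eq_true, if_false, one_dvd, mul_one]
    by_cases hW : p ∣ W
    · rw [if_pos hW, (AdjoinRoot.mk_eq_zero (f := p) (g := W)).2 hW, kap_zero]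
      ring
    · rw [if_neg hW]
      have hu : IsUnit (AdjoinRoot.mk p W) := by
        rw [isUnit_mk_iff]
        exact ((hirr.coprime_iff_not_dvd).2 hW).symm
      rw [kap_field hA l _ hb _ hu, card_adjoinRoot hq0]
      push_cast
      ring
  · rw [Fintype.sum_bool]
    simp only [if_true, Bool.false_eq_true, if_false, natDegree_one, pow_zero, div_one]
    rw [← hN]
    have : (1 + s / (N - 1)) / N + -s / (N - 1) = (1 - s) / N := by
      field_simp
      ring
    rw [this]
    apply div_nonneg <;> linarith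
  · rw [Fintype.sum_bool]
    simp only [if_true, Bool.false_eq_true, if_false, natDegree_one, pow_zero, div_one]
    rw [← hN]
    have hbd : |1 + s / (N - 1)| / N + |-s / (N - 1)| ≤ 2 / (N - 1) := by
      have h1 : |-s / (N - 1)| ≤ 1 / (N - 1) := by
        rw [abs_div, abs_neg, abs_of_pos hN1]
        exact div_le_div_of_nonneg_right (abs_le.2 ⟨hs2, hs1⟩) hN1.le
      have h2 : |1 + s / (N - 1)| ≤ N / (N - 1) := by
        have h3 : |s / (N - 1)| ≤ 1 / (N - 1) := by
          rw [abs_div, abs_of_pos hN1]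
          exact div_le_div_of_nonneg_right (abs_le.2 ⟨hs2, hs1⟩) hN1.le
        calc |1 + s / (N - 1)| ≤ |1| + |s / (N - 1)| := abs_add_le _ _
          _ ≤ 1 + 1 / (N - 1) := by rw [abs_one]; linarith
          _ = N / (N - 1) := by field_simp; ring
      have h4 : |1 + s / (N - 1)| / N ≤ 1 / (N - 1) := by
        calc |1 + s / (N - 1)| / N ≤ (N / (N - 1)) / N := div_le_div_of_nonneg_right h2 (by linarith)
          _ = 1 / (N - 1) := by field_simp
      calc _ ≤ 1 / (N - 1) + 1 / (N - 1) := add_le_add h4 h1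
        _ = 2 / (N - 1) := by ring
    refine hbd.trans ?_
    rcases Nat.lt_or_ge p.natDegree 2 with h2 | h2
    · have hd1 : p.natDegree = 1 := by omega
      have hcc : 1 ≤ cc p := by
        have h3 : p = X ∨ p = X + 1 := by
          have h4 := eq_X_add_C_of_natDegree_le_one (p := p) (by omega)
          have h5 : p.coeff 1 = 1 := by
            have := hpm.coeff_natDegree
            rwa [hd1] at this
          rw [h5, C_1, one_mul] at h4
          rcases zmod2_cases (p.coeff 0) with h6 | h6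
          · left
            rw [h4, h6, C_0, add_zero]
          · right
            rw [h4, h6, C_1]
        unfold cc
        rcases h3 with h3 | h3
        · rw [if_pos (h3 ▸ dvd_rfl)]
          omega
        · rw [if_pos (h3 ▸ dvd_rfl : (X + 1) ∣ p)]
          omega
      have h4 : (4 : ℝ) ^ 1 ≤ 4 ^ cc p := pow_le_pow_right₀ (by norm_num) hcc
      rw [hN, hd1]
      norm_num at h4 ⊢
      linarith
    · have h3 : ∀ e : ℕ, 2 ≤ e → 2 * (6 / 5 : ℝ) ^ e ≤ 2 ^ e - 1 := by
        intro e he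
        induction e, he using Nat.le_induction with
        | base => norm_num
        | succ e he ih =>
          rw [pow_succ, pow_succ]
          have h5 : (1 : ℝ) ≤ 2 ^ e := one_le_pow₀ (by norm_num)
          nlinarith
      have h4 := h3 _ h2
      have h5 : (1 : ℝ) ≤ 4 ^ cc p := one_le_pow₀ (by norm_num)
      have h6 : (5 / 6 : ℝ) ^ p.natDegree = 1 / (6 / 5) ^ p.natDegree := by
        rw [← one_div_pow]
        norm_num
      have h7 : (0 : ℝ) < (6 / 5) ^ p.natDegree := by positivity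
      calc 2 / (N - 1) ≤ 1 / (6 / 5) ^ p.natDegree := by
            rw [div_le_div_iff₀ hN1 h7]
            linarith
        _ = 1 * (5 / 6 : ℝ) ^ p.natDegree := by rw [h6, one_mul]
        _ ≤ _ := mul_le_mul_of_nonneg_right h5 (by positivity)

theorem PP_pow {p : R2} (hp : Prime p) {v : ℕ} (hv : 2 ≤ v) : PP (p ^ v) := by
  classical
  intro hq0 _ l hl
  have hp0 : p ≠ 0 := hp.ne_zero
  have hirr := hp.irreducible
  refine ⟨Unit, inferInstance, fun _ => p ^ v, fun _ => 1, fun _ => dvd_rfl, ?_, ?_, ?_⟩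
  · intro W
    rw [Fintype.sum_unique]
    by_cases hW : p ^ v ∣ W
    · rw [if_pos hW, (AdjoinRoot.mk_eq_zero (f := p ^ v) (g := W)).2 hW, kap_zero]
      ring
    · rw [if_neg hW, mul_zero]
      have h1 : ¬ p ^ v ∣ p ^ (v - 1) := by
        rw [pow_dvd_pow_iff hp0 hp.not_unit]
        omega
      obtain ⟨b, hb⟩ := exists_prim_ne hl h1
      refine kap_eq_zero l _ _ ?_ ?_ hb
      · refine ⟨2, ?_⟩
        rw [← map_pow, AdjoinRoot.mk_eq_zero, mul_pow, ← pow_mul]
        exact (pow_dvd_pow p (by omega)).mul_right _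
      · -- W divides modulo p^v
        have hW0 : W ≠ 0 := by
          rintro rfl
          exact hW (dvd_zero _)
        obtain ⟨k, W', hW', hWk⟩ := WfDvdMonoid.max_power_factor hW0 hirr
        have hk : k ≤ v - 1 := by
          by_contra hk
          apply hW
          rw [hWk]
          exact (pow_dvd_pow p (by omega)).mul_right _
        have hu : IsUnit (AdjoinRoot.mk (p ^ v) W') := by
          rw [isUnit_mk_iff]
          exact (((hirr.coprime_iff_not_dvd).2 hW').symm).pow_right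
        rw [hWk, map_mul]
        have h3 : AdjoinRoot.mk (p ^ v) (p ^ k) ∣ AdjoinRoot.mk (p ^ v) (p ^ (v - 1) * b) :=
          map_dvd _ ((pow_dvd_pow p hk).mul_right _)
        exact (hu.mul_right_dvd).2 h3
  · rw [Fintype.sum_unique]
    positivity
  · rw [Fintype.sum_unique, abs_one]
    have h5 : (1 : ℝ) ≤ 4 ^ cc (p ^ v) := one_le_pow₀ (by norm_num)
    calc (1 : ℝ) / 2 ^ (p ^ v).natDegree = 1 * (1 / 2) ^ (p ^ v).natDegree := by rw [one_div_pow, one_mul]
      _ ≤ 4 ^ cc (p ^ v) * (5 / 6 : ℝ) ^ (p ^ v).natDegree := by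
        apply mul_le_mul h5 _ (by positivity) (by positivity)
        exact pow_le_pow_left₀ (by norm_num) (by norm_num) _

theorem PP_all (q : R2) : PP q := by
  refine UniqueFactorizationMonoid.induction_on_coprime q ?_ ?_ ?_ ?_
  · intro h
    exact absurd rfl h
  · intro x hx
    exact PP_unit hx
  · intro p i hp
    rcases Nat.lt_or_ge i 2 with hi | hi
    · interval_cases i
      · rw [pow_zero]
        exact PP_unit isUnit_one
      · rw [pow_one]
        exact PP_prime hp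
    · exact PP_pow hp hi
  · intro x y hxy hx hy
    exact PP_mul hxy.isCoprime hx hy

/-- the number of the multiples of `g` among the polynomials of degree `d` -/
theorem card_mult {g : R2} (hg : g ≠ 0) (d : ℕ) [DecidablePred (fun W : R2 => g ∣ W)] :
    ((Mon (ZMod 2) d).filter (fun W => g ∣ W)).card = if g.natDegree ≤ d then 2 ^ (d - g.natDegree) else 0 := by
  classical
  split_ifs with h
  · rw [← card_Mon (d - g.natDegree)]
    symm
    refine card_bij (fun s _ => g * s) ?_ ?_ ?_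
    · intro s hs
      rw [mem_Mon] at hs
      rw [mem_filter, mem_Mon]
      refine ⟨⟨(monic_of_ne_zero hg).mul hs.1, ?_⟩, dvd_mul_right _ _⟩
      rw [natDegree_mul hg hs.1.ne_zero, hs.2]
      omega
    · intro s _ t _ hst
      simpa [hg] using hst
    · intro W hW
      rw [mem_filter, mem_Mon] at hW
      obtain ⟨⟨h1, h2⟩, s, rfl⟩ := hW
      have hs0 : s ≠ 0 := right_ne_zero_of_mul h1.ne_zero
      refine ⟨s, ?_, rfl⟩
      rw [mem_Mon]
      rw [natDegree_mul hg hs0] at h2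
      exact ⟨monic_of_ne_zero hs0, by omega⟩
  · rw [card_eq_zero, filter_eq_empty_iff]
    intro W hW hgW
    rw [mem_Mon] at hW
    have := natDegree_le_of_dvd hgW hW.1.ne_zero
    omega

theorem sum_kap_ge {q : R2} (hq : q ≠ 0) [Finite (AdjoinRoot q)] (l : AdjoinRoot q →+ ZMod 2) (hl : Prim l) (d : ℕ) :
    -(16 * 2 ^ d * (5 / 6 : ℝ) ^ d) ≤ ∑ W ∈ Mon (ZMod 2) d, kap l (AdjoinRoot.mk q W) := by
  classical
  obtain ⟨ι, F, g, a, hg, hk, hp, hb⟩ := PP_all q hq l hl
  have hne : ∀ i, g i ≠ 0 := fun i hi => hq (zero_dvd_iff.1 (hi ▸ hg i))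
  have h1 : ∑ W ∈ Mon (ZMod 2) d, kap l (AdjoinRoot.mk q W) =
      ∑ i, a i * (((Mon (ZMod 2) d).filter (fun W => g i ∣ W)).card : ℝ) := by
    rw [sum_congr rfl (fun W _ => hk W), sum_comm]
    apply sum_congr rfl
    intro i _
    rw [← mul_sum, sum_boole]
  rw [h1]
  rcases le_or_gt q.natDegree d with hqd | hqd
  · have h2 : ∑ i, a i * (((Mon (ZMod 2) d).filter (fun W => g i ∣ W)).card : ℝ) =
        2 ^ d * ∑ i, a i / 2 ^ (g i).natDegree := by
      rw [mul_sum]
      apply sum_congr rfl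
      intro i _
      have hgd : (g i).natDegree ≤ d := (natDegree_le_of_dvd (hg i) hq).trans hqd
      rw [card_mult (hne i), if_pos hgd]
      push_cast
      rw [pow_sub₀ _ (by norm_num) hgd]
      field_simp
    rw [h2]
    have h3 : 0 ≤ (2 : ℝ) ^ d * ∑ i, a i / 2 ^ (g i).natDegree := mul_nonneg (by positivity) hp
    have h4 : 0 ≤ 16 * 2 ^ d * (5 / 6 : ℝ) ^ d := by positivity
    linarith
  · have h2 : |∑ i, a i * (((Mon (ZMod 2) d).filter (fun W => g i ∣ W)).card : ℝ)| ≤
        2 ^ d * ∑ i, |a i| / 2 ^ (g i).natDegree := by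
      refine (abs_sum_le_sum_abs _ _).trans ?_
      rw [mul_sum]
      apply sum_le_sum
      intro i _
      rw [abs_mul, card_mult (hne i)]
      split_ifs with h
      · push_cast
        rw [pow_sub₀ _ (by norm_num) h, abs_of_nonneg (by positivity : (0 : ℝ) ≤ 2 ^ d * (2 ^ (g i).natDegree)⁻¹)]
        apply le_of_eq
        field_simp
      · rw [Nat.cast_zero, abs_zero, mul_zero]
        positivity
    have h3 : (2 : ℝ) ^ d * ∑ i, |a i| / 2 ^ (g i).natDegree ≤ 16 * 2 ^ d * (5 / 6 : ℝ) ^ d := by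
      have h4 : (4 : ℝ) ^ cc q ≤ 16 := by
        calc (4 : ℝ) ^ cc q ≤ 4 ^ 2 := pow_le_pow_right₀ (by norm_num) (cc_le q)
          _ = 16 := by norm_num
      have h5 : (5 / 6 : ℝ) ^ q.natDegree ≤ (5 / 6) ^ d := pow_le_pow_of_le_one (by norm_num) (by norm_num) hqd.le
      calc (2 : ℝ) ^ d * ∑ i, |a i| / 2 ^ (g i).natDegree ≤ 2 ^ d * (4 ^ cc q * (5 / 6 : ℝ) ^ q.natDegree) :=
            mul_le_mul_of_nonneg_left hb (by positivity)
        _ ≤ 2 ^ d * (16 * (5 / 6 : ℝ) ^ d) :=
            mul_le_mul_of_nonneg_left (mul_le_mul h4 h5 (by positivity) (by norm_num)) (by positivity)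
        _ = _ := by ring
    have h6 := neg_abs_le (∑ i, a i * (((Mon (ZMod 2) d).filter (fun W => g i ∣ W)).card : ℝ))
    linarith

end Pool.Agent.K7.H76.SI
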