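import Pool.Agent.H341R2.MonicSum

/-!
# Sums of a multiplicative function over the monic polynomials over a finite field

The logarithmic derivative identity (after `Pool.Agent.H341R2.MonicSum`, where it is proved for the
quadratic character of the resultant).
-/

set_option autoImplicit false

namespace Pool.Agent.K7.H76.SI

open Polynomial Finset Pool.Agent.H341R2.Sharp

section Count

variable {F : Type*} [Field F] [Fintype F] [DecidableEq F]

/-- a completely multiplicative function on the monic polynomials -/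
structure IsMult (g : F[X] → ℂ) : Prop where
  one : g 1 = 1
  mul : ∀ a b : F[X], a.Monic → b.Monic → g (a * b) = g a * g b

theorem IsMult.pow {g : F[X] → ℂ} (hg : IsMult g) (P : F[X]) (hP : P.Monic) (k : ℕ) :
    g (P ^ k) = g P ^ k := by
  induction k with
  | zero => simp [hg.one]
  | succ k ih => rw [pow_succ, hg.mul _ _ (hP.pow k) hP, ih, pow_succ]

/-- the sum over the monic polynomials of degree `n` -/
noncomputable def AA (g : F[X] → ℂ) (n : ℕ) : ℂ := ∑ h ∈ Mon F n, g h

theorem AA_zero {g : F[X] → ℂ} (hg : IsMult g) : AA g 0 = 1 := by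
  unfold AA
  rw [Mon_zero, sum_singleton, hg.one]

/-- the sum over irreducible polynomials of degree dividing `m` -/
noncomputable def TT (g : F[X] → ℂ) (m : ℕ) : ℂ :=
  ∑ P ∈ (Irr F m).filter (fun P => P.natDegree ∣ m), P.natDegree * g P ^ (m / P.natDegree)

open scoped Classical in
theorem sum_pow_dvd {g : F[X] → ℂ} (hg : IsMult g) (P : F[X]) (hP : P.Monic) (n k : ℕ) :
    ∑ h ∈ Mon F n, (if P ^ k ∣ h then g h else 0) =
      if k * P.natDegree ≤ n then g P ^ k * AA g (n - k * P.natDegree) else 0 := by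
  rw [← sum_filter]
  split_ifs with hkn
  · unfold AA
    rw [mul_sum]
    symm
    refine sum_bij' (fun g _ => P ^ k * g) (fun h _ => h /ₘ (P ^ k)) ?_ ?_ ?_ ?_ ?_
    · intro g hg
      rw [mem_Mon] at hg
      rw [mem_filter, mem_Mon]
      refine ⟨⟨(hP.pow k).mul hg.1, ?_⟩, dvd_mul_right _ _⟩
      rw [(hP.pow k).natDegree_mul hg.1, hP.natDegree_pow, hg.2]
      omega
    · intro h hh
      rw [mem_filter, mem_Mon] at hh
      obtain ⟨g, rfl⟩ := hh.2
      have hg : g.Monic := (hP.pow k).of_mul_monic_left hh.1.1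
      have h1 := hh.1.2
      rw [(hP.pow k).natDegree_mul hg, hP.natDegree_pow] at h1
      rw [mul_divByMonic_cancel_left _ (hP.pow k), mem_Mon]
      exact ⟨hg, by omega⟩
    · intro g hg
      exact mul_divByMonic_cancel_left _ (hP.pow k)
    · intro h hh
      rw [mem_filter] at hh
      obtain ⟨g, rfl⟩ := hh.2
      rw [mul_divByMonic_cancel_left _ (hP.pow k)]
    · intro h hh
      rw [mem_Mon] at hh
      rw [hg.mul _ _ (hP.pow k) hh.1, hg.pow _ hP]
  · apply sum_eq_zero
    intro h hh
    rw [mem_filter, mem_Mon] at hh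
    exfalso
    have := natDegree_le_of_dvd hh.2 hh.1.1.ne_zero
    rw [hP.natDegree_pow, hh.1.2] at this
    exact hkn this

theorem TT_eq (g : F[X] → ℂ) (n m : ℕ) (hm : 1 ≤ m) (hmn : m ≤ n) :
    TT g m = ∑ P ∈ Irr F n, ∑ k ∈ Icc 1 n,
      (if k * P.natDegree = m then (P.natDegree : ℂ) * g P ^ k else 0) := by
  have h1 : ∀ P ∈ Irr F n, ∑ k ∈ Icc 1 n,
      (if k * P.natDegree = m then (P.natDegree : ℂ) * g P ^ k else 0) =
      if P.natDegree ∣ m then (P.natDegree : ℂ) * g P ^ (m / P.natDegree) else 0 := by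
    intro P hP
    rw [mem_Irr] at hP
    have h3 : 1 ≤ P.natDegree := hP.2.1.natDegree_pos
    split_ifs with hdvd
    · obtain ⟨k, hk⟩ := hdvd
      have hkm : k * P.natDegree = m := by rw [hk]; ring
      have hk1 : 1 ≤ k := by
        rcases Nat.eq_zero_or_pos k with h0 | h0
        · rw [h0] at hkm; omega
        · exact h0
      have hkn : k ≤ n := by nlinarith
      rw [sum_eq_single k]
      · rw [if_pos hkm]
        have : m / P.natDegree = k := by
          rw [hk]
          exact Nat.mul_div_cancel_left _ (by omega)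
        rw [this]
      · intro j _ hj
        rw [if_neg]
        intro hjm
        exact hj (Nat.eq_of_mul_eq_mul_right (by omega) (hjm.trans hkm.symm))
      · intro hk'
        exact absurd (mem_Icc.2 ⟨hk1, hkn⟩) hk'
    · apply sum_eq_zero
      intro k _
      rw [if_neg]
      intro hk
      exact hdvd ⟨k, by rw [← hk]; ring⟩
  rw [sum_congr rfl h1, ← sum_filter]
  unfold TT
  apply sum_congr _ fun _ _ => rfl
  ext P
  rw [mem_filter, mem_filter, mem_Irr, mem_Irr]
  constructor
  · rintro ⟨⟨h1, h2, h3⟩, h4⟩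
    exact ⟨⟨h1, h2, by omega⟩, h4⟩
  · rintro ⟨⟨h1, h2, h3⟩, h4⟩
    exact ⟨⟨h1, h2, Nat.le_of_dvd (by omega) h4⟩, h4⟩

/-- the logarithmic derivative identity -/
theorem n_mul_AA {g : F[X] → ℂ} (hg : IsMult g) (n : ℕ) :
    (n : ℂ) * AA g n = ∑ m ∈ Icc 1 n, AA g (n - m) * TT g m := by
  classical
  have h1 : (n : ℂ) * AA g n = ∑ P ∈ Irr F n, ∑ k ∈ Icc 1 n, (P.natDegree : ℂ) *
      ∑ h ∈ Mon F n, (if P ^ k ∣ h then g h else 0) := by
    have h2 : (n : ℂ) * AA g n = ∑ h ∈ Mon F n, ∑ P ∈ Irr F n, ∑ k ∈ Icc 1 n,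
        (P.natDegree : ℂ) * (if P ^ k ∣ h then g h else 0) := by
      unfold AA
      rw [mul_sum]
      apply sum_congr rfl
      intro h hh
      have hc := congrArg (fun z : ℤ => (z : ℂ)) (count_dvd hh)
      simp only [Int.cast_sum, Int.cast_natCast, Int.cast_ite, Int.cast_zero] at hc
      rw [← hc, sum_mul]
      apply sum_congr rfl
      intro P _
      rw [sum_mul]
      apply sum_congr rfl
      intro k _
      split_ifs <;> simp
    rw [h2, sum_comm]
    apply sum_congr rfl
    intro P _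
    rw [sum_comm]
    apply sum_congr rfl
    intro k _
    rw [mul_sum]
  rw [h1]
  have h3 : ∀ P ∈ Irr F n, ∑ k ∈ Icc 1 n, (P.natDegree : ℂ) *
      ∑ h ∈ Mon F n, (if P ^ k ∣ h then g h else 0) =
      ∑ k ∈ Icc 1 n, ∑ m ∈ Icc 1 n, AA g (n - m) *
        (if k * P.natDegree = m then (P.natDegree : ℂ) * g P ^ k else 0) := by
    intro P hP
    rw [mem_Irr] at hP
    have hd : 1 ≤ P.natDegree := hP.2.1.natDegree_pos
    apply sum_congr rfl
    intro k hk
    rw [mem_Icc] at hk
    rw [sum_pow_dvd hg P hP.1]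
    split_ifs with hkn
    · rw [sum_eq_single (k * P.natDegree)]
      · rw [if_pos rfl]; ring
      · intro m _ hm
        rw [if_neg (Ne.symm hm), mul_zero]
      · intro hk'
        exact absurd (mem_Icc.2 ⟨Nat.mul_pos (by omega) hd, hkn⟩) hk'
    · rw [mul_zero]
      symm
      apply sum_eq_zero
      intro m hm
      rw [mem_Icc] at hm
      rw [if_neg (by omega), mul_zero]
  rw [sum_congr rfl h3]
  have h4 : ∑ m ∈ Icc 1 n, AA g (n - m) * TT g m = ∑ m ∈ Icc 1 n, ∑ P ∈ Irr F n, ∑ k ∈ Icc 1 n,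
      AA g (n - m) * (if k * P.natDegree = m then (P.natDegree : ℂ) * g P ^ k else 0) := by
    apply sum_congr rfl
    intro m hm
    rw [mem_Icc] at hm
    rw [TT_eq g n m hm.1 hm.2, mul_sum]
    apply sum_congr rfl
    intro P _
    rw [mul_sum]
  rw [h4]
  symm
  rw [sum_comm]
  apply sum_congr rfl
  intro P _
  rw [sum_comm]

end Count

end Pool.Agent.K7.H76.SI
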