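import Pool.Agent.H341R2.RootBound

/-!
# Power sums and the polynomials `∏ (1 - α X)`
-/

set_option autoImplicit false

namespace Pool.Agent.K7.H76.SI

open Polynomial Finset

theorem sum_Icc_one {M : Type*} [AddCommMonoid M] (f : ℕ → M) (n : ℕ) :
    ∑ m ∈ Icc 1 n, f m = ∑ i ∈ range n, f (i + 1) := by
  have h1 : Icc 1 n = Ico (0 + 1) (n + 1) := by
    ext x
    simp only [mem_Icc, mem_Ico]
    omega
  rw [h1, ← sum_Ico_add' f 0 n 1, range_eq_Ico]

theorem newton_step (a b S : ℕ → ℂ) (α : ℂ) (h0 : a 0 = b 0) (h1 : ∀ n, a (n + 1) = b (n + 1) - α * b n)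
    (hid : ∀ n : ℕ, (n : ℂ) * b n = ∑ m ∈ Icc 1 n, b (n - m) * S m) (n : ℕ) :
    (n : ℂ) * a n = ∑ m ∈ Icc 1 n, a (n - m) * (S m - α ^ m) := by
  rcases n with _ | N
  · simp
  rw [sum_Icc_one]
  have e1 : ∑ i ∈ range (N + 1), a (N + 1 - (i + 1)) * (S (i + 1) - α ^ (i + 1)) =
      (∑ i ∈ range (N + 1), b (N + 1 - (i + 1)) * S (i + 1)) -
      (∑ i ∈ range N, α * (b (N - (i + 1)) * S (i + 1))) -
      ((∑ i ∈ range (N + 1), b (N - i) * α ^ (i + 1)) - ∑ i ∈ range N, b (N - (i + 1)) * α ^ (i + 1 + 1)) := by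
    rw [sum_range_succ, sum_range_succ (fun i => b (N + 1 - (i + 1)) * S (i + 1)),
      sum_range_succ (fun i => b (N - i) * α ^ (i + 1))]
    have e2 : ∀ i ∈ range N, a (N + 1 - (i + 1)) * (S (i + 1) - α ^ (i + 1)) =
        b (N + 1 - (i + 1)) * S (i + 1) - α * (b (N - (i + 1)) * S (i + 1)) -
        (b (N - i) * α ^ (i + 1) - b (N - (i + 1)) * α ^ (i + 1 + 1)) := by
      intro i hi
      rw [mem_range] at hi
      obtain ⟨j, hj⟩ : ∃ j, N = i + 1 + j := ⟨N - (i + 1), by omega⟩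
      have e3 : N + 1 - (i + 1) = j + 1 := by omega
      have e4 : N - (i + 1) = j := by omega
      have e5 : N - i = j + 1 := by omega
      rw [e3, e4, e5, h1]
      ring
    rw [sum_congr rfl e2, sum_sub_distrib, sum_sub_distrib, sum_sub_distrib]
    simp only [Nat.sub_self, h0]
    ring
  rw [e1]
  have e6 : ∑ i ∈ range (N + 1), b (N + 1 - (i + 1)) * S (i + 1) = ((N + 1 : ℕ) : ℂ) * b (N + 1) := by
    rw [hid (N + 1), sum_Icc_one]
  have e7 : ∑ i ∈ range N, α * (b (N - (i + 1)) * S (i + 1)) = α * ((N : ℂ) * b N) := by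
    rw [← mul_sum, hid N, sum_Icc_one]
  have e8 : ∑ i ∈ range (N + 1), b (N - i) * α ^ (i + 1) =
      (∑ i ∈ range N, b (N - (i + 1)) * α ^ (i + 1 + 1)) + b N * α := by
    rw [sum_range_succ']
    simp
  rw [e6, e7, e8, h1]
  push_cast
  ring

/-- the polynomial `∏ (1 - α X)` -/
noncomputable def rp (s : Multiset ℂ) : ℂ[X] := (s.map fun α => 1 - C α * X).prod

/-- the power sums -/
noncomputable def ps (s : Multiset ℂ) (m : ℕ) : ℂ := (s.map fun α => α ^ m).sum

theorem ps_add (s t : Multiset ℂ) (m : ℕ) : ps (s + t) m = ps s m + ps t m := by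
  unfold ps
  rw [Multiset.map_add, Multiset.sum_add]

theorem ps_nsmul (n : ℕ) (s : Multiset ℂ) (m : ℕ) : ps (n • s) m = n * ps s m := by
  unfold ps
  rw [Multiset.map_nsmul, Multiset.sum_nsmul, nsmul_eq_mul]

theorem rp_newton (s : Multiset ℂ) (n : ℕ) :
    (n : ℂ) * (rp s).coeff n = ∑ m ∈ Icc 1 n, (rp s).coeff (n - m) * (- ps s m) := by
  revert n
  induction s using Multiset.induction_on with
  | empty =>
    intro n
    unfold rp ps
    simp only [Multiset.map_zero, Multiset.prod_zero, Multiset.sum_zero, neg_zero, mul_zero, sum_const_zero]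
    rcases n with _ | n
    · simp
    · rw [coeff_one]
      simp
  | cons α s ih =>
    intro n
    have h1 : rp (α ::ₘ s) = (1 - C α * X) * rp s := by
      unfold rp
      rw [Multiset.map_cons, Multiset.prod_cons]
    have h2 : ∀ m, - ps (α ::ₘ s) m = - ps s m - α ^ m := by
      intro m
      unfold ps
      rw [Multiset.map_cons, Multiset.sum_cons]
      ring
    simp_rw [h2]
    refine newton_step (fun n => (rp (α ::ₘ s)).coeff n) (fun n => (rp s).coeff n) (fun m => - ps s m) α ?_ ?_ ih n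
    · rw [h1, sub_mul, one_mul, coeff_sub, mul_assoc, coeff_C_mul, coeff_X_mul_zero]
      ring
    · intro m
      rw [h1, sub_mul, one_mul, coeff_sub, mul_assoc, coeff_C_mul, coeff_X_mul]

theorem rp_coeff_zero (s : Multiset ℂ) : (rp s).coeff 0 = 1 := by
  unfold rp
  rw [coeff_zero_multiset_prod, Multiset.map_map]
  apply Multiset.prod_eq_one
  intro x hx
  rw [Multiset.mem_map] at hx
  obtain ⟨α, _, rfl⟩ := hx
  simp

theorem newton_unique (a S T : ℕ → ℂ) (h0 : a 0 = 1)
    (hS : ∀ n : ℕ, (n : ℂ) * a n = ∑ m ∈ Icc 1 n, a (n - m) * S m)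
    (hT : ∀ n : ℕ, (n : ℂ) * a n = ∑ m ∈ Icc 1 n, a (n - m) * T m) (n : ℕ) (hn : 1 ≤ n) : S n = T n := by
  induction n using Nat.strong_induction_on with
  | _ n ih =>
    obtain ⟨N, rfl⟩ : ∃ N, n = N + 1 := ⟨n - 1, by omega⟩
    have h1 := (hS (N + 1)).symm.trans (hT (N + 1))
    rw [sum_Icc_one, sum_Icc_one, sum_range_succ, sum_range_succ, Nat.sub_self, h0, one_mul, one_mul] at h1
    have h2 : ∑ i ∈ range N, a (N + 1 - (i + 1)) * S (i + 1) = ∑ i ∈ range N, a (N + 1 - (i + 1)) * T (i + 1) := by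
      apply sum_congr rfl
      intro i hi
      rw [mem_range] at hi
      rw [ih (i + 1) (by omega) (by omega)]
    rw [h2] at h1
    exact add_left_cancel h1

theorem exists_rp (a : ℂ[X]) (h0 : a.coeff 0 = 1) : ∃ s : Multiset ℂ, a = rp s ∧ s.card ≤ a.natDegree := by
  have ha : a ≠ 0 := by
    rintro rfl
    simp at h0
  refine ⟨a.roots.map (fun z => z⁻¹), ?_, ?_⟩
  · have h1 : a = C a.leadingCoeff * (a.roots.map fun z => X - C z).prod :=
      (IsAlgClosed.splits a).eq_prod_roots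
    have hz : ∀ z ∈ a.roots, z ≠ 0 := by
      rintro z hz rfl
      rw [mem_roots ha, IsRoot.def, ← coeff_zero_eq_eval_zero, h0] at hz
      exact one_ne_zero hz
    have h2 : (a.roots.map fun z => (X - C z : ℂ[X])) =
        a.roots.map fun z => C (-z) * (1 - C z⁻¹ * X) := by
      apply Multiset.map_congr rfl
      intro z hz'
      have := hz z hz'
      rw [mul_sub, mul_one, ← mul_assoc, ← C_mul, neg_mul, mul_inv_cancel₀ this]
      simp only [C_neg, C_1]
      ring
    have h3 : a = C (a.leadingCoeff * (a.roots.map fun z => -z).prod) * rp (a.roots.map (fun z => z⁻¹)) := by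
      have h4 : (a.roots.map fun z => (X - C z : ℂ[X])).prod =
          C (a.roots.map fun z => -z).prod * rp (a.roots.map (fun z => z⁻¹)) := by
        rw [h2, Multiset.prod_map_mul]
        congr 1
        · rw [← Multiset.prod_hom, Multiset.map_map]
          rfl
        · unfold rp
          rw [Multiset.map_map]
          rfl
      rw [C_mul, mul_assoc, ← h4]
      exact h1
    have h5 : a.leadingCoeff * (a.roots.map fun z => -z).prod = 1 := by
      have := congrArg (fun p => coeff p 0) h3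
      simp only [coeff_C_mul, rp_coeff_zero, mul_one, h0] at this
      exact this.symm
    rw [h5, C_1, one_mul] at h3
    exact h3
  · rw [Multiset.card_map]
    exact card_roots' a

theorem ps_bound_imp (s : Multiset ℂ) (ρ C : ℝ) (n0 : ℕ) (hρ : 0 < ρ)
    (h : ∀ n, n0 ≤ n → ‖ps s n‖ ≤ C * ρ ^ n) : ∀ β ∈ s, ‖β‖ ≤ ρ := by
  intro β hβ
  by_cases hβ0 : β = 0
  · rw [hβ0, norm_zero]
    exact hρ.le
  set C' : ℝ := |C| + ∑ m ∈ range n0, ‖ps s m‖ / ρ ^ m with hC'
  have hC'0 : 0 ≤ C' := by positivity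
  have hS : ∀ m, 1 ≤ m → ‖- ps s m‖ ≤ C' * ρ ^ m := by
    intro m _
    rw [norm_neg]
    have hm : 0 < ρ ^ m := by positivity
    rcases lt_or_ge m n0 with h1 | h1
    · have h2 : ‖ps s m‖ / ρ ^ m ≤ ∑ m ∈ range n0, ‖ps s m‖ / ρ ^ m :=
        single_le_sum (f := fun m => ‖ps s m‖ / ρ ^ m) (fun _ _ => by positivity) (mem_range.2 h1)
      have h3 : ‖ps s m‖ / ρ ^ m ≤ C' := h2.trans (by rw [hC']; linarith [abs_nonneg C])
      rwa [div_le_iff₀ hm] at h3
    · refine (h m h1).trans ?_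
      apply mul_le_mul_of_nonneg_right _ hm.le
      rw [hC']
      have : 0 ≤ ∑ m ∈ range n0, ‖ps s m‖ / ρ ^ m := sum_nonneg fun _ _ => by positivity
      linarith [le_abs_self C]
  have hroot : (rp s).eval β⁻¹ = 0 := by
    unfold rp
    rw [eval_multiset_prod, Multiset.map_map]
    apply Multiset.prod_eq_zero
    rw [Multiset.mem_map]
    refine ⟨β, hβ, ?_⟩
    simp [hβ0]
  have h1 := Pool.Agent.H341R2.Sharp.root_norm (rp s) (rp_coeff_zero s) (fun m => - ps s m) ρ C' hρ hC'0 hS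
    (rp_newton s) β⁻¹ hroot
  rw [norm_inv] at h1
  have h2 : 0 < ‖β‖ := norm_pos_iff.2 hβ0
  rwa [← div_eq_mul_inv, le_div_iff₀ h2, one_mul] at h1

theorem norm_ps_le (s : Multiset ℂ) (ρ : ℝ) (h : ∀ β ∈ s, ‖β‖ ≤ ρ) (m : ℕ) : ‖ps s m‖ ≤ s.card * ρ ^ m := by
  unfold ps
  refine (Multiset.le_sum_of_subadditive norm norm_zero.le (fun x y => norm_add_le x y) _).trans ?_
  rw [Multiset.map_map]
  have h3 : ((s.map fun z => ‖z ^ m‖)).sum ≤ (s.map fun _ => ρ ^ m).sum := by
    apply Multiset.sum_map_le_sum_map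
    intro z hz
    rw [norm_pow]
    exact pow_le_pow_left₀ (norm_nonneg _) (h z hz) m
  refine h3.trans ?_
  rw [Multiset.map_const', Multiset.sum_replicate, nsmul_eq_mul]

end Pool.Agent.K7.H76.SI
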