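import Pool.Agent.K7.H76.SI.XSum
import Pool.Agent.K7.H76.SI.PS

/-!
# The Riemann hypothesis for the `L`-functions of the ray class characters of `F₂(t)`

The characters are those of the residue class modulo `M` and of the first `κ + 1` coefficients.
-/

set_option autoImplicit false
set_option linter.style.haveILetI false

namespace Pool.Agent.K7.H76.SI

open Polynomial Finset Pool.Agent.H341R2.Sharp

section Chars

variable {B : Type} [CommRing B] [Finite B]

theorem sum_char_one [Fintype (MulChar B ℂ)] : ∑ χ : MulChar B ℂ, χ (1 : B) = (Nat.card Bˣ : ℂ) := by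
  have h1 : ∀ χ : MulChar B ℂ, χ (1 : B) = 1 := fun χ => by rw [map_one]
  rw [sum_congr rfl (fun χ _ => h1 χ), sum_const, nsmul_eq_mul, mul_one, card_univ, ← Nat.card_eq_fintype_card,
    MulChar.card_eq_card_units_of_hasEnoughRootsOfUnity B ℂ]

theorem sum_char_ne [Fintype (MulChar B ℂ)] {a : B} (h : a ≠ 1) : ∑ χ : MulChar B ℂ, χ a = 0 := by
  obtain ⟨χ0, hχ0⟩ := MulChar.exists_apply_ne_one_of_hasEnoughRootsOfUnity B ℂ h
  have h1 : ∑ χ : MulChar B ℂ, χ a = ∑ χ : MulChar B ℂ, (χ0 * χ) a :=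
    (Fintype.sum_equiv (Equiv.mulLeft χ0) _ _ (fun χ => rfl)).symm
  have h2 : ∑ χ : MulChar B ℂ, (χ0 * χ) a = χ0 a * ∑ χ : MulChar B ℂ, χ a := by
    rw [mul_sum]
    exact sum_congr rfl fun χ _ => MulChar.mul_apply χ0 χ a
  rw [h2] at h1
  have h3 : (χ0 a - 1) * ∑ χ : MulChar B ℂ, χ a = 0 := by linear_combination -h1
  rcases mul_eq_zero.1 h3 with h4 | h4
  · exact absurd (sub_eq_zero.1 h4) hχ0
  · exact h4

end Chars

section

variable (M : R2) (κ : ℕ)

/-- the character as a function of polynomials -/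
noncomputable def gχ (χ : MulChar (BB M κ) ℂ) (f : R2) : ℂ := χ (cl M κ f)

theorem gχ_mult (χ : MulChar (BB M κ) ℂ) : IsMult (gχ M κ χ) where
  one := by
    unfold gχ
    rw [cl_one, map_one]
  mul a b _ _ := by
    unfold gχ
    rw [cl_mul, map_mul]

variable {M} {κ}

theorem AA_eq_zero (hM : M ≠ 0) {χ : MulChar (BB M κ) ℂ} (hχ : χ ≠ 1) {n : ℕ} (hn : M.natDegree + κ ≤ n) :
    AA (gχ M κ χ) n = 0 := by
  haveI := finite_BB hM κ
  haveI : Fintype (BB M κ) := Fintype.ofFinite _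
  unfold AA gχ
  rw [sum_cl hM hn (fun b => χ b) (fun b hb => χ.map_nonunit hb), MulChar.sum_eq_zero_of_ne_one hχ, mul_zero]

/-- the reciprocal roots of the `L`-function -/
theorem exists_roots (hM : M ≠ 0) {χ : MulChar (BB M κ) ℂ} (hχ : χ ≠ 1) :
    ∃ s : Multiset ℂ, s.card ≤ M.natDegree + κ ∧ ∀ m, 1 ≤ m → TT (gχ M κ χ) m = - ps s m := by
  set N := M.natDegree + κ with hN
  set L : ℂ[X] := ∑ n ∈ range N, C (AA (gχ M κ χ) n) * X ^ n with hL
  have hcoeff : ∀ n, L.coeff n = AA (gχ M κ χ) n := by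
    intro n
    rw [hL, finsetSum_coeff]
    simp_rw [coeff_C_mul_X_pow]
    rw [sum_ite_eq (range N) n (fun n => AA (gχ M κ χ) n)]
    split_ifs with h
    · rfl
    · rw [mem_range] at h
      rw [AA_eq_zero hM hχ (by omega)]
  have h0 : L.coeff 0 = 1 := by rw [hcoeff, AA_zero (gχ_mult M κ χ)]
  obtain ⟨s, hs, hsc⟩ := exists_rp L h0
  have hdeg : L.natDegree ≤ N := by
    rw [natDegree_le_iff_coeff_eq_zero]
    intro n hn
    rw [hcoeff, AA_eq_zero hM hχ (by omega)]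
  refine ⟨s, hsc.trans hdeg, ?_⟩
  apply newton_unique (fun n => L.coeff n) (TT (gχ M κ χ)) (fun m => - ps s m) h0
  · intro n
    simp_rw [hcoeff]
    exact n_mul_AA (gχ_mult M κ χ) n
  · intro n
    rw [hs]
    exact rp_newton s n

end

section

variable {k : Type} [Field k] [Algebra (ZMod 2) k] [CharP k 2] [IsAlgClosed k] [Algebra.IsAlgebraic (ZMod 2) k]

open scoped Classical in
theorem sum_TT {M : R2} (hM : M ≠ 0) (κ : ℕ) [Fintype (MulChar (BB M κ) ℂ)] {m : ℕ} (hm : 1 ≤ m)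
    (A : Finset k) (hA : ∀ x, x ∈ A ↔ Fx m x) :
    ∑ χ : MulChar (BB M κ) ℂ, TT (gχ M κ χ) m = Nat.card (BB M κ)ˣ * NN k M κ m := by
  haveI := finite_BB hM κ
  have h1 : ∀ χ : MulChar (BB M κ) ℂ, TT (gχ M κ χ) m = ∑ x ∈ A, χ (cl M κ (pol m x)) := by
    intro χ
    rw [TT_eq_sum (gχ_mult M κ χ) hm A hA]
    rfl
  rw [sum_congr rfl (fun χ _ => h1 χ), sum_comm]
  have h2 : ∀ x ∈ A, ∑ χ : MulChar (BB M κ) ℂ, χ (cl M κ (pol m x)) =
      if cl M κ (pol m x) = 1 then (Nat.card (BB M κ)ˣ : ℂ) else 0 := by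
    intro x _
    split_ifs with h
    · rw [h]
      exact sum_char_one
    · exact sum_char_ne h
  rw [sum_congr rfl h2, ← sum_filter, sum_const, nsmul_eq_mul, mul_comm]
  congr 2
  unfold NN
  rw [← Set.ncard_coe_finset]
  congr 1
  ext x
  rw [mem_coe, mem_filter, hA]
  constructor
  · rintro ⟨h3, h4⟩
    exact ⟨h3, (class_iff h3 M κ).2 h4⟩
  · rintro ⟨h3, h4⟩
    exact ⟨h3, (class_iff h3 M κ).1 h4⟩

theorem isCoprime_pol_iff {M : R2} {m : ℕ} (hm : 1 ≤ m) {x : k} (hx : Fx m x) :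
    IsCoprime (pol m x) M ↔ (im k M).eval x ≠ 0 := by
  have hint : IsIntegral (ZMod 2) x := Algebra.IsIntegral.isIntegral x
  have hirr := minpoly.irreducible hint
  obtain ⟨-, a, ha⟩ := pol_spec hx
  have hpos : 0 < (minpoly (ZMod 2) x).natDegree := minpoly.natDegree_pos hint
  have ha0 : 0 < m / (minpoly (ZMod 2) x).natDegree := by
    rw [ha, Nat.mul_div_cancel_left _ hpos]
    rcases Nat.eq_zero_or_pos a with h | h
    · rw [h] at ha; omega
    · exact h
  unfold pol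
  rw [IsCoprime.pow_left_iff ha0, hirr.coprime_iff_not_dvd, minpoly.dvd_iff, eval_map]
  rfl

/-- the sum for the principal character -/
theorem TT_one {M : R2} (hM : M ≠ 0) (κ : ℕ) {m : ℕ} (hm : 1 ≤ m) (A : Finset k) (hA : ∀ x, x ∈ A ↔ Fx m x)
    (hAc : A.card = 2 ^ m) : ∃ e : ℕ, e ≤ M.natDegree ∧ TT (gχ M κ 1) m = 2 ^ m - e := by
  classical
  rw [TT_eq_sum (gχ_mult M κ 1) hm A hA]
  have h1 : ∀ x ∈ A, gχ M κ 1 (pol m x) = 1 - if (im k M).eval x = 0 then 1 else 0 := by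
    intro x hx
    rw [hA] at hx
    unfold gχ
    by_cases h : (im k M).eval x = 0
    · rw [if_pos h, MulChar.map_nonunit, sub_self]
      rw [isUnit_cl_iff (pol_monic m x).ne_zero, isCoprime_pol_iff hm hx]
      exact fun h' => h' h
    · rw [if_neg h, MulChar.one_apply, sub_zero]
      rw [isUnit_cl_iff (pol_monic m x).ne_zero, isCoprime_pol_iff hm hx]
      exact h
  rw [sum_congr rfl h1, sum_sub_distrib, sum_const, hAc, sum_boole]
  refine ⟨(A.filter (fun x => (im k M).eval x = 0)).card, ?_, ?_⟩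
  · have h2 : A.filter (fun x => (im k M).eval x = 0) ⊆ (im k M).roots.toFinset := by
      intro x hx
      rw [Multiset.mem_toFinset, mem_roots ((monic_of_ne_zero hM).map _).ne_zero]
      exact (mem_filter.1 hx).2
    refine (card_le_card h2).trans ((Multiset.toFinset_card_le _).trans ((card_roots' _).trans ?_))
    exact natDegree_map_le
  · simp

theorem roots_bound {E : Type} [Field E] [Algebra k[X] E] [Algebra (RatFunc k) E]
    [IsScalarTower k[X] (RatFunc k) E] [Algebra.IsSeparable (RatFunc k) E] [IsSepClosed E] [Algebra (ZMod 2) E]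
    [CharP E 2] {M : R2} (hM : M ≠ 0) (κ : ℕ) {χ : MulChar (BB M κ) ℂ} (hχ : χ ≠ 1) {m : ℕ} (hm : 1 ≤ m) :
    ‖TT (gχ M κ χ) m‖ ≤ (M.natDegree + κ : ℕ) * (√2) ^ m := by
  classical
  haveI := finite_BB hM κ
  haveI : Fintype (MulChar (BB M κ) ℂ) := Fintype.ofFinite _
  have hs : ∀ ψ : MulChar (BB M κ) ℂ, ∃ s : Multiset ℂ, ψ ≠ 1 → (s.card ≤ M.natDegree + κ ∧
      ∀ m, 1 ≤ m → TT (gχ M κ ψ) m = - ps s m) := by
    intro ψ
    by_cases h : ψ = 1
    · exact ⟨0, fun h' => absurd h h'⟩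
    · obtain ⟨s, h1, h2⟩ := exists_roots hM h
      exact ⟨s, fun _ => ⟨h1, h2⟩⟩
  choose s hs using hs
  obtain ⟨r, D1, C1, n0, hr, hD1, hD1G, hcount⟩ := countT (k := k) (E := E) M hM κ
  set G := Nat.card (BB M κ)ˣ with hG
  set st : Multiset ℂ := ∑ ψ ∈ univ.erase (1 : MulChar (BB M κ) ℂ), s ψ with hst
  have hps : ∀ n, ps st n = ∑ ψ ∈ univ.erase (1 : MulChar (BB M κ) ℂ), ps (s ψ) n := by
    intro n
    rw [hst]
    induction (univ.erase (1 : MulChar (BB M κ) ℂ)) using Finset.induction_on with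
    | empty => simp [ps]
    | insert a t ha ih => rw [sum_insert ha, sum_insert ha, ps_add, ih]
  set β : Multiset ℂ := D1 • (st.map fun α => α ^ r) + (G - D1) • ({(2 : ℂ) ^ r} : Multiset ℂ) with hβ
  have hpsβ : ∀ n, ps β n = D1 * ps st (r * n) + (G - D1) * 2 ^ (r * n) := by
    intro n
    rw [hβ, ps_add, ps_nsmul, ps_nsmul, Nat.cast_sub hD1G]
    congr 2
    · unfold ps
      rw [Multiset.map_map]
      congr 1
      apply Multiset.map_congr rfl
      intro α _
      rw [Function.comp, ← pow_mul]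
    · unfold ps
      rw [Multiset.map_singleton, Multiset.sum_singleton, ← pow_mul]
  have hρ : 0 < (√2) ^ r := by positivity
  have hmain : ∀ n, max n0 1 ≤ n → ‖ps β n‖ ≤ (G * C1 + D1 * M.natDegree) * ((√2) ^ r) ^ n := by
    intro n hn
    have hn0 : n0 ≤ n := (le_max_left _ _).trans hn
    have hn1 : 1 ≤ n := (le_max_right _ _).trans hn
    have hrn : 1 ≤ r * n := Nat.mul_pos hr hn1
    obtain ⟨A, hAc, hA⟩ := Pool.Agent.R410.PW.exists_fixed (k := k) 2 (r * n) (by omega)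
    have h1 := sum_TT (k := k) hM κ hrn A hA
    rw [← add_sum_erase univ _ (mem_univ (1 : MulChar (BB M κ) ℂ))] at h1
    obtain ⟨e, he, hT1⟩ := TT_one (k := k) hM κ hrn A hA hAc
    have h2 : ∑ ψ ∈ univ.erase (1 : MulChar (BB M κ) ℂ), TT (gχ M κ ψ) (r * n) = - ps st (r * n) := by
      rw [hps, ← sum_neg_distrib]
      apply sum_congr rfl
      intro ψ hψ
      exact (hs ψ (ne_of_mem_erase hψ)).2 _ hrn
    rw [h2, hT1] at h1
    have h3 : ps β n = -(G * ((D1 : ℂ) * NN k M κ (r * n) - 2 ^ (r * n))) - D1 * e := by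
      rw [hpsβ]
      linear_combination (-(D1 : ℂ)) * h1
    have h4 := hcount n hn0
    have h5 : ‖(D1 : ℂ) * NN k M κ (r * n) - 2 ^ (r * n)‖ ≤ C1 * (√2) ^ (r * n) := by
      have h6 : (D1 : ℂ) * NN k M κ (r * n) - 2 ^ (r * n) =
          (((D1 : ℝ) * NN k M κ (r * n) - 2 ^ (r * n) : ℝ) : ℂ) := by
        push_cast
        rfl
      rw [h6, Complex.norm_real]
      exact h4
    rw [h3]
    refine (norm_sub_le _ _).trans ?_
    rw [norm_neg, norm_mul, norm_mul, Complex.norm_natCast, Complex.norm_natCast, Complex.norm_natCast, ← pow_mul]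
    have h7 : (1 : ℝ) ≤ (√2) ^ (r * n) := one_le_pow₀ (by rw [Real.one_le_sqrt]; norm_num)
    have h8 : (e : ℝ) ≤ M.natDegree := by exact_mod_cast he
    have h9 : (G : ℝ) * ‖(D1 : ℂ) * NN k M κ (r * n) - 2 ^ (r * n)‖ ≤ G * (C1 * (√2) ^ (r * n)) :=
      mul_le_mul_of_nonneg_left h5 (by positivity)
    have h10 : (D1 : ℝ) * e ≤ D1 * M.natDegree * (√2) ^ (r * n) := by
      calc (D1 : ℝ) * e ≤ D1 * M.natDegree := mul_le_mul_of_nonneg_left h8 (by positivity)
        _ ≤ D1 * M.natDegree * (√2) ^ (r * n) := le_mul_of_one_le_right (by positivity) h7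
    linarith
  have hall := ps_bound_imp β _ _ _ hρ hmain
  have hst2 : ∀ α ∈ st, ‖α‖ ≤ √2 := by
    intro α hα
    have h1 : α ^ r ∈ β := by
      rw [hβ, Multiset.mem_add]
      left
      rw [Multiset.mem_nsmul_of_ne_zero (by omega), Multiset.mem_map]
      exact ⟨α, hα, rfl⟩
    have h2 := hall _ h1
    rw [norm_pow] at h2
    exact le_of_pow_le_pow_left₀ (by omega) (by positivity) h2
  obtain ⟨hc, hT⟩ := hs χ hχ
  rw [hT m hm, norm_neg]
  have h3 : ∀ α ∈ s χ, ‖α‖ ≤ √2 := by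
    intro α hα
    apply hst2
    have h4 : s χ ≤ st := by
      rw [hst]
      exact single_le_sum (f := s) (fun _ _ => Multiset.zero_le _) (mem_erase.2 ⟨hχ, mem_univ _⟩)
    exact Multiset.mem_of_le h4 hα
  refine (norm_ps_le (s χ) (√2) h3 m).trans ?_
  exact mul_le_mul_of_nonneg_right (by exact_mod_cast hc) (by positivity)

end

/-- **The Riemann hypothesis** for the `L`-functions of the ray class characters of `F₂(t)` -/
theorem RH {M : R2} (hM : M ≠ 0) (κ : ℕ) {χ : MulChar (BB M κ) ℂ} (hχ : χ ≠ 1) {m : ℕ} (hm : 1 ≤ m) :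
    ‖TT (gχ M κ χ) m‖ ≤ (M.natDegree + κ : ℕ) * (√2) ^ m := by
  exact roots_bound (k := AlgebraicClosure (ZMod 2)) (E := SeparableClosure (RatFunc (AlgebraicClosure (ZMod 2))))
    hM κ hχ hm

end Pool.Agent.K7.H76.SI
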