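import Pool.Agent.K7.H76.SI.Loc2

/-!
# Sums over residue classes and the main term
-/

set_option autoImplicit false

namespace Pool.Agent.K7.H76.SI

open Polynomial Finset Pool.Agent.H341R2.Sharp

theorem card_fiber_Low {M : R2} (hM : M ≠ 0) {N : ℕ} (hN : M.natDegree ≤ N) (x : AdjoinRoot M)
    [DecidableEq (AdjoinRoot M)] :
    ((Low N).filter (fun f => AdjoinRoot.mk M f = x)).card = 2 ^ (N - M.natDegree) := by
  classical
  obtain ⟨f0, rfl⟩ := AdjoinRoot.mk_surjective x
  have hMm := monic_of_ne_zero hM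
  set r := f0 %ₘ M with hr
  have hrd : r.degree < (M.natDegree : WithBot ℕ) := by
    rw [← degree_eq_natDegree hM]
    exact degree_modByMonic_lt _ hMm
  have hrm : M ∣ f0 - r := ⟨f0 /ₘ M, by linear_combination -(modByMonic_add_div f0 M)⟩
  have h1 : (Low N).filter (fun f => AdjoinRoot.mk M f = AdjoinRoot.mk M f0) =
      (Low (N - M.natDegree)).image (fun s => r + M * s) := by
    ext f
    rw [mem_filter, mem_image, mem_Low, AdjoinRoot.mk_eq_mk]
    constructor
    · rintro ⟨hf, hfd⟩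
      have h2 : M ∣ f - r := by
        have := dvd_add hfd hrm
        rwa [sub_add_sub_cancel] at this
      obtain ⟨s, hs⟩ := h2
      refine ⟨s, ?_, by rw [← hs]; ring⟩
      rw [mem_Low]
      by_cases hs0 : s = 0
      · rw [hs0, degree_zero]
        exact WithBot.bot_lt_coe _
      · have h3 : (M * s).degree < (N : WithBot ℕ) := by
          rw [← hs]
          refine (degree_sub_le _ _).trans_lt (max_lt hf (hrd.trans_le ?_))
          exact_mod_cast hN
        rw [degree_mul, degree_eq_natDegree hM, degree_eq_natDegree hs0] at h3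
        rw [degree_eq_natDegree hs0]
        have h4 : M.natDegree + s.natDegree < N := by exact_mod_cast h3
        exact_mod_cast (by omega : s.natDegree < N - M.natDegree)
    · rintro ⟨s, hs, rfl⟩
      rw [mem_Low] at hs
      constructor
      · refine (degree_add_le _ _).trans_lt (max_lt (hrd.trans_le (by exact_mod_cast hN)) ?_)
        by_cases hs0 : s = 0
        · rw [hs0, mul_zero, degree_zero]
          exact WithBot.bot_lt_coe _
        · rw [degree_eq_natDegree hs0] at hs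
          have hs' : s.natDegree < N - M.natDegree := by exact_mod_cast hs
          rw [degree_mul, degree_eq_natDegree hM, degree_eq_natDegree hs0]
          exact_mod_cast (by omega : M.natDegree + s.natDegree < N)
      · have h5 : r + M * s - f0 = M * s - (f0 - r) := by ring
        rw [h5]
        exact dvd_sub (dvd_mul_right _ _) hrm
  rw [h1, card_image_of_injective, card_Low]
  intro s t hst
  simpa [hM] using hst

theorem sum_Low_mod {M : R2} (hM : M ≠ 0) {N : ℕ} (hN : M.natDegree ≤ N) [Fintype (AdjoinRoot M)]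
    (F : AdjoinRoot M → ℝ) : ∑ f ∈ Low N, F (AdjoinRoot.mk M f) = 2 ^ (N - M.natDegree) * ∑ x, F x := by
  classical
  have h1 : ∑ f ∈ Low N, F (AdjoinRoot.mk M f) =
      ∑ x, ∑ f ∈ (Low N).filter (fun f => AdjoinRoot.mk M f = x), F (AdjoinRoot.mk M f) :=
    (sum_fiberwise_of_maps_to (fun _ _ => mem_univ _) _).symm
  rw [h1, mul_sum]
  apply sum_congr rfl
  intro x _
  have h2 : ∀ f ∈ (Low N).filter (fun f => AdjoinRoot.mk M f = x), F (AdjoinRoot.mk M f) = F x := by
    intro f hf
    rw [(mem_filter.1 hf).2]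
  rw [sum_congr rfl h2, sum_const, card_fiber_Low hM hN, nsmul_eq_mul]
  push_cast
  rfl

theorem sum_Mon_mod {M : R2} (hM : M ≠ 0) {N : ℕ} (hN : M.natDegree ≤ N) [Fintype (AdjoinRoot M)]
    (F : AdjoinRoot M → ℝ) : ∑ f ∈ Mon (ZMod 2) N, F (AdjoinRoot.mk M f) = 2 ^ (N - M.natDegree) * ∑ x, F x := by
  classical
  rw [Mon_eq, sum_image (fun a _ b _ h => add_right_injective _ h)]
  have h1 : ∀ h : R2, F (AdjoinRoot.mk M (X ^ N + h)) =
      (fun x => F (AdjoinRoot.mk M (X ^ N) + x)) (AdjoinRoot.mk M h) := by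
    intro h
    rw [map_add]
  rw [sum_congr rfl (fun h _ => h1 h), sum_Low_mod hM hN (fun x => F (AdjoinRoot.mk M (X ^ N) + x))]
  congr 1
  exact Equiv.sum_comp (Equiv.addLeft (AdjoinRoot.mk M (X ^ N))) F

/-- lifting of units -/
theorem exists_coprime_shift (q : R2) : q ≠ 0 → ∀ {c W : R2}, IsCoprime c W → ∃ t : R2, IsCoprime (c + W * t) q := by
  refine UniqueFactorizationMonoid.induction_on_coprime q ?_ ?_ ?_ ?_
  · intro h
    exact absurd rfl h
  · rintro x ⟨u, rfl⟩ _ c W _
    exact ⟨0, 0, ((u⁻¹ : R2ˣ) : R2), by simp⟩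
  · intro p i hp _ c W hcW
    by_cases hc : p ∣ c
    · refine ⟨1, ?_⟩
      apply IsCoprime.pow_right
      rw [mul_one]
      apply IsCoprime.symm
      rw [hp.irreducible.coprime_iff_not_dvd]
      intro hd
      have hW : p ∣ W := by
        have := dvd_sub hd hc
        rwa [add_sub_cancel_left] at this
      exact hp.not_unit (hcW.isUnit_of_dvd' hc hW)
    · refine ⟨0, ?_⟩
      apply IsCoprime.pow_right
      rw [mul_zero, add_zero]
      exact ((hp.irreducible.coprime_iff_not_dvd).2 hc).symm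
  · intro x y hxy hx hy hxy0 c W hcW
    have hc := hxy.isCoprime
    obtain ⟨t1, ht1⟩ := hx (left_ne_zero_of_mul hxy0) hcW
    obtain ⟨t2, ht2⟩ := hy (right_ne_zero_of_mul hxy0) hcW
    obtain ⟨u, v, huv⟩ := hc
    refine ⟨t1 * (v * y) + t2 * (u * x), ?_⟩
    apply IsCoprime.mul_right
    · have h1 : c + W * (t1 * (v * y) + t2 * (u * x)) = (c + W * t1) + (W * u * (t2 - t1)) * x := by
        linear_combination (W * t1) * huv
      rw [h1]
      exact ht1.add_mul_right_left _
    · have h1 : c + W * (t1 * (v * y) + t2 * (u * x)) = (c + W * t2) + (W * v * (t1 - t2)) * y := by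
        linear_combination (W * t2) * huv
      rw [h1]
      exact ht2.add_mul_right_left _

/-- uniform fibres of a multiplicative map on a set of units closed under the group operations -/
theorem sum_fib {A B : Type} [CommRing A] [CommRing B] [DecidableEq B] (π : A →+* B) (S : Finset A)
    (hinv : ∀ x ∈ S, ∃ y ∈ S, x * y = 1) (hmul : ∀ x ∈ S, ∀ y ∈ S, x * y ∈ S)
    (F : B → ℝ) :
    (∑ x ∈ S, F (π x)) * (S.image π).card = S.card * ∑ v ∈ S.image π, F v := by
  set c : ℕ := (S.filter (fun x => π x = 1)).card with hc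
  have h1 : ∀ v ∈ S.image π, (S.filter (fun x => π x = v)).card = c := by
    intro v hv
    obtain ⟨x0, hx0, rfl⟩ := mem_image.1 hv
    obtain ⟨y0, hy0, hxy⟩ := hinv x0 hx0
    symm
    refine card_bij' (fun x _ => x * x0) (fun x _ => x * y0) ?_ ?_ ?_ ?_
    · intro x hx
      rw [mem_filter] at hx ⊢
      refine ⟨hmul _ hx.1 _ hx0, ?_⟩
      rw [map_mul, hx.2, one_mul]
    · intro x hx
      rw [mem_filter] at hx ⊢
      refine ⟨hmul _ hx.1 _ hy0, ?_⟩
      rw [map_mul, hx.2, ← map_mul, hxy, map_one]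
    · intro x _
      rw [mul_assoc, hxy, mul_one]
    · intro x _
      rw [mul_assoc, mul_comm y0, hxy, mul_one]
  have h2 : ∀ G : B → ℝ, ∑ x ∈ S, G (π x) = c * ∑ v ∈ S.image π, G v := by
    intro G
    have h3 : ∑ x ∈ S, G (π x) = ∑ v ∈ S.image π, ∑ x ∈ S.filter (fun x => π x = v), G (π x) :=
      (sum_fiberwise_of_maps_to (fun x hx => mem_image_of_mem _ hx) _).symm
    rw [h3, mul_sum]
    apply sum_congr rfl
    intro v hv
    have h4 : ∀ x ∈ S.filter (fun x => π x = v), G (π x) = G v := by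
      intro x hx
      rw [(mem_filter.1 hx).2]
    rw [sum_congr rfl h4, sum_const, h1 v hv, nsmul_eq_mul]
  have h3 : (S.card : ℝ) = c * (S.image π).card := by
    have := h2 (fun _ => 1)
    simpa using this
  rw [h2 F, h3]
  ring

/-- the number of the reduced residue classes -/
noncomputable def phi (M : R2) : ℕ := Nat.card (AdjoinRoot M)ˣ

theorem phi_pos {M : R2} (hM : M ≠ 0) : 0 < phi M := by
  haveI := finite_adjoinRoot hM
  exact Nat.card_pos

/-- the units as a finite set -/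
noncomputable def Us (M : R2) [Fintype (AdjoinRoot M)] : Finset (AdjoinRoot M) := by
  classical
  exact univ.filter IsUnit

theorem mem_Us {M : R2} [Fintype (AdjoinRoot M)] {x : AdjoinRoot M} : x ∈ Us M ↔ IsUnit x := by
  simp [Us]

theorem card_Us (M : R2) [Fintype (AdjoinRoot M)] : (Us M).card = phi M := by
  classical
  unfold phi
  rw [Nat.card_eq_fintype_card, ← card_univ]
  symm
  refine card_bij (fun (u : (AdjoinRoot M)ˣ) _ => (u : AdjoinRoot M)) ?_ ?_ ?_
  · intro u _
    rw [mem_Us]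
    exact u.isUnit
  · intro u _ v _ h
    exact Units.ext h
  · intro x hx
    rw [mem_Us] at hx
    exact ⟨hx.unit, mem_univ _, rfl⟩

/-- the units congruent to one modulo `W` -/
noncomputable def KW {W M : R2} (h : W ∣ M) [Fintype (AdjoinRoot M)] : Finset (AdjoinRoot M) := by
  classical
  exact univ.filter (fun x => IsUnit x ∧ dn h x = 1)

theorem mem_KW {W M : R2} (h : W ∣ M) [Fintype (AdjoinRoot M)] {x : AdjoinRoot M} :
    x ∈ KW h ↔ IsUnit x ∧ dn h x = 1 := by
  simp [KW]

theorem KW_inv {W M : R2} (h : W ∣ M) [Fintype (AdjoinRoot M)] : ∀ x ∈ KW h, ∃ y ∈ KW h, x * y = 1 := by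
  intro x hx
  rw [mem_KW] at hx
  obtain ⟨y, hy⟩ := hx.1.exists_right_inv
  refine ⟨y, ?_, hy⟩
  rw [mem_KW]
  refine ⟨IsUnit.of_mul_eq_one x (by rw [mul_comm, hy]), ?_⟩
  have h1 := congrArg (dn h) hy
  rwa [map_mul, map_one, hx.2, one_mul] at h1

theorem KW_mul {W M : R2} (h : W ∣ M) [Fintype (AdjoinRoot M)] : ∀ x ∈ KW h, ∀ y ∈ KW h, x * y ∈ KW h := by
  intro x hx y hy
  rw [mem_KW] at hx hy ⊢
  refine ⟨hx.1.mul hy.1, ?_⟩
  rw [map_mul, hx.2, hy.2, one_mul]

theorem card_KW {W M : R2} (h : W ∣ M) (hM : M ≠ 0) [Fintype (AdjoinRoot M)] :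
    (KW h).card * phi W = phi M := by
  classical
  have hW : W ≠ 0 := fun h0 => hM (zero_dvd_iff.1 (h0 ▸ h))
  haveI := finite_adjoinRoot hW
  haveI := Fintype.ofFinite (AdjoinRoot W)
  have h1 := sum_fib (dn h) (Us M) (fun x hx => by
    rw [mem_Us] at hx
    obtain ⟨y, hy⟩ := hx.exists_right_inv
    exact ⟨y, mem_Us.2 (IsUnit.of_mul_eq_one x (by rw [mul_comm, hy])), hy⟩)
    (fun x hx y hy => mem_Us.2 ((mem_Us.1 hx).mul (mem_Us.1 hy))) (fun v => if v = 1 then 1 else 0)
  have h2 : (Us M).image (dn h) = Us W := by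
    ext w
    rw [mem_image, mem_Us]
    constructor
    · rintro ⟨x, hx, rfl⟩
      exact (mem_Us.1 hx).map _
    · intro hw
      obtain ⟨c, rfl⟩ := AdjoinRoot.mk_surjective w
      rw [isUnit_mk_iff] at hw
      obtain ⟨t, ht⟩ := exists_coprime_shift M hM hw
      refine ⟨AdjoinRoot.mk M (c + W * t), ?_, ?_⟩
      · rw [mem_Us, isUnit_mk_iff]
        exact ht
      · rw [dn_mk, AdjoinRoot.mk_eq_mk]
        exact ⟨t, by ring⟩
  rw [h2, card_Us, card_Us, sum_ite_eq' (Us W) (1 : AdjoinRoot W), if_pos (mem_Us.2 isUnit_one), mul_one,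
    ← sum_filter, sum_const, nsmul_eq_mul, mul_one] at h1
  have h3 : (Us M).filter (fun x => dn h x = 1) = KW h := by
    ext x
    rw [mem_filter, mem_Us, mem_KW]
  rw [h3] at h1
  exact_mod_cast h1

/-- the key identity for the main term -/
theorem sum_KW (W q : R2) (hM : W * q ≠ 0) [Fintype (AdjoinRoot (W * q))] [Finite (AdjoinRoot q)]
    (l : AdjoinRoot q →+ ZMod 2) :
    (phi W : ℝ) * ∑ x ∈ KW (dvd_mul_right W q), sg (l (dn (dvd_mul_left q W) x - 1)) =
      phi (W * q) * kap l (AdjoinRoot.mk q W) := by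
  classical
  have hWu : ((phi W : ℕ) : ℝ) ≠ 0 := by
    exact_mod_cast (phi_pos (left_ne_zero_of_mul hM)).ne'
  have h1 := sum_fib (dn (dvd_mul_left q W)) (KW (dvd_mul_right W q)) (KW_inv _) (KW_mul _)
    (fun v => sg (l (v - 1)))
  have h2 : (KW (dvd_mul_right W q)).image (dn (dvd_mul_left q W)) = Vs (AdjoinRoot q) (AdjoinRoot.mk q W) := by
    ext v
    rw [mem_image, mem_Vs]
    constructor
    · rintro ⟨x, hx, rfl⟩
      rw [mem_KW] at hx
      refine ⟨hx.1.map _, ?_⟩
      obtain ⟨c, rfl⟩ := AdjoinRoot.mk_surjective x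
      have hc := hx.2
      rw [dn_mk, ← map_one (AdjoinRoot.mk W), AdjoinRoot.mk_eq_mk] at hc
      rw [dn_mk, ← map_one (AdjoinRoot.mk q), ← map_sub]
      exact map_dvd _ hc
    · rintro ⟨hv, t, ht⟩
      obtain ⟨t, rfl⟩ := AdjoinRoot.mk_surjective t
      have hv' : v = AdjoinRoot.mk q (1 + W * t) := by
        rw [map_add, map_mul, map_one, ← ht]
        ring
      refine ⟨AdjoinRoot.mk (W * q) (1 + W * t), ?_, by rw [dn_mk, hv']⟩
      rw [mem_KW]
      constructor
      · rw [isUnit_mk_iff]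
        apply IsCoprime.mul_right
        · exact ⟨1, -t, by ring⟩
        · rw [← isUnit_mk_iff, ← hv']
          exact hv
      · rw [dn_mk, ← map_one (AdjoinRoot.mk W), AdjoinRoot.mk_eq_mk]
        exact ⟨t, by ring⟩
  rw [h2] at h1
  have h3 := card_KW (dvd_mul_right W q) hM
  have h4 : (0 : ℝ) < (Vs (AdjoinRoot q) (AdjoinRoot.mk q W)).card := by exact_mod_cast card_Vs_pos _
  have h5 : ((KW (dvd_mul_right W q)).card : ℝ) * phi W = phi (W * q) := by exact_mod_cast h3
  unfold kap
  rw [← h5]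
  field_simp
  linear_combination h1

/-- the main term -/
noncomputable def MT (lam : R2 →+ ZMod 2) (W q : R2) (N : ℕ) : ℝ := by
  classical
  exact 2 ^ (W * q).natDegree / phi (W * q) *
    ∑ f ∈ Low N, if IsCoprime f (W * q) ∧ W ∣ f - 1 then sg (lam (f - 1)) else 0

theorem MT_caseA {lam : R2 →+ ZMod 2} {W q : R2} {N : ℕ} (hM : W * q ≠ 0) (hN : (W * q).natDegree ≤ N) (hN1 : 1 ≤ N)
    [Finite (AdjoinRoot q)] (l : AdjoinRoot q →+ ZMod 2)
    (hl : ∀ f ∈ Low N, lam f = l (AdjoinRoot.mk q f)) :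
    phi W * MT lam W q N = 2 ^ N * kap l (AdjoinRoot.mk q W) := by
  classical
  haveI := finite_adjoinRoot hM
  haveI := Fintype.ofFinite (AdjoinRoot (W * q))
  have h1 : ∑ f ∈ Low N, (if IsCoprime f (W * q) ∧ W ∣ f - 1 then sg (lam (f - 1)) else 0) =
      ∑ f ∈ Low N, (fun x => if x ∈ KW (dvd_mul_right W q) then sg (l (dn (dvd_mul_left q W) x - 1)) else 0)
        (AdjoinRoot.mk (W * q) f) := by
    apply sum_congr rfl
    intro f hf
    have h2 : (AdjoinRoot.mk (W * q) f ∈ KW (dvd_mul_right W q)) ↔ (IsCoprime f (W * q) ∧ W ∣ f - 1) := by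
      rw [mem_KW, isUnit_mk_iff, dn_mk, ← map_one (AdjoinRoot.mk W), AdjoinRoot.mk_eq_mk]
    simp only [h2]
    split_ifs with h3
    · rw [hl, dn_mk, map_sub, map_one]
      rw [mem_Low] at hf ⊢
      refine (degree_sub_le _ _).trans_lt (max_lt hf ?_)
      rw [degree_one]
      exact_mod_cast (by omega : 0 < N)
    · rfl
  unfold MT
  rw [h1, sum_Low_mod hM hN (fun x => if x ∈ KW (dvd_mul_right W q) then sg (l (dn (dvd_mul_left q W) x - 1)) else 0),
    ← sum_filter]
  have h3 : (univ.filter fun x => x ∈ KW (dvd_mul_right W q)) = KW (dvd_mul_right W q) := by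
    ext x
    simp
  rw [h3]
  have h4 := sum_KW W q hM l
  have h5 : (phi (W * q) : ℝ) ≠ 0 := by exact_mod_cast (phi_pos hM).ne'
  have h6 : (2 : ℝ) ^ N = 2 ^ (W * q).natDegree * 2 ^ (N - (W * q).natDegree) := by
    rw [← pow_add]
    congr 1
    omega
  rw [h6]
  field_simp
  linear_combination h4

theorem MT_caseB {lam : R2 →+ ZMod 2} {W q : R2} {N : ℕ} (h0 : R2) (hd : W * q ∣ h0) (hh0 : h0 ∈ Low N)
    (hl : lam h0 = 1) : MT lam W q N = 0 := by
  classical
  unfold MT
  have h1 : ∑ f ∈ Low N, (if IsCoprime f (W * q) ∧ W ∣ f - 1 then sg (lam (f - 1)) else 0) =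
      - ∑ f ∈ Low N, (if IsCoprime f (W * q) ∧ W ∣ f - 1 then sg (lam (f - 1)) else 0) := by
    rw [← sum_neg_distrib]
    obtain ⟨t, ht⟩ := hd
    refine sum_bij' (fun f _ => f + h0) (fun f _ => f - h0) ?_ ?_ ?_ ?_ ?_
    · intro f hf
      rw [mem_Low] at hf hh0 ⊢
      exact (degree_add_le _ _).trans_lt (max_lt hf hh0)
    · intro f hf
      rw [mem_Low] at hf hh0 ⊢
      exact (degree_sub_le _ _).trans_lt (max_lt hf hh0)
    · intro f _
      ring
    · intro f _
      ring
    · intro f _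
      have h2 : IsCoprime (f + h0) (W * q) ↔ IsCoprime f (W * q) := by
        rw [ht]
        exact IsCoprime.add_mul_left_left_iff
      have h3 : W ∣ f + h0 - 1 ↔ W ∣ f - 1 := by
        have h4 : f + h0 - 1 = (f - 1) + W * (q * t) := by
          rw [ht]
          ring
        rw [h4]
        exact dvd_add_left (dvd_mul_right _ _)
      simp only [h2, h3]
      split_ifs with h5
      · rw [show f + h0 - 1 = (f - 1) + h0 by ring, map_add, sg_add, hl, sg_one]
        ring
      · simp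
  have h2 : ∑ f ∈ Low N, (if IsCoprime f (W * q) ∧ W ∣ f - 1 then sg (lam (f - 1)) else 0) = 0 := by linarith
  rw [h2, mul_zero]

end Pool.Agent.K7.H76.SI
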