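import Pool.Agent.K7.H76.SI.Sys

/-!
# Solutions over the algebraic closure of the field with two elements
-/

set_option autoImplicit false
set_option linter.style.haveILetI false

namespace Pool.Agent.K7.H76.SI

open Polynomial Finset

section

variable {k : Type*} [Field k] [Algebra (ZMod 2) k] [CharP k 2]

/-- the product of the `τ (x ^ (2 ^ i))`, `i < m` -/
noncomputable def QQ (τ : k → k[X]) (m : ℕ) (x : k) : k[X] := ∏ i ∈ range m, τ (x ^ 2 ^ i)

theorem coeff_sq_iter (v : k[X]) (m i : ℕ) : (sq^[m] v).coeff i = v.coeff i ^ 2 ^ m := by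
  induction m with
  | zero => simp
  | succ m ih => rw [Function.iterate_succ_apply', coeff_sq, ih, ← pow_mul, pow_succ]

theorem iter_dvd {τ : k → k[X]} (hτ : ∀ x, sq (τ x) = τ (x ^ 2)) {M : R2} {v : k[X]} {x : k}
    (h : im k M ∣ sq v - τ x * v) (m : ℕ) : im k M ∣ sq^[m] v - QQ τ m x * v := by
  induction m with
  | zero =>
    unfold QQ
    simp
  | succ m ih =>
    rw [Function.iterate_succ_apply']
    have h1 : sq (QQ τ m x) * τ x = QQ τ (m + 1) x := by
      unfold QQ
      rw [sq_prod, prod_range_succ']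
      have h2 : ∀ i ∈ range m, sq (τ (x ^ 2 ^ i)) = τ (x ^ 2 ^ (i + 1)) := by
        intro i _
        rw [hτ, ← pow_mul, pow_succ]
      rw [prod_congr rfl h2, pow_zero, pow_one]
    have h3 : sq (sq^[m] v) - QQ τ (m + 1) x * v =
        sq (sq^[m] v - QQ τ m x * v) + sq (QQ τ m x) * (sq v - τ x * v) := by
      rw [sq_sub, sq_mul, ← h1]
      ring
    rw [h3]
    refine dvd_add ?_ (h.mul_left _)
    have := sq_dvd ih
    rwa [sq_im] at this

theorem dvd_of_rational {τ : k → k[X]} (hτ : ∀ x, sq (τ x) = τ (x ^ 2)) {M : R2} {v : k[X]} {x : k}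
    (h : im k M ∣ sq v - τ x * v) (hv : IsCoprime v (im k M)) {m : ℕ} (hr : ∀ i, v.coeff i ^ 2 ^ m = v.coeff i) :
    im k M ∣ QQ τ m x - 1 := by
  have h1 : sq^[m] v = v := by
    ext i
    rw [coeff_sq_iter, hr]
  have h2 := iter_dvd hτ h m
  rw [h1] at h2
  have h3 : im k M ∣ v * (QQ τ m x - 1) := by
    rw [← dvd_neg]
    have h4 : -(v * (QQ τ m x - 1)) = v - QQ τ m x * v := by ring
    rwa [h4]
  exact hv.symm.dvd_of_dvd_mul_left h3

theorem sq_iter_degree_lt {n : ℕ} {v : k[X]} (hv : v.degree < n) (m : ℕ) : (sq^[m] v).degree < n := by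
  rw [degree_lt_iff_coeff_zero] at hv ⊢
  intro j hj
  rw [coeff_sq_iter, hv j hj, zero_pow (Nat.two_pow_pos m).ne']

theorem eq_of_dvd_sub {M : R2} (hM : M ≠ 0) {v w : k[X]} (hv : v.degree < M.natDegree)
    (hw : w.degree < M.natDegree) (h : im k M ∣ v - w) : v = w := by
  have hMm := monic_of_ne_zero hM
  have h1 : (v - w).degree < (im k M).degree := by
    rw [degree_eq_natDegree (hMm.map _).ne_zero, hMm.natDegree_map]
    exact (degree_sub_le _ _).trans_lt (max_lt hv hw)
  exact sub_eq_zero.1 (eq_zero_of_dvd_of_degree_lt h h1)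

theorem rational_of_dvd {τ : k → k[X]} (hτ : ∀ x, sq (τ x) = τ (x ^ 2)) {M : R2} (hM : M ≠ 0) {v : k[X]} {x : k}
    (h : im k M ∣ sq v - τ x * v) (hd : v.degree < M.natDegree) {m : ℕ} (hQ : im k M ∣ QQ τ m x - 1) :
    sq^[m] v = v := by
  refine eq_of_dvd_sub hM (sq_iter_degree_lt hd m) hd ?_
  have h1 : sq^[m] v - v = (sq^[m] v - QQ τ m x * v) + (QQ τ m x - 1) * v := by ring
  rw [h1]
  exact dvd_add (iter_dvd hτ h m) (hQ.mul_right _)

theorem sq_iter_mul (v w : k[X]) (m : ℕ) : sq^[m] (v * w) = sq^[m] v * sq^[m] w := by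
  induction m with
  | zero => rfl
  | succ m ih => rw [Function.iterate_succ_apply', ih, sq_mul, Function.iterate_succ_apply',
      Function.iterate_succ_apply']

theorem sq_iter_sub (v w : k[X]) (m : ℕ) : sq^[m] (v - w) = sq^[m] v - sq^[m] w := by
  induction m with
  | zero => rfl
  | succ m ih => rw [Function.iterate_succ_apply', ih, sq_sub, Function.iterate_succ_apply',
      Function.iterate_succ_apply']

theorem sq_iter_one (m : ℕ) : sq^[m] (1 : k[X]) = 1 := by
  induction m with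
  | zero => rfl
  | succ m ih => rw [Function.iterate_succ_apply', ih, sq_one]

theorem sq_iter_im (M : R2) (m : ℕ) : sq^[m] (im k M) = im k M := by
  induction m with
  | zero => rfl
  | succ m ih => rw [Function.iterate_succ_apply', ih, sq_im]

theorem sq_iter_dvd {v w : k[X]} (h : v ∣ w) (m : ℕ) : sq^[m] v ∣ sq^[m] w := by
  obtain ⟨c, rfl⟩ := h
  rw [sq_iter_mul]
  exact dvd_mul_right _ _

theorem isCoprime_of_inv {M : R2} {v v' : k[X]} (h : im k M ∣ v * v' - 1) : IsCoprime v (im k M) := by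
  obtain ⟨c, hc⟩ := h
  exact ⟨v', -c, by linear_combination hc⟩

/-- inverses are unique -/
theorem inv_unique {M : R2} (hM : M ≠ 0) {v v' v'' : k[X]} (h1 : im k M ∣ v * v' - 1) (h2 : im k M ∣ v * v'' - 1)
    (hd1 : v'.degree < M.natDegree) (hd2 : v''.degree < M.natDegree) : v' = v'' := by
  refine eq_of_dvd_sub hM hd1 hd2 ?_
  have h4 : im k M ∣ v * (v' - v'') := by
    have h3 : v * (v' - v'') = (v * v' - 1) - (v * v'' - 1) := by ring
    rw [h3]
    exact dvd_sub h1 h2
  exact (isCoprime_of_inv h1).symm.dvd_of_dvd_mul_left h4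

theorem rational_inv {M : R2} (hM : M ≠ 0) {v v' : k[X]} (h1 : im k M ∣ v * v' - 1)
    (hd : v'.degree < M.natDegree) {m : ℕ} (hr : sq^[m] v = v) : sq^[m] v' = v' := by
  refine inv_unique hM (v := v) ?_ h1 (sq_iter_degree_lt hd m) hd
  have h2 := sq_iter_dvd h1 m
  rwa [sq_iter_im, sq_iter_sub, sq_iter_mul, sq_iter_one, hr] at h2

/-- two solutions differ by a polynomial over the field with two elements -/
theorem exists_ratio {M : R2} (hM : M ≠ 0) {τ v1 v1' v2 : k[X]} (h1 : im k M ∣ sq v1 - τ * v1)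
    (h1' : im k M ∣ v1 * v1' - 1) (h2 : im k M ∣ sq v2 - τ * v2) : ∃ b : R2, im k M ∣ v2 - im k b * v1 := by
  have hMm := monic_of_ne_zero hM
  have hMm' : (im k M).Monic := hMm.map _
  have hMd : (im k M).natDegree = M.natDegree := hMm.natDegree_map _
  obtain ⟨a, ha⟩ := h1
  obtain ⟨b, hb⟩ := h1'
  obtain ⟨c, hc⟩ := h2
  set b0 := (v2 * v1') %ₘ (im k M) with hb0
  have hb0' := modByMonic_add_div (v2 * v1') (im k M)
  set d := (v2 * v1') /ₘ (im k M) with hd
  have hb0d : b0.degree < M.natDegree := by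
    have := degree_modByMonic_lt (v2 * v1') hMm'
    rwa [degree_eq_natDegree hMm'.ne_zero, hMd] at this
  have hsq1 := congrArg sq (show v1 * v1' = 1 + im k M * b by linear_combination hb)
  rw [sq_mul, sq_add, sq_one, sq_mul, sq_im] at hsq1
  have hsq2 := congrArg sq (show b0 = v2 * v1' - im k M * d by linear_combination hb0')
  rw [sq_sub, sq_mul, sq_mul, sq_im] at hsq2
  have key : im k M ∣ sq b0 - b0 := by
    refine ⟨c * sq v1' - sq d + d + v2 * (v1' * sq b - v1' * a * sq v1' - τ * sq v1' * b), ?_⟩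
    have e1 : b0 = v2 * v1' - im k M * d := by linear_combination hb0'
    rw [hsq2]
    have e2 : τ * sq v1' - v1' = im k M * (v1' * sq b - v1' * a * sq v1' - τ * sq v1' * b) := by
      linear_combination (-(τ * sq v1')) * hb + v1' * hsq1 - (v1' * sq v1') * ha
    rw [e1]
    linear_combination (sq v1') * hc + v2 * e2
  have h3 : sq b0 = b0 := eq_of_dvd_sub hM (sq_iter_degree_lt hb0d 1) hb0d key
  obtain ⟨q, hq⟩ := exists_im_of_sq_eq h3
  refine ⟨q, ?_⟩
  rw [hq]
  refine ⟨d * v1 - v2 * b, ?_⟩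
  have e1 : b0 = v2 * v1' - im k M * d := by linear_combination hb0'
  rw [e1]
  linear_combination (-v2) * hb

theorem isCoprime_ratio {M : R2} {v1 v2 : k[X]} {b : R2} (hv2 : IsCoprime v2 (im k M))
    (h : im k M ∣ v2 - im k b * v1) : IsCoprime b M := by
  rw [← Polynomial.isCoprime_map (algebraMap (ZMod 2) k)]
  change IsCoprime (im k b) (im k M)
  obtain ⟨c, hc⟩ := h
  have h1 : im k b * v1 = v2 + im k M * (-c) := by linear_combination -hc
  have h2 : IsCoprime (im k b * v1) (im k M) := by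
    rw [h1]
    exact IsCoprime.add_mul_left_left hv2 _
  exact h2.of_mul_left_left

end

end Pool.Agent.K7.H76.SI
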