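import Pool.Agent.K7.H76.SI.Cls

/-!
# Unit solutions of `v ^ (2) = (X - x) v` modulo `M`

Here `v ^ (2)` is obtained from the polynomial `v` by squaring the coefficients.
-/

set_option autoImplicit false
set_option linter.style.haveILetI false

namespace Pool.Agent.K7.H76.SI

open Polynomial Finset

section Sq

variable {S T : Type*} [CommRing S] [CommRing T]

/-- squaring the coefficients -/
noncomputable def sq (v : S[X]) : S[X] := ∑ i ∈ v.support, monomial i (v.coeff i ^ 2)

@[simp] theorem coeff_sq (v : S[X]) (i : ℕ) : (sq v).coeff i = v.coeff i ^ 2 := by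
  unfold sq
  rw [finsetSum_coeff]
  simp_rw [coeff_monomial]
  rw [sum_ite_eq' v.support i (fun i => v.coeff i ^ 2)]
  split_ifs with h
  · rfl
  · rw [notMem_support_iff.1 h]
    simp

theorem map_sq (e : S →+* T) (v : S[X]) : (sq v).map e = sq (v.map e) := by
  ext i
  simp

theorem sq_eq_map [CharP S 2] (v : S[X]) : sq v = v.map (frobenius S 2) := by
  ext i
  rw [coeff_sq, coeff_map, frobenius_def]

theorem sq_mul [CharP S 2] (v w : S[X]) : sq (v * w) = sq v * sq w := by
  simp only [sq_eq_map, Polynomial.map_mul]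

theorem sq_add [CharP S 2] (v w : S[X]) : sq (v + w) = sq v + sq w := by
  simp only [sq_eq_map, Polynomial.map_add]

theorem sq_sub [CharP S 2] (v w : S[X]) : sq (v - w) = sq v - sq w := by
  simp only [sq_eq_map, Polynomial.map_sub]

theorem sq_one [CharP S 2] : sq (1 : S[X]) = 1 := by
  simp only [sq_eq_map, Polynomial.map_one]

theorem sq_prod [CharP S 2] {ι : Type*} (s : Finset ι) (f : ι → S[X]) :
    sq (∏ i ∈ s, f i) = ∏ i ∈ s, sq (f i) := by
  simp only [sq_eq_map, Polynomial.map_prod]

theorem sq_dvd [CharP S 2] {v w : S[X]} (h : v ∣ w) : sq v ∣ sq w := by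
  obtain ⟨c, rfl⟩ := h
  rw [sq_mul]
  exact dvd_mul_right _ _

end Sq

section Alg

variable {S : Type*} [CommRing S] [Algebra (ZMod 2) S]

/-- the image of a polynomial over the field with two elements -/
noncomputable abbrev im (S : Type*) [CommRing S] [Algebra (ZMod 2) S] (M : R2) : S[X] :=
  M.map (algebraMap (ZMod 2) S)

theorem sq_im (M : R2) : sq (im S M) = im S M := by
  ext i
  rw [coeff_sq, coeff_map, ← map_pow]
  congr 1
  rcases zmod2_cases (M.coeff i) with h | h <;> rw [h] <;> decide

end Alg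

section Fld

variable {E : Type*} [Field E] [Algebra (ZMod 2) E] [CharP E 2]

theorem exists_im_of_sq_eq {g : E[X]} (h : sq g = g) : ∃ q : R2, im E q = g := by
  have h1 : g ∈ Polynomial.lifts (algebraMap (ZMod 2) E) := by
    rw [Polynomial.lifts_iff_coeff_lifts]
    intro i
    have h2 := congrArg (fun p => coeff p i) h
    simp only [coeff_sq] at h2
    have h3 : g.coeff i * (g.coeff i - 1) = 0 := by linear_combination h2
    rcases mul_eq_zero.1 h3 with h4 | h4
    · exact ⟨0, by rw [h4, map_zero]⟩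
    · exact ⟨1, by rw [map_one, sub_eq_zero.1 h4]⟩
  rw [Polynomial.mem_lifts] at h1
  exact h1

/-- `v` is a unit solution of `v ^ (2) = τ v` modulo `M` -/
def Sol (τ : E[X]) (M : R2) (v : E[X]) : Prop := im E M ∣ sq v - τ * v ∧ IsCoprime v (im E M)

theorem im_mul (M N : R2) : im E (M * N) = im E M * im E N := Polynomial.map_mul _

theorem isCoprime_im {M N : R2} (h : IsCoprime M N) : IsCoprime (im E M) (im E N) :=
  h.map (mapRingHom (algebraMap (ZMod 2) E))

theorem exists_sol (τ : E[X]) (M : R2) (hM : M ≠ 0)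
    (H1 : ∀ π : R2, Irreducible π → π ∣ M → ∀ c : E[X], ∃ z : E[X], im E π ∣ sq z - τ * z - c)
    (H2 : ∀ π : R2, Irreducible π → π ∣ M → ∃ z : E[X], Sol τ π z) : ∃ v : E[X], Sol τ M v := by
  revert hM H1 H2
  refine WfDvdMonoid.induction_on_irreducible (motive := fun M : R2 => M ≠ 0 →
    (∀ π : R2, Irreducible π → π ∣ M → ∀ c : E[X], ∃ z : E[X], im E π ∣ sq z - τ * z - c) →
    (∀ π : R2, Irreducible π → π ∣ M → ∃ z : E[X], Sol τ π z) → ∃ v : E[X], Sol τ M v) M ?_ ?_ ?_
  · intro h
    exact absurd rfl h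
  · intro u hu _ _ _
    have h1 : IsUnit (im E u) := hu.map (mapRingHom (algebraMap (ZMod 2) E))
    exact ⟨1, h1.dvd, isCoprime_one_left⟩
  · intro a p ha hp ih _ H1 H2
    obtain ⟨v', hv1, hv2⟩ := ih ha (fun π h1 h2 => H1 π h1 (h2.mul_left p)) (fun π h1 h2 => H2 π h1 (h2.mul_left p))
    by_cases hpa : p ∣ a
    · obtain ⟨c, hc⟩ := hv1
      obtain ⟨z, hz⟩ := H1 p hp (dvd_mul_right _ _) (-c)
      refine ⟨v' + im E a * z, ?_, ?_⟩
      · have h1 : sq (v' + im E a * z) - τ * (v' + im E a * z) = im E a * (sq z - τ * z - -c) := by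
          rw [sq_add, sq_mul, sq_im]
          linear_combination hc
        rw [h1, im_mul, mul_comm]
        exact mul_dvd_mul_left _ hz
      · rw [im_mul]
        have h1 : IsCoprime (v' + im E a * z) (im E a) := by
          rw [mul_comm]
          exact IsCoprime.add_mul_right_left hv2 z
        refine IsCoprime.mul_right ?_ h1
        exact h1.of_isCoprime_of_dvd_right (Polynomial.map_dvd _ hpa)
    · have hcop : IsCoprime p a := (hp.coprime_iff_not_dvd).2 hpa
      obtain ⟨z, hz1, hz2⟩ := H2 p hp (dvd_mul_right _ _)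
      obtain ⟨r, s, hrs⟩ := isCoprime_im (E := E) hcop
      -- `v ≡ v'` modulo `a`, `v ≡ z` modulo `p`
      set v : E[X] := v' * (r * im E p) + z * (s * im E a) with hv
      have e1 : v = v' + im E a * ((z - v') * s) := by
        rw [hv]
        linear_combination v' * hrs
      have e2 : v = z + im E p * ((v' - z) * r) := by
        rw [hv]
        linear_combination z * hrs
      refine ⟨v, ?_, ?_⟩
      · rw [im_mul]
        refine (isCoprime_im hcop).mul_dvd ?_ ?_
        · have h1 : sq v - τ * v = (sq z - τ * z) + im E p * (sq ((v' - z) * r) - τ * ((v' - z) * r)) := by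
            rw [e2, sq_add, sq_mul, sq_im]
            ring
          rw [h1]
          exact dvd_add hz1 (dvd_mul_right _ _)
        · have h1 : sq v - τ * v = (sq v' - τ * v') + im E a * (sq ((z - v') * s) - τ * ((z - v') * s)) := by
            rw [e1, sq_add, sq_mul, sq_im]
            ring
          rw [h1]
          exact dvd_add hv1 (dvd_mul_right _ _)
      · rw [im_mul]
        refine IsCoprime.mul_right ?_ ?_
        · rw [e2, mul_comm (im E p)]
          exact IsCoprime.add_mul_right_left hz2 _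
        · rw [e1, mul_comm (im E a)]
          exact IsCoprime.add_mul_right_left hv2 _

end Fld

section Sep

variable {E : Type*} [Field E] [Algebra (ZMod 2) E] [CharP E 2] (x : E)

/-- the elimination polynomials -/
noncomputable def ZZ (M : E[X]) (c : E[X]) (D : ℕ) : ℕ → E[X]
  | 0 => X
  | i + 1 => ZZ M c D i ^ 2 + C x * ZZ M c D i + C (M.coeff (D - 1 - i)) * X - C (c.coeff (D - 1 - i))

theorem ZZ_monic (M c : E[X]) (D i : ℕ) : (ZZ x M c D i).Monic ∧ (ZZ x M c D i).natDegree = 2 ^ i := by
  induction i with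
  | zero => exact ⟨monic_X, natDegree_X⟩
  | succ i ih =>
    obtain ⟨h1, h2⟩ := ih
    have h3 : (ZZ x M c D i ^ 2).Monic := h1.pow 2
    have h4 : (ZZ x M c D i ^ 2).natDegree = 2 ^ (i + 1) := by
      rw [h1.natDegree_pow, h2, pow_succ, mul_comm]
    have h5 : ZZ x M c D (i + 1) = ZZ x M c D i ^ 2 + (C x * ZZ x M c D i + C (M.coeff (D - 1 - i)) * X -
        C (c.coeff (D - 1 - i))) := by
      rw [ZZ]
      ring
    have hpos : 1 ≤ 2 ^ i := Nat.one_le_two_pow
    have h6 : (C x * ZZ x M c D i + C (M.coeff (D - 1 - i)) * X - C (c.coeff (D - 1 - i))).natDegree ≤ 2 ^ i := by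
      refine (natDegree_sub_le _ _).trans (max_le ((natDegree_add_le _ _).trans (max_le ?_ ?_)) ?_)
      · exact (natDegree_C_mul_le _ _).trans h2.le
      · exact (natDegree_C_mul_le _ _).trans (by rw [natDegree_X]; exact hpos)
      · rw [natDegree_C]
        exact Nat.zero_le _
    have h7 : (C x * ZZ x M c D i + C (M.coeff (D - 1 - i)) * X - C (c.coeff (D - 1 - i))).degree <
        (ZZ x M c D i ^ 2).degree := by
      rw [degree_eq_natDegree h3.ne_zero, h4]
      refine lt_of_le_of_lt degree_le_natDegree ?_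
      have : 2 ^ i < 2 ^ (i + 1) := Nat.pow_lt_pow_right (by norm_num) (by omega)
      exact_mod_cast h6.trans_lt this
    rw [h5]
    exact ⟨h3.add_of_left h7, by rw [natDegree_add_eq_left_of_degree_lt h7, h4]⟩

theorem ZZ_derivative (M c : E[X]) (D i : ℕ) (hM : M.coeff D = 1) (hi : i ≤ D) :
    derivative (ZZ x M c D i) = C (∑ j ∈ range (i + 1), M.coeff (D - i + j) * x ^ j) := by
  induction i with
  | zero =>
    rw [ZZ, derivative_X]
    simp [hM]
  | succ i ih =>
    have h2 : (2 : E[X]) = 0 := by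
      have := CharP.cast_eq_zero E[X] 2
      exact_mod_cast this
    rw [ZZ, derivative_sub, derivative_add, derivative_add, derivative_pow, derivative_C_mul, derivative_C_mul,
      derivative_X, derivative_C, ih (by omega), sum_range_succ' _ (i + 1)]
    have h3 : ∀ j ∈ range (i + 1), M.coeff (D - (i + 1) + (j + 1)) * x ^ (j + 1) =
        x * (M.coeff (D - i + j) * x ^ j) := by
      intro j _
      rw [show D - (i + 1) + (j + 1) = D - i + j by omega]
      ring
    rw [sum_congr rfl h3, ← mul_sum, C_add, C_mul]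
    have h4 : D - 1 - i = D - (i + 1) + 0 := by omega
    rw [h4]
    have h5 : (C ((2 : ℕ) : E) : E[X]) = 0 := by
      rw [CharP.cast_eq_zero, C_0]
    rw [h5]
    simp

theorem ZZ_derivative_last (M c : E[X]) (D : ℕ) (hM : M.coeff D = 1) (hD : M.natDegree = D) :
    derivative (ZZ x M c D D) = C (M.eval x) := by
  rw [ZZ_derivative x M c D D hM le_rfl, eval_eq_sum_range, hD, Nat.sub_self]
  simp

/-- the solution determined by its top coefficient -/
theorem exists_of_root (M c : E[X]) (D : ℕ) (hD0 : 1 ≤ D) (hM : M.Monic) (hD : M.natDegree = D)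
    (hc : c.degree < D) (y : E) (hy : (ZZ x M c D D).eval y = 0) :
    ∃ z : E[X], z.degree < D ∧ z.coeff (D - 1) = y ∧ M ∣ sq z - (X - C x) * z - c := by
  set s : ℕ → E := fun i => (ZZ x M c D i).eval y with hs
  have hs0 : s 0 = y := by simp [hs, ZZ]
  have hs1 : ∀ i, s (i + 1) = s i ^ 2 + x * s i + M.coeff (D - 1 - i) * y - c.coeff (D - 1 - i) := by
    intro i
    simp [hs, ZZ]
  have hsD : s D = 0 := hy
  set z : E[X] := ∑ j ∈ range D, C (s (D - 1 - j)) * X ^ j with hz
  have hzc : ∀ j, z.coeff j = if j < D then s (D - 1 - j) else 0 := by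
    intro j
    rw [hz, finsetSum_coeff]
    simp_rw [coeff_C_mul_X_pow]
    rw [sum_ite_eq (range D) j (fun j => s (D - 1 - j))]
    simp
  refine ⟨z, ?_, ?_, ?_⟩
  · rw [degree_lt_iff_coeff_zero]
    intro m hm
    rw [hzc, if_neg (by omega)]
  · rw [hzc, if_pos (by omega), show D - 1 - (D - 1) = 0 by omega, hs0]
  · refine ⟨-C y, ?_⟩
    have hMD : M.coeff D = 1 := by
      rw [← hD]
      exact hM
    have hM' : ∀ j, D < j → M.coeff j = 0 := fun j hj => coeff_eq_zero_of_natDegree_lt (by omega)
    have hc' : ∀ j, D ≤ j → c.coeff j = 0 := (degree_lt_iff_coeff_zero c D).1 hc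
    ext j
    rw [coeff_sub, coeff_sub, coeff_sq, sub_mul, coeff_sub, coeff_C_mul, mul_neg, coeff_neg, mul_comm M (C y),
      coeff_C_mul]
    rcases j with _ | j
    · rw [coeff_X_mul_zero, hzc, if_pos (by omega)]
      have h1 := hs1 (D - 1)
      rw [show D - 1 + 1 = D by omega, hsD, show D - 1 - (D - 1) = 0 by omega] at h1
      rw [Nat.sub_zero]
      linear_combination -h1
    · rw [coeff_X_mul, hzc, hzc]
      rcases lt_trichotomy (j + 1) D with h | h | h
      · rw [if_pos h, if_pos (by omega)]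
        have h1 := hs1 (D - 1 - (j + 1))
        rw [show D - 1 - (j + 1) + 1 = D - 1 - j by omega,
          show D - 1 - (D - 1 - (j + 1)) = j + 1 by omega] at h1
        linear_combination -h1
      · rw [if_neg (by omega), if_pos (by omega), h, hMD, hc' D le_rfl, show D - 1 - j = 0 by omega, hs0]
        ring
      · rw [if_neg (by omega), if_neg (by omega), hM' _ h, hc' _ (by omega)]
        ring

variable [IsSepClosed E] (hx : ∀ P : R2, P ≠ 0 → (im E P).eval x ≠ 0)

include hx

theorem lang_surj (M : R2) (hM : M ≠ 0) (c : E[X]) : ∃ z : E[X], im E M ∣ sq z - (X - C x) * z - c := by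
  have hMm := monic_of_ne_zero hM
  have hMm' : (im E M).Monic := hMm.map _
  have hMd : (im E M).natDegree = M.natDegree := hMm.natDegree_map _
  rcases Nat.eq_zero_or_pos M.natDegree with h0 | h0
  · have h1 : im E M = 1 := by
      rw [eq_one_of_monic_natDegree_zero hMm h0]
      exact Polynomial.map_one _
    rw [h1]
    exact ⟨0, one_dvd _⟩
  set c' := c %ₘ (im E M) with hc'
  have hc'd : c'.degree < (M.natDegree : WithBot ℕ) := by
    have := degree_modByMonic_lt c hMm'
    rwa [degree_eq_natDegree hMm'.ne_zero, hMd] at this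
  obtain ⟨h1, h2⟩ := ZZ_monic x (im E M) c' M.natDegree M.natDegree
  have h3 : (ZZ x (im E M) c' M.natDegree M.natDegree).Separable := by
    rw [Polynomial.separable_def, ZZ_derivative_last x (im E M) c' M.natDegree (by rw [← hMd]; exact hMm') hMd]
    exact (isCoprime_one_right.of_isCoprime_of_dvd_right (isUnit_C.2 (hx M hM).isUnit).dvd)
  obtain ⟨y, hy⟩ := IsSepClosed.exists_root _ (by
    rw [degree_eq_natDegree h1.ne_zero, h2]
    exact_mod_cast (Nat.two_pow_pos _).ne') h3
  obtain ⟨z, -, -, hz⟩ := exists_of_root x (im E M) c' M.natDegree h0 hMm' hMd hc'd y hy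
  refine ⟨z, ?_⟩
  have h4 : sq z - (X - C x) * z - c = (sq z - (X - C x) * z - c') - im E M * (c /ₘ (im E M)) := by
    have := modByMonic_add_div c (im E M)
    linear_combination this
  rw [h4]
  exact dvd_sub hz (dvd_mul_right _ _)

theorem lang_nonzero (M : R2) (hM : M ≠ 0) (h0 : 1 ≤ M.natDegree) :
    ∃ z : E[X], z ≠ 0 ∧ z.degree < M.natDegree ∧ im E M ∣ sq z - (X - C x) * z := by
  have hMm := monic_of_ne_zero hM
  have hMm' : (im E M).Monic := hMm.map _
  have hMd : (im E M).natDegree = M.natDegree := hMm.natDegree_map _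
  obtain ⟨h1, h2⟩ := ZZ_monic x (im E M) 0 M.natDegree M.natDegree
  set Z := ZZ x (im E M) 0 M.natDegree M.natDegree with hZ
  have hder : derivative Z = C ((im E M).eval x) :=
    ZZ_derivative_last x (im E M) 0 M.natDegree (by rw [← hMd]; exact hMm') hMd
  have h3 : Z.Separable := by
    rw [Polynomial.separable_def, hder]
    exact (isCoprime_one_right.of_isCoprime_of_dvd_right (isUnit_C.2 (hx M hM).isUnit).dvd)
  have hZ0 : ∀ i, (ZZ x (im E M) 0 M.natDegree i).coeff 0 = 0 := by
    intro i
    induction i with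
    | zero => simp [ZZ]
    | succ i ih =>
      rw [ZZ, coeff_sub, coeff_add, coeff_add, pow_two, mul_coeff_zero, ih, coeff_C_mul, ih]
      simp
  obtain ⟨g, hg⟩ := X_dvd_iff.2 (hZ0 M.natDegree)
  rw [← hZ] at hg
  have hg0 : g.coeff 0 = (im E M).eval x := by
    have h4 := congrArg (fun p => coeff p 0) hder
    simp only [coeff_C_zero] at h4
    rw [hg, derivative_mul, derivative_X, one_mul, coeff_add, coeff_X_mul_zero, add_zero] at h4
    exact h4
  have hg1 : g ≠ 0 := by
    rintro rfl
    rw [coeff_zero] at hg0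
    exact hx M hM hg0.symm
  have hgd : g.natDegree + 1 = 2 ^ M.natDegree := by
    rw [← h2, hg, natDegree_X_mul hg1]
  have h2D : 2 ≤ 2 ^ M.natDegree := by
    calc 2 = 2 ^ 1 := rfl
      _ ≤ 2 ^ M.natDegree := Nat.pow_le_pow_right (by norm_num) h0
  obtain ⟨y, hy⟩ := IsSepClosed.exists_root g (by
    rw [degree_eq_natDegree hg1]
    exact_mod_cast (by omega : g.natDegree ≠ 0)) (h3.of_dvd ⟨X, by rw [hg]; ring⟩)
  have hy0 : y ≠ 0 := by
    rintro rfl
    rw [IsRoot.def, ← coeff_zero_eq_eval_zero, hg0] at hy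
    exact hx M hM hy
  obtain ⟨z, hz1, hz2, hz3⟩ := exists_of_root x (im E M) 0 M.natDegree h0 hMm' hMd
    (by rw [degree_zero]; exact WithBot.bot_lt_coe _) y (by
      rw [← hZ, hg, eval_mul, hy.eq_zero, mul_zero])
  refine ⟨z, ?_, hz1, ?_⟩
  · rintro rfl
    rw [coeff_zero] at hz2
    exact hy0 hz2.symm
  · rwa [sub_zero] at hz3

theorem isCoprime_of_irreducible (π : R2) (hπ : Irreducible π) (z : E[X]) (hz0 : z ≠ 0)
    (hz1 : z.degree < π.natDegree) (hz : im E π ∣ sq z - (X - C x) * z) : IsCoprime z (im E π) := by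
  classical
  have hπm := monic_of_ne_zero hπ.ne_zero
  have hπm' : (im E π).Monic := hπm.map _
  set g0 := EuclideanDomain.gcd z (im E π) with hg0
  have hg0z : g0 ∣ z := EuclideanDomain.gcd_dvd_left _ _
  have hg0π : g0 ∣ im E π := EuclideanDomain.gcd_dvd_right _ _
  have hg00 : g0 ≠ 0 := fun h => hz0 (zero_dvd_iff.1 (h ▸ hg0z))
  set g := normalize g0 with hg
  have hassoc : Associated g0 g := normalize_associated g0 |>.symm
  have hgm : g.Monic := monic_normalize hg00
  have hgz : g ∣ z := hassoc.symm.dvd.trans hg0z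
  have hgπ : g ∣ im E π := hassoc.symm.dvd.trans hg0π
  have h1 : sq g ∣ im E π := by
    rw [← sq_im (S := E) π]
    exact sq_dvd hgπ
  have hcop : IsCoprime (im E π) (X - C x) := by
    refine IsCoprime.symm ?_
    rw [(irreducible_X_sub_C x).coprime_iff_not_dvd, dvd_iff_isRoot]
    exact hx π hπ.ne_zero
  have h2 : sq g ∣ (X - C x) * z := by
    have h3 : (X - C x) * z = sq z - (sq z - (X - C x) * z) := by ring
    rw [h3]
    exact dvd_sub (sq_dvd hgz) (h1.trans hz)
  have h3 : sq g ∣ z := (hcop.of_isCoprime_of_dvd_left h1).dvd_of_dvd_mul_left h2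
  have h4 : sq g ∣ g := by
    have h5 : sq g ∣ g0 := EuclideanDomain.dvd_gcd h3 h1
    exact h5.trans hassoc.dvd
  have hsqm : (sq g).Monic := by
    rw [sq_eq_map]
    exact hgm.map _
  have hsqd : (sq g).natDegree = g.natDegree := by
    rw [sq_eq_map]
    exact hgm.natDegree_map _
  have h5 : g = sq g := eq_of_monic_of_dvd_of_natDegree_le hsqm hgm h4 hsqd.ge
  obtain ⟨q, hq⟩ := exists_im_of_sq_eq h5.symm
  have hqπ : q ∣ π := by
    rw [← Polynomial.map_dvd_map' (algebraMap (ZMod 2) E)]
    change im E q ∣ im E π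
    rw [hq]
    exact hgπ
  rcases (hπ.dvd_iff).1 hqπ with hu | ha
  · have h6 : IsUnit g := by
      rw [← hq]
      exact hu.map (mapRingHom (algebraMap (ZMod 2) E))
    have h7 : IsUnit g0 := hassoc.isUnit_iff.2 h6
    exact EuclideanDomain.gcd_isUnit_iff.1 h7
  · exfalso
    have h6 : im E π ∣ z := by
      have h7 : im E π ∣ im E q := Polynomial.map_dvd _ ha.dvd
      rw [hq] at h7
      exact h7.trans hgz
    have h7 := degree_le_of_dvd h6 hz0
    rw [degree_eq_natDegree hπm'.ne_zero, hπm.natDegree_map] at h7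
    exact absurd hz1 (not_lt.2 h7)

/-- there is a unit solution of `v ^ (2) = (X - x) v` modulo `M` -/
theorem exists_sol_fin (M : R2) (hM : M ≠ 0) : ∃ v : E[X], Sol (X - C x) M v := by
  refine exists_sol _ M hM (fun π hπ _ c => lang_surj x hx π hπ.ne_zero c) ?_
  intro π hπ _
  obtain ⟨z, h1, h2, h3⟩ := lang_nonzero x hx π hπ.ne_zero hπ.natDegree_pos
  exact ⟨z, h3, isCoprime_of_irreducible x hx π hπ z h1 h2 h3⟩

omit hx in
/-- there is a unit solution of `w ^ (2) = (1 - x X) w` modulo `X ^ n` -/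
theorem exists_sol_inf (n : ℕ) : ∃ w : E[X], Sol (1 - C x * X) (X ^ n : R2) w := by
  have hX : ∀ π : R2, Irreducible π → π ∣ X ^ n → π = X := by
    intro π hπ hd
    have h1 : π ∣ X := hπ.prime.dvd_of_dvd_pow hd
    have h2 : Associated π X := hπ.associated_of_dvd irreducible_X h1
    exact eq_of_monic_of_associated (monic_of_ne_zero hπ.ne_zero) monic_X h2
  have hXi : im E X = X := by
    exact Polynomial.map_X _
  refine exists_sol _ _ (pow_ne_zero _ X_ne_zero) ?_ ?_
  · intro π hπ hd c
    rw [hX π hπ hd, hXi]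
    -- solve `a ^ 2 - a = c₀`
    set p : E[X] := X ^ 2 - (X + C (c.coeff 0)) with hp
    have hlt : (X + C (c.coeff 0) : E[X]).degree < ((2 : ℕ) : WithBot ℕ) := by
      rw [degree_X_add_C]
      norm_num
    have hp1 : p.Monic := monic_X_pow_sub hlt
    have hp2 : p.natDegree = 2 := by
      rw [hp]
      refine natDegree_eq_of_degree_eq_some ?_
      rw [degree_sub_eq_left_of_degree_lt (by rw [degree_X_pow]; exact hlt), degree_X_pow]
    have hp3 : p.Separable := by
      rw [Polynomial.separable_def, hp, derivative_sub, derivative_X_pow, derivative_add, derivative_X, derivative_C,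
        CharP.cast_eq_zero, C_0, zero_mul, zero_sub, add_zero]
      exact isCoprime_one_right.neg_right
    obtain ⟨a, ha⟩ := IsSepClosed.exists_root p (by
      rw [degree_eq_natDegree hp1.ne_zero, hp2]
      norm_num) hp3
    rw [IsRoot.def, hp, eval_sub, eval_pow, eval_add, eval_X, eval_C] at ha
    refine ⟨C a, ?_⟩
    rw [X_dvd_iff, coeff_sub, coeff_sub, coeff_sq, coeff_C_zero, sub_mul, one_mul, coeff_sub, coeff_C_zero]
    have h1 : (C x * X * C a : E[X]).coeff 0 = 0 := by
      rw [mul_assoc, coeff_C_mul, coeff_X_mul_zero, mul_zero]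
    rw [h1]
    linear_combination ha
  · intro π hπ hd
    rw [hX π hπ hd]
    refine ⟨1, ?_, isCoprime_one_left⟩
    rw [hXi, sq_one]
    exact ⟨C x, by ring⟩

end Sep

end Pool.Agent.K7.H76.SI
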